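import Mathlib

/-! MODULE BinE (about 60 lines). A small partial sum of binomial coefficients.

PROOF. For `0 < t <= 1`: `sum over i <= q of C(th, i) <= t^(-q) (1+t)^th` (multiply `C(th,i)` by `t^i / t^q >= 1`;
`(1+t)^th = sum of C(th,i) t^i`, `add_pow`), at most `exp (q log(1/t) + t th) <= exp ((k log(1/t) + 4 t) x)`. Take
`t = min 1 (del/8)` and `k = del / (2 (log (1/t) + 1))`. -/

open scoped BigOperators

namespace Pool.Agent.H95.FD

theorem binom_exp (δ : ℝ) (hδ : 0 < δ) : ∃ κ : ℝ, 0 < κ ∧ ∀ (θ q : ℕ) (x : ℝ), 0 ≤ x →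
    (θ : ℝ) ≤ 4 * x → (q : ℝ) ≤ κ * x →
    ((∑ i ∈ Finset.range (q + 1), θ.choose i : ℕ) : ℝ) ≤ Real.exp (δ * x) := by
  set t : ℝ := min 1 (δ / 8) with ht
  have ht0 : 0 < t := lt_min one_pos (by positivity)
  have ht1 : t ≤ 1 := min_le_left _ _
  have ht2 : t ≤ δ / 8 := min_le_right _ _
  have hlog : 0 ≤ Real.log (1 / t) := Real.log_nonneg (by rw [le_div_iff₀ ht0]; linarith)
  refine ⟨δ / (2 * (Real.log (1 / t) + 1)), by positivity, ?_⟩
  intro θ q x hx hθ hq
  -- weighted sum
  have h1 : ((∑ i ∈ Finset.range (q + 1), θ.choose i : ℕ) : ℝ) * t ^ q ≤ (1 + t) ^ θ := by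
    have h2 : (1 + t) ^ θ = ∑ i ∈ Finset.range (θ + 1), (θ.choose i : ℝ) * t ^ i := by
      rw [add_comm 1 t, add_pow]
      refine Finset.sum_congr rfl fun i _ => ?_
      rw [one_pow, mul_one, mul_comm]
    have h3 : ((∑ i ∈ Finset.range (q + 1), θ.choose i : ℕ) : ℝ) * t ^ q ≤
        ∑ i ∈ Finset.range (q + 1), (θ.choose i : ℝ) * t ^ i := by
      rw [Nat.cast_sum, Finset.sum_mul]
      refine Finset.sum_le_sum fun i hi => ?_
      rw [Finset.mem_range] at hi
      refine mul_le_mul_of_nonneg_left ?_ (Nat.cast_nonneg _)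
      exact pow_le_pow_of_le_one ht0.le ht1 (by omega)
    refine h3.trans ?_
    rw [h2]
    have h4 : ∀ m : ℕ, ∑ i ∈ Finset.range m, (θ.choose i : ℝ) * t ^ i ≤
        ∑ i ∈ Finset.range (θ + 1), (θ.choose i : ℝ) * t ^ i := by
      intro m
      rcases le_total m (θ + 1) with hm | hm
      · exact Finset.sum_le_sum_of_subset_of_nonneg (Finset.range_mono hm)
          fun _ _ _ => by positivity
      · refine le_of_eq (Finset.sum_subset (Finset.range_mono hm) ?_).symm
        intro i _ hi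
        rw [Finset.mem_range, not_lt] at hi
        rw [Nat.choose_eq_zero_of_lt (by omega), Nat.cast_zero, zero_mul]
    exact h4 _
  have h5 : (1 + t) ^ θ ≤ Real.exp (t * θ) := by
    have h6 : 1 + t ≤ Real.exp t := by
      have := Real.add_one_le_exp t
      linarith
    calc (1 + t) ^ θ ≤ (Real.exp t) ^ θ := pow_le_pow_left₀ (by positivity) h6 θ
      _ = Real.exp (t * θ) := by rw [← Real.exp_nat_mul, mul_comm]
  have h7 : t ^ q = Real.exp (-(q * Real.log (1 / t))) := by
    rw [one_div, Real.log_inv, mul_neg, neg_neg, Real.exp_nat_mul, Real.exp_log ht0]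
  have h8 : ((∑ i ∈ Finset.range (q + 1), θ.choose i : ℕ) : ℝ) ≤
      Real.exp (t * θ) * Real.exp (q * Real.log (1 / t)) := by
    have h9 := h1.trans h5
    rw [h7, Real.exp_neg, ← div_eq_mul_inv, div_le_iff₀ (Real.exp_pos _)] at h9
    exact h9
  refine h8.trans ?_
  rw [← Real.exp_add, Real.exp_le_exp]
  have h10 : t * θ ≤ δ / 2 * x := by
    calc t * θ ≤ (δ / 8) * (4 * x) := mul_le_mul ht2 hθ (Nat.cast_nonneg _) (by positivity)
      _ = δ / 2 * x := by ring
  have h11 : q * Real.log (1 / t) ≤ δ / 2 * x := by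
    calc q * Real.log (1 / t) ≤ (δ / (2 * (Real.log (1 / t) + 1)) * x) * Real.log (1 / t) :=
          mul_le_mul_of_nonneg_right hq hlog
      _ = δ / 2 * x * (Real.log (1 / t) / (Real.log (1 / t) + 1)) := by
          field_simp
      _ ≤ δ / 2 * x * 1 := by
          refine mul_le_mul_of_nonneg_left ?_ (by positivity)
          rw [div_le_one (by positivity)]
          linarith
      _ = δ / 2 * x := mul_one _
  linarith

end Pool.Agent.H95.FD
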