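import Pool.Agent.H95.FD.Defs

/-! # Tails of the binomial distribution (module Tail, proved by helper96)

Few sets have size at most `r - j` or at least `r + j`, `j = jj n = ceil(n^(3/4))`.

PROOF. (T1) `choose_tail`: induction on `t`: `C(n, k-t-1) (n - k + t + 1) = C(n, k-t) (k - t)` (`Nat.succ_mul_choose_eq`,
`Nat.choose_succ_right_eq`), and for `t + 1 <= k <= n / 2`: `(k - t) / (n - k + t + 1) <= (n/2 - t) / (n/2 + t + 1)
= 1 - (2t+1) / (n/2 + t + 1) <= 1 - (2t+1) / n <= exp (- (2t+1) / n)`, and `(t+1)^2 = t^2 + 2t + 1`.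
(T2) Let `h = n / 2` (floor), `t = h - r >= 0`. `N = C(n,r) = C(n, h-t) <= C(n,h) exp (- t^2/n) <= 2^n exp (- t^2 / n)` and
`2^n <= n^3 N` give `t^2 <= 3 n log n`, so `t <= 2 sqrt (n log n) <= j / 4` for large `n`.
(T3) sets of size at most `r - j`: their number is the sum of `C(n,k)` over `k <= r - j` (`Finset.card_powersetCard`, sum over the
sizes; empty if `j > r`), each `C(n,k) <= C(n, r-j) <= N exp (- j^2 / n)` (monotone up to the middle: T1 with `k` replaced by
`r - j`), so at most `(n+1) N exp (- sqrt n) <= eps N / n` for large `n`.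
(T4) sets of size `k >= r + j`: `C(n,k) = C(n, n-k)` with `n - k <= n - r - j <= h + 1 + t - j <= h - j/2` for large `n`, so
`C(n,k) <= C(n,h) exp (- (j/2)^2 / n) <= 2^n exp (- sqrt n / 4) <= n^3 N exp (- sqrt n / 4)`; at most `n + 1` values of `k`. -/

open scoped BigOperators
open Filter

namespace Pool.Agent.H95.FD

open Pool.Agent.H28.Johnson Pool.Agent.H13.VM

lemma choose_step {n m : ℕ} {c : ℝ} (hn : 1 ≤ n) (hm : m < n) (hc : c ≤ (n : ℝ) - 2 * m - 1) (hc0 : 0 ≤ c) :
    (n.choose m : ℝ) ≤ (n.choose (m + 1) : ℝ) * Real.exp (-(c / n)) := by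
  have hn0 : (0 : ℝ) < n := by exact_mod_cast hn
  have hnm : (0 : ℝ) < (n : ℝ) - m := by
    have : (m : ℝ) < n := by exact_mod_cast hm
    linarith
  have h1 : (n.choose (m + 1) : ℝ) * ((m : ℝ) + 1) = (n.choose m : ℝ) * ((n : ℝ) - m) := by
    have h := Nat.choose_succ_right_eq n m
    have h2 : ((n.choose (m + 1) * (m + 1) : ℕ) : ℝ) = ((n.choose m * (n - m) : ℕ) : ℝ) := by
      rw [h]
    rw [Nat.cast_mul, Nat.cast_mul, Nat.cast_sub hm.le] at h2
    push_cast at h2
    exact h2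
  have h2 : (n.choose m : ℝ) = (n.choose (m + 1) : ℝ) * (((m : ℝ) + 1) / ((n : ℝ) - m)) := by
    rw [mul_div_assoc', h1, mul_div_assoc, div_self hnm.ne', mul_one]
  rw [h2]
  apply mul_le_mul_of_nonneg_left _ (Nat.cast_nonneg _)
  have h3 : ((m : ℝ) + 1) / ((n : ℝ) - m) ≤ 1 - c / n := by
    rw [div_le_iff₀ hnm]
    have h4 : c / n * ((n : ℝ) - m) ≤ c := by
      rw [div_mul_eq_mul_div, div_le_iff₀ hn0]
      apply mul_le_mul_of_nonneg_left _ hc0
      have : (0 : ℝ) ≤ m := Nat.cast_nonneg _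
      linarith
    have h5 : (1 - c / n) * ((n : ℝ) - m) = ((n : ℝ) - m) - c / n * ((n : ℝ) - m) := by ring
    rw [h5]
    linarith
  have h6 := Real.add_one_le_exp (-(c / (n : ℝ)))
  linarith

theorem choose_tail {n k t : ℕ} (hn : 1 ≤ n) (hk : 2 * k ≤ n) (ht : t ≤ k) :
    (n.choose (k - t) : ℝ) ≤ (n.choose k : ℝ) * Real.exp (-((t : ℝ) ^ 2 / n)) := by
  induction t with
  | zero => simp
  | succ t ih =>
    have ih' := ih (by omega)
    have hm : k - t = (k - (t + 1)) + 1 := by omega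
    rw [hm] at ih'
    have hstep := choose_step (n := n) (m := k - (t + 1)) (c := 2 * t + 1) hn (by omega)
      (by
        have h1 : ((k - (t + 1) : ℕ) : ℝ) = (k : ℝ) - (t + 1) := by
          rw [Nat.cast_sub ht]
          push_cast
          ring
        rw [h1]
        have h2 : (2 * k : ℝ) ≤ n := by exact_mod_cast hk
        linarith) (by positivity)
    refine hstep.trans ((mul_le_mul_of_nonneg_right ih' (Real.exp_pos _).le).trans (le_of_eq ?_))
    rw [mul_assoc, ← Real.exp_add]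
    congr 2
    push_cast
    ring

lemma ev_small {a ε : ℝ} (ha : 0 < a) (hε : 0 < ε) (m : ℕ) :
    ∀ᶠ n : ℕ in atTop, (n : ℝ) ^ m * Real.exp (-(a * Real.sqrt n)) ≤ ε := by
  have h1 : Tendsto (fun n : ℕ => a * Real.sqrt (n : ℝ)) atTop atTop :=
    (Real.tendsto_sqrt_atTop.comp tendsto_natCast_atTop_atTop).const_mul_atTop ha
  have h2 := ((Real.tendsto_pow_mul_exp_neg_atTop_nhds_zero (2 * m)).comp h1).const_mul
    ((a ^ (2 * m))⁻¹)
  rw [mul_zero] at h2
  have h3 := h2.eventually_le_const hε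
  refine h3.mono fun n hn => ?_
  refine le_trans (le_of_eq ?_) hn
  simp only [Function.comp]
  rw [mul_pow, ← mul_assoc, ← mul_assoc, inv_mul_cancel₀ (pow_pos ha _).ne', one_mul,
    pow_mul (Real.sqrt (n : ℝ)), Real.sq_sqrt (Nat.cast_nonneg _)]

lemma card_filter_size {n : ℕ} {p : ℕ → Prop} [DecidablePred p] {M : ℝ} (hM : 0 ≤ M)
    (h : ∀ k, k ≤ n → p k → (n.choose k : ℝ) ≤ M) :
    (((Finset.univ : Fam n).filter fun S => p S.card).card : ℝ) ≤ ((n : ℝ) + 1) * M := by
  have hmaps : ∀ S ∈ (Finset.univ : Fam n).filter (fun S => p S.card),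
      S.card ∈ Finset.range (n + 1) := by
    intro S _
    have := Finset.card_le_univ S
    rw [Fintype.card_fin] at this
    exact Finset.mem_range.mpr (by omega)
  rw [Finset.card_eq_sum_card_fiberwise hmaps, Nat.cast_sum]
  have hb : ∀ k ∈ Finset.range (n + 1),
      (((((Finset.univ : Fam n).filter fun S => p S.card).filter fun S => S.card = k).card : ℕ)
        : ℝ) ≤ M := by
    intro k hk
    by_cases hp : p k
    · refine le_trans ?_ (h k (by have := Finset.mem_range.mp hk; omega) hp)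
      have hsub : (((Finset.univ : Fam n).filter fun S => p S.card).filter fun S => S.card = k) ⊆
          Finset.powersetCard k Finset.univ := by
        intro S hS
        rw [Finset.mem_filter] at hS
        exact Finset.mem_powersetCard.mpr ⟨Finset.subset_univ _, hS.2⟩
      have hc := Finset.card_le_card hsub
      rw [Finset.card_powersetCard, Finset.card_univ, Fintype.card_fin] at hc
      exact_mod_cast hc
    · have he : (((Finset.univ : Fam n).filter fun S => p S.card).filter fun S => S.card = k)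
          = ∅ := by
        apply Finset.eq_empty_of_forall_notMem
        intro S hS
        rw [Finset.mem_filter, Finset.mem_filter] at hS
        exact hp (hS.2 ▸ hS.1.2)
      rw [he]
      simpa using hM
  refine (Finset.sum_le_sum hb).trans (le_of_eq ?_)
  rw [Finset.sum_const, Finset.card_range, nsmul_eq_mul]
  push_cast
  ring

lemma jj_ge (n : ℕ) : (n : ℝ) ^ (3 / 4 : ℝ) ≤ (jj n : ℝ) := Nat.le_ceil _

lemma rpow_sq_div {n : ℕ} (hn : 1 ≤ n) :
    ((n : ℝ) ^ (3 / 4 : ℝ)) ^ 2 / n = Real.sqrt n := by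
  have hn0 : (0 : ℝ) < n := by exact_mod_cast hn
  rw [← Real.rpow_natCast, ← Real.rpow_mul hn0.le, Real.sqrt_eq_rpow, div_eq_iff hn0.ne']
  conv_rhs => rw [← Real.rpow_one (n : ℝ)]
  rw [Real.rpow_one, ← Real.rpow_add_one hn0.ne']
  norm_num

/-- lower bound for the exponent -/
lemma sq_div_ge {n : ℕ} (hn : 1 ≤ n) {c x : ℝ} (hc : 0 ≤ c) (hx : c * (jj n : ℝ) ≤ x) :
    c ^ 2 * Real.sqrt n ≤ x ^ 2 / n := by
  have hn0 : (0 : ℝ) < n := by exact_mod_cast hn
  rw [← rpow_sq_div hn, mul_div_assoc', ← mul_pow]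
  apply div_le_div_of_nonneg_right _ hn0.le
  have h1 := jj_ge n
  have h0 : (0 : ℝ) ≤ (n : ℝ) ^ (3 / 4 : ℝ) := Real.rpow_nonneg hn0.le _
  apply pow_le_pow_left₀ (mul_nonneg hc h0)
  exact (mul_le_mul_of_nonneg_left h1 hc).trans hx

lemma jj_tendsto : Tendsto (fun n : ℕ => (jj n : ℝ)) atTop atTop := by
  refine tendsto_atTop_mono jj_ge ?_
  exact (tendsto_rpow_atTop (by norm_num)).comp tendsto_natCast_atTop_atTop

open Classical in
theorem tail_small (ε : ℝ) (hε : 0 < ε) : ∀ᶠ n : ℕ in atTop, ∀ r : ℕ, 2 * r ≤ n → Cen n r →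
    (((Finset.univ : Fam n).filter fun S => S.card + jj n ≤ r).card : ℝ) ≤
      ε * ((n.choose r : ℝ) / n) ∧
    (((Finset.univ : Fam n).filter fun S => r + jj n ≤ S.card).card : ℝ) ≤
      ε * ((n.choose r : ℝ) / n) := by
  have e1 := ev_small (a := 1) (ε := ε / 2) (by norm_num) (by positivity) 2
  have e2 := ev_small (a := (1 / 2) ^ 2) (ε := ε / 2) (by norm_num) (by positivity) 5
  have e3 := ev_small (a := (1 / 4) ^ 2) (ε := 1 / 2) (by norm_num) (by norm_num) 3
  have e4 := jj_tendsto.eventually_ge_atTop 4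
  filter_upwards [e1, e2, e3, e4, eventually_ge_atTop 1] with n h1 h2 h3 h4 hn r hr hC
  have hn1 : (1 : ℝ) ≤ n := by exact_mod_cast hn
  have hn0 : (0 : ℝ) < n := by linarith
  have hN0 : (0 : ℝ) ≤ n.choose r := Nat.cast_nonneg _
  have hC2 : (2 : ℝ) ^ n ≤ (n : ℝ) ^ 3 * (n.choose r : ℝ) := by exact_mod_cast hC.1
  constructor
  · have hk : ∀ k, k ≤ n → k + jj n ≤ r →
        (n.choose k : ℝ) ≤ (n.choose r : ℝ) * Real.exp (-(1 * Real.sqrt n)) := by
      intro k _ hkr
      have ht := choose_tail (n := n) (k := r) (t := r - k) hn hr (Nat.sub_le _ _)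
      rw [Nat.sub_sub_self (by omega)] at ht
      refine ht.trans (mul_le_mul_of_nonneg_left (Real.exp_le_exp.mpr (neg_le_neg ?_)) hN0)
      have := sq_div_ge (n := n) hn (c := 1) (x := ((r - k : ℕ) : ℝ)) (by norm_num)
        (by
          rw [one_mul]
          exact_mod_cast (by omega : jj n ≤ r - k))
      rw [one_pow] at this
      exact this
    refine (card_filter_size (p := fun k => k + jj n ≤ r)
      (mul_nonneg hN0 (Real.exp_pos _).le) hk).trans ?_
    rw [mul_div_assoc', le_div_iff₀ hn0]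
    have e : ((n : ℝ) + 1) * ((n.choose r : ℝ) * Real.exp (-(1 * Real.sqrt n))) * n ≤
        (2 * ((n : ℝ) ^ 2 * Real.exp (-(1 * Real.sqrt n)))) * (n.choose r : ℝ) := by
      have : ((n : ℝ) + 1) * n ≤ 2 * (n : ℝ) ^ 2 := by nlinarith
      calc ((n : ℝ) + 1) * ((n.choose r : ℝ) * Real.exp (-(1 * Real.sqrt n))) * n
          = (((n : ℝ) + 1) * n) * ((n.choose r : ℝ) * Real.exp (-(1 * Real.sqrt n))) := by ring
        _ ≤ (2 * (n : ℝ) ^ 2) * ((n.choose r : ℝ) * Real.exp (-(1 * Real.sqrt n))) :=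
            mul_le_mul_of_nonneg_right this (mul_nonneg hN0 (Real.exp_pos _).le)
        _ = _ := by ring
    refine e.trans (mul_le_mul_of_nonneg_right ?_ hN0)
    linarith
  · -- the distance of r to the middle
    set h := n / 2 with hh
    have hh2 : 2 * h ≤ n := by omega
    have hh3 : n ≤ 2 * h + 1 := by omega
    have hrh : r ≤ h := by omega
    have hmid : (n.choose h : ℝ) ≤ 2 ^ n := by
      exact_mod_cast (Nat.choose_le_two_pow n h)
    have hdist : ((h - r : ℕ) : ℝ) < 1 / 4 * (jj n : ℝ) := by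
      by_contra hcon
      have hcon' := not_lt.mp hcon
      have ht := choose_tail (n := n) (k := h) (t := h - r) hn hh2 (Nat.sub_le _ _)
      rw [Nat.sub_sub_self hrh] at ht
      have hs := sq_div_ge (n := n) hn (c := 1 / 4) (x := ((h - r : ℕ) : ℝ)) (by norm_num) hcon'
      have ht2 : (n.choose r : ℝ) ≤ 2 ^ n * Real.exp (-((1 / 4) ^ 2 * Real.sqrt n)) :=
        ht.trans (mul_le_mul hmid (Real.exp_le_exp.mpr (neg_le_neg hs)) (Real.exp_pos _).le
          (by positivity))
      have h5 : (2 : ℝ) ^ n ≤ 2 ^ n * ((n : ℝ) ^ 3 * Real.exp (-((1 / 4) ^ 2 * Real.sqrt n))) := by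
        calc (2 : ℝ) ^ n ≤ (n : ℝ) ^ 3 * (n.choose r : ℝ) := hC2
          _ ≤ (n : ℝ) ^ 3 * (2 ^ n * Real.exp (-((1 / 4) ^ 2 * Real.sqrt n))) :=
              mul_le_mul_of_nonneg_left ht2 (by positivity)
          _ = _ := by ring
      have h6 : (2 : ℝ) ^ n * ((n : ℝ) ^ 3 * Real.exp (-((1 / 4) ^ 2 * Real.sqrt n))) ≤
          2 ^ n * (1 / 2) := mul_le_mul_of_nonneg_left h3 (by positivity)
      have h7 : (0 : ℝ) < 2 ^ n := by positivity
      linarith
    have hk : ∀ k, k ≤ n → r + jj n ≤ k →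
        (n.choose k : ℝ) ≤ (n : ℝ) ^ 3 * (n.choose r : ℝ) *
          Real.exp (-((1 / 2) ^ 2 * Real.sqrt n)) := by
      intro k hkn hkr
      have hx : (1 / 2 : ℝ) * (jj n : ℝ) ≤ (h : ℝ) - ((n - k : ℕ) : ℝ) := by
        have a1 : ((h - r : ℕ) : ℝ) = (h : ℝ) - r := Nat.cast_sub hrh
        have a2 : ((n - k : ℕ) : ℝ) = (n : ℝ) - k := Nat.cast_sub hkn
        have a3 : (n : ℝ) ≤ 2 * h + 1 := by exact_mod_cast hh3
        have a4 : (r : ℝ) + jj n ≤ k := by exact_mod_cast hkr
        rw [a1] at hdist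
        rw [a2]
        linarith
      have hle : n - k ≤ h := by
        have b1 : (0 : ℝ) ≤ 1 / 2 * (jj n : ℝ) := by positivity
        have b2 : ((n - k : ℕ) : ℝ) ≤ h := by linarith
        exact_mod_cast b2
      have ht := choose_tail (n := n) (k := h) (t := h - (n - k)) hn hh2 (Nat.sub_le _ _)
      rw [Nat.sub_sub_self hle, Nat.choose_symm hkn] at ht
      have hs := sq_div_ge (n := n) hn (c := 1 / 2) (x := ((h - (n - k) : ℕ) : ℝ)) (by norm_num)
        (by rw [Nat.cast_sub hle]; exact hx)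
      refine ht.trans (mul_le_mul (hmid.trans hC2) (Real.exp_le_exp.mpr (neg_le_neg hs))
        (Real.exp_pos _).le (by positivity))
    refine (card_filter_size (p := fun k => r + jj n ≤ k) (by positivity) hk).trans ?_
    rw [mul_div_assoc', le_div_iff₀ hn0]
    have e : ((n : ℝ) + 1) * ((n : ℝ) ^ 3 * (n.choose r : ℝ) *
          Real.exp (-((1 / 2) ^ 2 * Real.sqrt n))) * n ≤
        (2 * ((n : ℝ) ^ 5 * Real.exp (-((1 / 2) ^ 2 * Real.sqrt n)))) * (n.choose r : ℝ) := by
      have : ((n : ℝ) + 1) * n ≤ 2 * (n : ℝ) ^ 2 := by nlinarith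
      calc ((n : ℝ) + 1) * ((n : ℝ) ^ 3 * (n.choose r : ℝ) *
            Real.exp (-((1 / 2) ^ 2 * Real.sqrt n))) * n
          = (((n : ℝ) + 1) * n) * ((n : ℝ) ^ 3 * (n.choose r : ℝ) *
            Real.exp (-((1 / 2) ^ 2 * Real.sqrt n))) := by ring
        _ ≤ (2 * (n : ℝ) ^ 2) * ((n : ℝ) ^ 3 * (n.choose r : ℝ) *
            Real.exp (-((1 / 2) ^ 2 * Real.sqrt n))) :=
            mul_le_mul_of_nonneg_right this (by positivity)
        _ = _ := by ring
    refine e.trans (mul_le_mul_of_nonneg_right ?_ hN0)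
    linarith

end Pool.Agent.H95.FD
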