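import Pool.Agent.H95.FD.CodeA
import Pool.Agent.H95.FD.Tail
import Pool.Agent.H28.KW

/-! MODULE CodeB (about 150 lines). The number of codes is `exp (o(N/n))`.

PROOF. Let `N = C(n,r)`, `j = jj n`, `M = 8 N (n+1)^(2j)`. By `card_codes` and `tail_small (eps/4)` the first two factors are at most
`2^(eps/2 N/n) <= exp (eps/2 N/n)`. Third factor: let `q0 = ceil (16 N log n / n^2)`, `q <= q0`, `1 <= q0 <= M`; the sum over
`i <= q` is at most the sum over `i <= q0`, at most `(e M / q0)^q0` (`Pool.Agent.H28.KW.sum_choose_le`), with logarithm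
`q0 (1 + log (M / q0))`; `M / q0 <= 8 (n+1)^(2j) n^2 / (16 log n) <= (n+1)^(2j+2)`; `q0 <= 17 N log n / n^2` for large `n`
(`N >= 2^n / n^3` from `Cen`); so the logarithm is at most `(17 N log n / n^2) (1 + (2j+2) log (n+1)) <= (eps/2) N / n` for large
`n`, because `j <= n^(3/4) + 1` and `log n log (n+1) n^(3/4) / n` tends to 0. -/

open scoped BigOperators
open Filter

namespace Pool.Agent.H95.FD

open Pool.Agent.H28.Johnson Pool.Agent.H13.VM

private lemma two_pow_le (a : ℕ) : (2 : ℝ) ^ a ≤ Real.exp a := by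
  have h1 : (2 : ℝ) ≤ Real.exp 1 := by
    have := Real.add_one_le_exp (1 : ℝ)
    linarith
  calc (2 : ℝ) ^ a ≤ (Real.exp 1) ^ a := pow_le_pow_left₀ (by norm_num) h1 a
    _ = Real.exp a := by rw [← Real.exp_nat_mul, mul_one]

private lemma eventually_pow_le : ∀ᶠ n : ℕ in atTop, (n : ℝ) ^ 5 ≤ (2 : ℝ) ^ n := by
  have h := (tendsto_pow_const_div_const_pow_of_one_lt 5 (by norm_num : (1 : ℝ) < 2)).eventually
    (gt_mem_nhds (zero_lt_one' ℝ))
  filter_upwards [h] with n hn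
  rw [div_lt_one (by positivity)] at hn
  exact le_of_lt hn

private lemma bracket {ε : ℝ} (hε : 0 < ε) {n : ℕ} (hn : 16 ≤ n)
    (ht : 104992 / ε ≤ ((n : ℝ) ^ (1 / 16 : ℝ))) :
    Real.log n / n * (1 + (2 * (jj n : ℝ) + 2) * Real.log (n + 1)) ≤ ε / 34 := by
  have hn1 : (16 : ℝ) ≤ n := by exact_mod_cast hn
  have hn0 : (0 : ℝ) < n := by linarith
  set t : ℝ := (n : ℝ) ^ (1 / 16 : ℝ) with htdef
  have ht1 : 1 ≤ t := Real.one_le_rpow (by linarith) (by norm_num)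
  have ht0 : 0 < t := by linarith
  have e16 : t ^ 16 = n := by
    rw [htdef, ← Real.rpow_natCast, ← Real.rpow_mul hn0.le]
    norm_num
  have e12 : (n : ℝ) ^ (3 / 4 : ℝ) = t ^ 12 := by
    rw [htdef, ← Real.rpow_natCast, ← Real.rpow_mul hn0.le]
    norm_num
  have hlog : Real.log n ≤ 16 * t := by
    have h := Real.log_le_rpow_div hn0.le (by norm_num : (0 : ℝ) < 1 / 16)
    rw [← htdef] at h
    linarith
  have hlog0 : 0 ≤ Real.log n := Real.log_nonneg (by linarith)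
  have hlog1 : Real.log (n + 1) ≤ 32 * t := by
    have h1 : Real.log ((n : ℝ) + 1) ≤ Real.log ((n : ℝ) ^ 2) := by
      apply Real.log_le_log (by linarith)
      nlinarith
    rw [Real.log_pow] at h1
    push_cast at h1
    linarith
  have hlog10 : 0 ≤ Real.log ((n : ℝ) + 1) := Real.log_nonneg (by linarith)
  have hj : (jj n : ℝ) ≤ t ^ 12 + 1 := by
    rw [jj, ← e12]
    exact (Nat.ceil_lt_add_one (by positivity)).le
  have ht12 : 1 ≤ t ^ 12 := one_le_pow₀ ht1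
  have ht13 : 1 ≤ t ^ 13 := one_le_pow₀ ht1
  have h1 : 1 + (2 * (jj n : ℝ) + 2) * Real.log (n + 1) ≤ 193 * t ^ 13 := by
    have h2 : (2 * (jj n : ℝ) + 2) * Real.log (n + 1) ≤ (6 * t ^ 12) * (32 * t) := by
      apply mul_le_mul _ hlog1 hlog10 (by positivity)
      linarith
    have h3 : (6 * t ^ 12) * (32 * t) = 192 * t ^ 13 := by ring
    linarith
  have h0 : 0 ≤ 1 + (2 * (jj n : ℝ) + 2) * Real.log (n + 1) := by positivity
  calc Real.log n / n * (1 + (2 * (jj n : ℝ) + 2) * Real.log (n + 1))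
      ≤ (16 * t / n) * (193 * t ^ 13) := by
        apply mul_le_mul _ h1 h0 (by positivity)
        exact div_le_div_of_nonneg_right hlog hn0.le
    _ = 3088 / t ^ 2 := by
        rw [← e16]
        field_simp
        ring
    _ ≤ 3088 / t := by
        apply div_le_div_of_nonneg_left (by norm_num) ht0
        nlinarith
    _ ≤ ε / 34 := by
        rw [div_le_div_iff₀ ht0 (by norm_num)]
        rw [div_le_iff₀ hε] at ht
        linarith

private lemma sum_bound (ε : ℝ) (hε : 0 < ε) (n : ℕ) (hn : 16 ≤ n)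
    (hpow : (n : ℝ) ^ 5 ≤ (2 : ℝ) ^ n) (ht : 104992 / ε ≤ ((n : ℝ) ^ (1 / 16 : ℝ))) (r : ℕ)
    (hN1 : 1 ≤ n.choose r) (hcen : 2 ^ n ≤ n ^ 3 * n.choose r) (q : ℕ)
    (hq : (q : ℝ) ≤ 16 * (n.choose r : ℝ) * Real.log n / (n : ℝ) ^ 2) :
    ((∑ i ∈ Finset.range (q + 1), (8 * n.choose r * (n + 1) ^ (2 * jj n)).choose i : ℕ) : ℝ) ≤
      Real.exp (ε / 2 * ((n.choose r : ℝ) / n)) := by
  have hn1 : (16 : ℝ) ≤ n := by exact_mod_cast hn
  have hn0 : (0 : ℝ) < n := by linarith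
  have hN : (1 : ℝ) ≤ (n.choose r : ℝ) := by exact_mod_cast hN1
  have hlog1 : 1 ≤ Real.log n := by
    rw [Real.le_log_iff_exp_le hn0]
    have := Real.exp_one_lt_d9
    linarith
  have hlogn : Real.log n ≤ n := (Real.log_le_sub_one_of_pos hn0).trans (by linarith)
  set Q : ℝ := 16 * (n.choose r : ℝ) * Real.log n / (n : ℝ) ^ 2 with hQ
  have hQ0 : 0 < Q := by positivity
  have hq0 : q ≤ ⌈Q⌉₊ := by
    have h1 : (q : ℝ) ≤ (⌈Q⌉₊ : ℝ) := hq.trans (Nat.le_ceil _)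
    exact_mod_cast h1
  have hq1 : 1 ≤ ⌈Q⌉₊ := by
    rw [Nat.one_le_ceil_iff]
    exact hQ0
  have hceil : (⌈Q⌉₊ : ℝ) ≤ Q + 1 := (Nat.ceil_lt_add_one hQ0.le).le
  set M : ℕ := 8 * n.choose r * (n + 1) ^ (2 * jj n) with hM
  have hMr : (M : ℝ) = 8 * (n.choose r : ℝ) * ((n : ℝ) + 1) ^ (2 * jj n) := by
    rw [hM]
    push_cast
    ring
  have hQN : Q ≤ (n.choose r : ℝ) := by
    rw [hQ, div_le_iff₀ (by positivity)]
    have h1 : 16 * Real.log n ≤ (n : ℝ) ^ 2 := by nlinarith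
    nlinarith
  have hqM : ⌈Q⌉₊ ≤ M := by
    have h1 : (1 : ℝ) ≤ ((n : ℝ) + 1) ^ (2 * jj n) := one_le_pow₀ (by linarith)
    have h2 : (⌈Q⌉₊ : ℝ) ≤ (M : ℝ) := by
      rw [hMr]
      nlinarith
    exact_mod_cast h2
  have hsum : ((∑ i ∈ Finset.range (q + 1), M.choose i : ℕ) : ℝ) ≤
      (Real.exp 1 * M / (⌈Q⌉₊ : ℕ)) ^ ⌈Q⌉₊ := by
    refine le_trans ?_ (Pool.Agent.H28.KW.sum_choose_le M ⌈Q⌉₊ hq1 hqM)
    have : (∑ i ∈ Finset.range (q + 1), M.choose i) ≤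
        ∑ i ∈ Finset.range (⌈Q⌉₊ + 1), M.choose i :=
      Finset.sum_le_sum_of_subset (Finset.range_mono (by omega))
    exact_mod_cast this
  refine hsum.trans ?_
  have hqpos : (0 : ℝ) < (⌈Q⌉₊ : ℝ) := by exact_mod_cast hq1
  have hbase : Real.exp 1 * M / (⌈Q⌉₊ : ℕ) ≤
      Real.exp (1 + (2 * (jj n : ℝ) + 2) * Real.log (n + 1)) := by
    have h1 : (M : ℝ) / (⌈Q⌉₊ : ℝ) ≤ ((n : ℝ) + 1) ^ (2 * jj n + 2) := by
      rw [div_le_iff₀ hqpos]
      have h2 : ((n : ℝ) + 1) ^ (2 * jj n + 2) * Q ≤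
          ((n : ℝ) + 1) ^ (2 * jj n + 2) * (⌈Q⌉₊ : ℝ) :=
        mul_le_mul_of_nonneg_left (Nat.le_ceil _) (by positivity)
      refine le_trans ?_ h2
      rw [hMr, hQ, pow_add]
      have h3 : (n : ℝ) ^ 2 * (8 * (n.choose r : ℝ)) ≤
          ((n : ℝ) + 1) ^ 2 * (16 * (n.choose r : ℝ) * Real.log n) := by
        have h4 : (n : ℝ) ^ 2 ≤ ((n : ℝ) + 1) ^ 2 := by nlinarith
        have h5 : 8 * (n.choose r : ℝ) ≤ 16 * (n.choose r : ℝ) * Real.log n := by nlinarith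
        exact mul_le_mul h4 h5 (by positivity) (by positivity)
      have h6 : 8 * (n.choose r : ℝ) ≤
          ((n : ℝ) + 1) ^ 2 * (16 * (n.choose r : ℝ) * Real.log n / (n : ℝ) ^ 2) := by
        rw [← mul_div_assoc, le_div_iff₀ (by positivity)]
        linarith
      calc 8 * (n.choose r : ℝ) * ((n : ℝ) + 1) ^ (2 * jj n)
          ≤ (((n : ℝ) + 1) ^ 2 * (16 * (n.choose r : ℝ) * Real.log n / (n : ℝ) ^ 2)) *
            ((n : ℝ) + 1) ^ (2 * jj n) := mul_le_mul_of_nonneg_right h6 (by positivity)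
        _ = _ := by ring
    calc Real.exp 1 * M / (⌈Q⌉₊ : ℕ) = Real.exp 1 * ((M : ℝ) / (⌈Q⌉₊ : ℝ)) := by
          rw [mul_div_assoc]
      _ ≤ Real.exp 1 * ((n : ℝ) + 1) ^ (2 * jj n + 2) :=
          mul_le_mul_of_nonneg_left h1 (Real.exp_pos _).le
      _ = Real.exp (1 + (2 * (jj n : ℝ) + 2) * Real.log (n + 1)) := by
          rw [Real.exp_add]
          congr 1
          have h7 : ((n : ℝ) + 1) = Real.exp (Real.log ((n : ℝ) + 1)) := by
            rw [Real.exp_log (by linarith)]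
          conv_lhs => rw [h7]
          rw [← Real.exp_nat_mul]
          congr 1
          push_cast
          ring
  have hpw : (Real.exp 1 * M / (⌈Q⌉₊ : ℕ)) ^ ⌈Q⌉₊ ≤
      Real.exp ((⌈Q⌉₊ : ℝ) * (1 + (2 * (jj n : ℝ) + 2) * Real.log (n + 1))) := by
    rw [Real.exp_nat_mul]
    exact pow_le_pow_left₀ (by positivity) hbase _
  refine hpw.trans (Real.exp_le_exp.2 ?_)
  have hbr := bracket hε hn ht
  have hlog10 : 0 ≤ Real.log ((n : ℝ) + 1) := Real.log_nonneg (by linarith)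
  have h0 : 0 ≤ 1 + (2 * (jj n : ℝ) + 2) * Real.log (n + 1) := by positivity
  have hone : 1 ≤ (n.choose r : ℝ) * Real.log n / (n : ℝ) ^ 2 := by
    rw [le_div_iff₀ (by positivity), one_mul]
    have h1 : (2 : ℝ) ^ n ≤ (n : ℝ) ^ 3 * (n.choose r : ℝ) := by exact_mod_cast hcen
    have h2 : (n : ℝ) ^ 3 * (n : ℝ) ^ 2 ≤ (n : ℝ) ^ 3 * (n.choose r : ℝ) := by
      calc (n : ℝ) ^ 3 * (n : ℝ) ^ 2 = (n : ℝ) ^ 5 := by ring
        _ ≤ _ := hpow.trans h1
    have h3 : (n : ℝ) ^ 2 ≤ (n.choose r : ℝ) := le_of_mul_le_mul_left h2 (by positivity)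
    nlinarith
  have hq17 : (⌈Q⌉₊ : ℝ) ≤ 17 * ((n.choose r : ℝ) * Real.log n / (n : ℝ) ^ 2) := by
    have e : Q = 16 * ((n.choose r : ℝ) * Real.log n / (n : ℝ) ^ 2) := by
      rw [hQ]
      ring
    linarith
  calc (⌈Q⌉₊ : ℝ) * (1 + (2 * (jj n : ℝ) + 2) * Real.log (n + 1))
      ≤ 17 * ((n.choose r : ℝ) * Real.log n / (n : ℝ) ^ 2) *
        (1 + (2 * (jj n : ℝ) + 2) * Real.log (n + 1)) := mul_le_mul_of_nonneg_right hq17 h0
    _ = 17 * ((n.choose r : ℝ) / n) *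
        (Real.log n / n * (1 + (2 * (jj n : ℝ) + 2) * Real.log (n + 1))) := by
        field_simp
    _ ≤ 17 * ((n.choose r : ℝ) / n) * (ε / 34) := mul_le_mul_of_nonneg_left hbr (by positivity)
    _ = ε / 2 * ((n.choose r : ℝ) / n) := by ring

open Classical in
theorem codes_small (ε : ℝ) (hε : 0 < ε) : ∀ᶠ n : ℕ in atTop, ∀ r : ℕ, 2 * r ≤ n → Cen n r →
    ∀ (q θ : ℕ) (F A : Fam n → Fam n), IsRun n r (n / 4) q θ F A →
      (q : ℝ) ≤ 16 * (n.choose r : ℝ) * Real.log n / (n : ℝ) ^ 2 →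
      (((Mats n r).image (code r (jj n) F)).card : ℝ) ≤ Real.exp (ε * ((n.choose r : ℝ) / n)) := by
  have hpow := eventually_pow_le
  have ht : ∀ᶠ n : ℕ in atTop, 104992 / ε ≤ ((n : ℝ) ^ (1 / 16 : ℝ)) := by
    have h1 : Tendsto (fun n : ℕ => ((n : ℝ) ^ (1 / 16 : ℝ))) atTop atTop :=
      (tendsto_rpow_atTop (by norm_num)).comp tendsto_natCast_atTop_atTop
    exact h1.eventually_ge_atTop _
  filter_upwards [tail_small (ε / 4) (by positivity), hpow, ht, eventually_ge_atTop 16] with n htail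
    hpow ht hn
  intro r h2r hcen q θ F A hF hq
  obtain ⟨ha, hb⟩ := htail r h2r hcen
  have hn0 : (0 : ℝ) < n := by
    have : 0 < n := by omega
    exact_mod_cast this
  have hN1 : 1 ≤ n.choose r := Nat.choose_pos (by omega)
  have hj1 : 1 ≤ jj n := by
    rw [jj, Nat.one_le_ceil_iff]
    exact Real.rpow_pos_of_pos hn0 _
  have hcard := card_codes (r := r) (j := jj n) hj1 hF
  have hS := sum_bound ε hε n hn hpow ht r hN1 hcen.1 q hq
  have hcard' : (((Mats n r).image (code r (jj n) F)).card : ℝ) ≤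
      ((2 : ℝ) ^ ((Finset.univ : Fam n).filter fun S => S.card + jj n ≤ r).card *
      (2 : ℝ) ^ ((Finset.univ : Fam n).filter fun S => r + jj n ≤ S.card).card) *
      ((∑ i ∈ Finset.range (q + 1), (8 * n.choose r * (n + 1) ^ (2 * jj n)).choose i : ℕ) : ℝ) := by
    exact_mod_cast hcard
  refine hcard'.trans ?_
  have e1 : Real.exp (ε * ((n.choose r : ℝ) / n)) =
      (Real.exp (ε / 4 * ((n.choose r : ℝ) / n)) * Real.exp (ε / 4 * ((n.choose r : ℝ) / n))) *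
        Real.exp (ε / 2 * ((n.choose r : ℝ) / n)) := by
    rw [← Real.exp_add, ← Real.exp_add]
    congr 1
    ring
  rw [e1]
  refine mul_le_mul (mul_le_mul ((two_pow_le _).trans (Real.exp_le_exp.2 ha))
    ((two_pow_le _).trans (Real.exp_le_exp.2 hb)) (by positivity) (by positivity)) hS
    (Nat.cast_nonneg _) (by positivity)

end Pool.Agent.H95.FD
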