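import Pool.Agent.H95.FD.Defs
import Pool.Agent.H8.VM.A3a_Lower

/-! MODULE Ext (about 110 lines). Stable families inside a region `X0` with many available sets outside `X0` are few.

PROOF. Colour the `r`-set `X` with the sum of its elements modulo `n` (an element of `ZMod n`); adjacent `r`-sets have different colours
(`Pool.Agent.H8.VM.sum_ne_of_adj`). For `I` in `II` the set `V I` has a colour class `G I` (filter of `V I` by one colour) with
`(V I).card <= n * (G I).card` (`Finset.exists_le_card_fiber_of_mul_le_card_of_maps_to` or a sum over the `n` colours as in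
`stables_lower` of `H8/VM/A3a_Lower.lean`), so `a / n <= (G I).card`; `G I` is stable. For a subset `S` of `G I` the family `I ∪ S` is in
`stabs r (Base n r)`: members of `I` are not adjacent (`h1`), members of `S` have the same colour, a member of `I` and a member of `V I`
are not adjacent (`h2`, `adj_symm`). The pair `(I, S)` is determined by `M = I ∪ S`: `I = M ∩ X0`, `S = M \ X0` (`I` is inside `X0`,
`V I` is disjoint from `X0`). So `sum_(I in II) 2^((G I).card) <= (stabs r (Base n r)).card` (`Finset.card_sigma`,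
`Finset.card_powerset`, `Finset.card_le_card_of_injOn`), and each summand is at least `2^(a/n)` (`Real.rpow_le_rpow_of_exponent_le`,
`Real.rpow_natCast`). -/

open scoped BigOperators

namespace Pool.Agent.H95.FD

open Pool.Agent.H28.Johnson Pool.Agent.H13.VM

variable {n r : ℕ}

private theorem ext_colour (hn : 1 ≤ n) (V : Fam n) (hV : V ⊆ Base n r) :
    ∃ G : Fam n, G ⊆ V ∧ (V.card : ℝ) / n ≤ (G.card : ℝ) ∧ ∀ x ∈ G, ∀ y ∈ G, ¬ adj r x y := by
  classical
  haveI : NeZero n := ⟨by omega⟩
  set f : Finset (Fin n) → ZMod n := fun S => ∑ x ∈ S, ((x : ℕ) : ZMod n) with hf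
  obtain ⟨c, -, hc⟩ : ∃ c ∈ (Finset.univ : Finset (ZMod n)),
      (V.card : ℝ) / n ≤ ((V.filter fun S => f S = c).card : ℝ) := by
    have hn0 : (0 : ℝ) < n := by exact_mod_cast hn
    by_contra hcon
    push Not at hcon
    have h1 : (V.card : ℝ) =
        ∑ c ∈ (Finset.univ : Finset (ZMod n)), ((V.filter fun S => f S = c).card : ℝ) := by
      rw [← Nat.cast_sum]
      congr 1
      exact Finset.card_eq_sum_card_fiberwise (fun _ _ => Finset.mem_univ _)
    have h2 : ∑ c ∈ (Finset.univ : Finset (ZMod n)),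
        ((V.filter fun S => f S = c).card : ℝ) <
        ∑ c ∈ (Finset.univ : Finset (ZMod n)), (V.card : ℝ) / n :=
      Finset.sum_lt_sum_of_nonempty ⟨0, Finset.mem_univ _⟩ hcon
    rw [← h1, Finset.sum_const, Finset.card_univ, ZMod.card, nsmul_eq_mul,
      mul_div_cancel₀ _ hn0.ne'] at h2
    exact lt_irrefl _ h2
  refine ⟨V.filter fun S => f S = c, Finset.filter_subset _ _, hc, ?_⟩
  intro x hx y hy hadj
  rw [Finset.mem_filter] at hx hy
  exact Pool.Agent.H8.VM.sum_ne_of_adj (mem_Base.mp (hV hx.1)) (mem_Base.mp (hV hy.1)) hadj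
    (hx.2.trans hy.2.symm)

theorem ext_card (hn : 1 ≤ n) (X0 : Fam n) (II : Finset (Fam n)) (V : Fam n → Fam n) (a : ℝ)
    (h1 : ∀ I ∈ II, I ∈ stabs r (Base n r) ∧ I ⊆ X0)
    (h2 : ∀ I ∈ II, V I ⊆ Base n r ∧ Disjoint (V I) X0 ∧ ∀ x ∈ V I, ∀ y ∈ I, ¬ adj r x y)
    (h3 : ∀ I ∈ II, a ≤ ((V I).card : ℝ)) :
    (II.card : ℝ) * (2 : ℝ) ^ (a / n) ≤ ((stabs r (Base n r)).card : ℝ) := by
  classical
  choose! G hG1 hG2 hG3 using fun I (hI : I ∈ II) => ext_colour (r := r) hn (V I) (h2 I hI).1
  have hn0 : (0 : ℝ) < n := by exact_mod_cast hn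
  have hinj : (II.sigma fun I => (G I).powerset).card ≤ (stabs r (Base n r)).card := by
    refine Finset.card_le_card_of_injOn (fun p => p.1 ∪ p.2) ?_ ?_
    · rintro ⟨I, S⟩ hp
      rw [Finset.mem_coe, Finset.mem_sigma, Finset.mem_powerset] at hp
      obtain ⟨hI, hS⟩ := hp
      have hI' : I ∈ II := hI
      have hS' : S ⊆ G I := hS
      have hIs := mem_stabs.mp (h1 I hI').1
      rw [Finset.mem_coe]
      show I ∪ S ∈ stabs r (Base n r)
      rw [mem_stabs]
      refine ⟨Finset.union_subset hIs.1 ((hS'.trans (hG1 I hI')).trans (h2 I hI').1), ?_⟩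
      intro x hx y hy
      rw [Finset.mem_union] at hx hy
      rcases hx with hx | hx <;> rcases hy with hy | hy
      · exact hIs.2 x hx y hy
      · exact fun h => (h2 I hI').2.2 y (hG1 I hI' (hS' hy)) x hx (adj_symm h)
      · exact (h2 I hI').2.2 x (hG1 I hI' (hS' hx)) y hy
      · exact hG3 I hI' x (hS' hx) y (hS' hy)
    · have key : ∀ I ∈ II, ∀ S ⊆ G I, (I ∪ S) ∩ X0 = I ∧ (I ∪ S) \ X0 = S := by
        intro I hI S hS
        have hIX := (h1 I hI).2
        have hd := (h2 I hI).2.1
        rw [Finset.disjoint_left] at hd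
        constructor
        · ext w
          rw [Finset.mem_inter, Finset.mem_union]
          constructor
          · rintro ⟨hw | hw, hx⟩
            · exact hw
            · exact absurd hx (hd (hG1 I hI (hS hw)))
          · exact fun hw => ⟨Or.inl hw, hIX hw⟩
        · ext w
          rw [Finset.mem_sdiff, Finset.mem_union]
          constructor
          · rintro ⟨hw | hw, hx⟩
            · exact absurd (hIX hw) hx
            · exact hw
          · exact fun hw => ⟨Or.inr hw, hd (hG1 I hI (hS hw))⟩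
      rintro ⟨I, S⟩ hp ⟨I', S'⟩ hp' he
      rw [Finset.mem_coe, Finset.mem_sigma, Finset.mem_powerset] at hp hp'
      have he' : I ∪ S = I' ∪ S' := he
      obtain ⟨e1, e2⟩ := key I hp.1 S hp.2
      obtain ⟨e3, e4⟩ := key I' hp'.1 S' hp'.2
      rw [he'] at e1 e2
      have hI : I = I' := e1.symm.trans e3
      have hS : S = S' := e2.symm.trans e4
      subst hI
      subst hS
      rfl
  have hsum : (II.card : ℝ) * (2 : ℝ) ^ (a / n) ≤
      ((II.sigma fun I => (G I).powerset).card : ℝ) := by
    rw [Finset.card_sigma, Nat.cast_sum, ← nsmul_eq_mul, ← Finset.sum_const]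
    refine Finset.sum_le_sum fun I hI => ?_
    rw [Finset.card_powerset, Nat.cast_pow, Nat.cast_ofNat, ← Real.rpow_natCast]
    refine Real.rpow_le_rpow_of_exponent_le (by norm_num) ?_
    refine le_trans ?_ (hG2 I hI)
    exact div_le_div_of_nonneg_right (h3 I hI) hn0.le
  exact hsum.trans (by exact_mod_cast hinj)

end Pool.Agent.H95.FD
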