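import Pool.Agent.H95.FD.Defs

/-! MODULE PtAv (about 110 lines). Available sets on the other side of a point.

PROOF. The number of `r`-sets not containing `z` is `C(n-1, r)`, containing `z`: `C(n-1, r-1)` (`Finset.powersetCard` of the complement
of `{z}`, `Finset.card_powersetCard`; for the second one insert `z`; or subtract from `C(n,r)` with Pascal). `in` case: an `r`-set `Y`
containing `z` is adjacent to at most `n - r` sets `X` not containing `z`: the intersection has `r - 1` elements and is contained in
`Y.erase z`, so `X = insert w (Y.erase z)` with `w` outside `Y` (`exists_ex` of `H13/VM/Bas.lean`). `out` case: an `r`-set `Y` not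
containing `z` is adjacent to at most `r` sets `X` containing `z`: `X = insert z (Y.erase y)`, `y` in `Y`. The sets `X` which are not
available are in the union over `Y` in `I` of these sets (`Finset.card_biUnion_le`). -/

namespace Pool.Agent.H95.FD

open Pool.Agent.H28.Johnson Pool.Agent.H13.VM

variable {n r : ℕ}

private theorem not_mem_count (z : Fin n) :
    ((Base n r).filter fun X => z ∉ X).card = (n - 1).choose r := by
  have h1 : ((Base n r).filter fun X => z ∉ X) = (Finset.univ.erase z).powersetCard r := by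
    ext X
    rw [Finset.mem_filter, mem_Base, Finset.mem_powersetCard]
    constructor
    · rintro ⟨h1, h2⟩
      exact ⟨fun w hw => Finset.mem_erase.mpr ⟨fun h => h2 (h ▸ hw), Finset.mem_univ _⟩, h1⟩
    · rintro ⟨h1, h2⟩
      exact ⟨h2, fun h => (Finset.mem_erase.mp (h1 h)).1 rfl⟩
  rw [h1, Finset.card_powersetCard, Finset.card_erase_of_mem (Finset.mem_univ z),
    Finset.card_univ, Fintype.card_fin]

private theorem mem_count (hr : 1 ≤ r) (z : Fin n) :
    (n - 1).choose (r - 1) ≤ ((Base n r).filter fun X => z ∈ X).card := by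
  have h1 : ((Finset.univ.erase z).powersetCard (r - 1)).card = (n - 1).choose (r - 1) := by
    rw [Finset.card_powersetCard, Finset.card_erase_of_mem (Finset.mem_univ z),
      Finset.card_univ, Fintype.card_fin]
  rw [← h1]
  refine Finset.card_le_card_of_injOn (fun S => insert z S) ?_ ?_
  · intro S hS
    have hS' := Finset.mem_powersetCard.mp (Finset.mem_coe.mp hS)
    have hz : z ∉ S := fun h => (Finset.mem_erase.mp (hS'.1 h)).1 rfl
    refine Finset.mem_coe.mpr (Finset.mem_filter.mpr ⟨?_, Finset.mem_insert_self _ _⟩)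
    rw [mem_Base, Finset.card_insert_of_notMem hz, hS'.2]
    omega
  · intro S hS T hT hST
    have hS' := Finset.mem_powersetCard.mp (Finset.mem_coe.mp hS)
    have hT' := Finset.mem_powersetCard.mp (Finset.mem_coe.mp hT)
    have hz : z ∉ S := fun h => (Finset.mem_erase.mp (hS'.1 h)).1 rfl
    have hz' : z ∉ T := fun h => (Finset.mem_erase.mp (hT'.1 h)).1 rfl
    have h2 : (insert z S).erase z = (insert z T).erase z := congrArg (fun A => A.erase z) hST
    rwa [Finset.erase_insert hz, Finset.erase_insert hz'] at h2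

open Classical in
private theorem cover {p : Finset (Fin n) → Prop} (I : Fam n) (k : ℕ)
    (h : ∀ Y ∈ I, ((Base n r).filter fun X => p X ∧ adj r X Y).card ≤ k) :
    ((Base n r).filter fun X => p X).card ≤
      ((Base n r).filter fun X => p X ∧ ∀ Y ∈ I, ¬ adj r X Y).card + k * I.card := by
  have h1 : ((Base n r).filter fun X => p X) ⊆
      ((Base n r).filter fun X => p X ∧ ∀ Y ∈ I, ¬ adj r X Y) ∪
        I.biUnion fun Y => (Base n r).filter fun X => p X ∧ adj r X Y := by
    intro X hX
    rw [Finset.mem_filter] at hX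
    rw [Finset.mem_union, Finset.mem_filter, Finset.mem_biUnion]
    by_cases hc : ∀ Y ∈ I, ¬ adj r X Y
    · exact Or.inl ⟨hX.1, hX.2, hc⟩
    · push Not at hc
      obtain ⟨Y, hY, hadj⟩ := hc
      exact Or.inr ⟨Y, hY, Finset.mem_filter.mpr ⟨hX.1, hX.2, hadj⟩⟩
  refine (Finset.card_le_card h1).trans ((Finset.card_union_le _ _).trans ?_)
  refine Nat.add_le_add_left ?_ _
  refine Finset.card_biUnion_le.trans ?_
  calc ∑ Y ∈ I, ((Base n r).filter fun X => p X ∧ adj r X Y).card ≤ ∑ _Y ∈ I, k :=
        Finset.sum_le_sum h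
    _ = k * I.card := by rw [Finset.sum_const, smul_eq_mul, mul_comm]

open Classical in
theorem avail_in (hr : r ≤ n) (z : Fin n) (I : Fam n) (hI : I ⊆ Base n r) (hz : ∀ Y ∈ I, z ∈ Y) :
    (n - 1).choose r ≤
      ((Base n r).filter fun X => z ∉ X ∧ ∀ Y ∈ I, ¬ adj r X Y).card + (n - r) * I.card := by
  rw [← not_mem_count z]
  have key := cover (r := r) (p := fun X : Finset (Fin n) => z ∉ X) I (n - r) ?_
  · convert key <;> rfl
  intro Y hY
  have hYr := mem_Base.mp (hI hY)
  have hzY := hz Y hY
  have hsub : ((Base n r).filter fun X => z ∉ X ∧ adj r X Y) ⊆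
      Yᶜ.image fun w => insert w (Y.erase z) := by
    intro X hX
    obtain ⟨hX1, hzX, hadj⟩ := Finset.mem_filter.mp hX
    have hXr := mem_Base.mp hX1
    obtain ⟨y, hy, w, hw, hyX, hwX, rfl⟩ := exists_ex hYr hXr (adj_symm hadj)
    have hyz : y = z := by
      by_contra hne
      exact hzX (mem_ex.mpr (Or.inr ⟨fun h => hne h.symm, hzY⟩))
    subst hyz
    exact Finset.mem_image.mpr ⟨w, Finset.mem_compl.mpr hw, rfl⟩
  have h9 := (Finset.card_le_card hsub).trans Finset.card_image_le
  rw [Finset.card_compl, Fintype.card_fin, hYr] at h9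
  convert h9 <;> rfl

open Classical in
theorem avail_out (hr : 1 ≤ r) (z : Fin n) (I : Fam n) (hI : I ⊆ Base n r) (hz : ∀ Y ∈ I, z ∉ Y) :
    (n - 1).choose (r - 1) ≤
      ((Base n r).filter fun X => z ∈ X ∧ ∀ Y ∈ I, ¬ adj r X Y).card + r * I.card := by
  refine (mem_count hr z).trans ?_
  have key := cover (r := r) (p := fun X : Finset (Fin n) => z ∈ X) I r ?_
  · convert key <;> rfl
  intro Y hY
  have hYr := mem_Base.mp (hI hY)
  have hzY := hz Y hY
  have hsub : ((Base n r).filter fun X => z ∈ X ∧ adj r X Y) ⊆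
      Y.image fun y => insert z (Y.erase y) := by
    intro X hX
    obtain ⟨hX1, hzX, hadj⟩ := Finset.mem_filter.mp hX
    have hXr := mem_Base.mp hX1
    obtain ⟨y, hy, w, hw, hyX, hwX, rfl⟩ := exists_ex hYr hXr (adj_symm hadj)
    have hwz : w = z := by
      rcases mem_ex.mp hzX with h | h
      · exact h.symm
      · exact absurd h.2 hzY
    subst hwz
    exact Finset.mem_image.mpr ⟨y, hy, rfl⟩
  have h9 := (Finset.card_le_card hsub).trans Finset.card_image_le
  rw [hYr] at h9
  convert h9 <;> rfl

end Pool.Agent.H95.FD
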