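import Pool.Agent.H95.FD.Defs
import Pool.Agent.H13.VM.A5
import Pool.Agent.H28.Windows

/-! MODULE StabMat (about 50 lines). Stable families are families of nonbases of matroids.

PROOF. The uniform matroid: `IsMat n r (Base n r)` (nonempty as `r <= n`; exchange: if `x` is in `X`, not in `Y`, both `r`-sets, then
`Y \ X` is nonempty by cardinality and `insert y (X.erase x)` has `r` elements). For `I` in `stabs r (Base n r)` the family
`Base n r \ I` is a matroid by `del_stable` (A5), and `I -> Base n r \ I` is injective on subsets of `Base n r`. -/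

namespace Pool.Agent.H95.FD

open Pool.Agent.H28.Johnson Pool.Agent.H13.VM

theorem stabs_eq_stables (n r : ℕ) : stabs r (Base n r) = Pool.Agent.H28.Windows.stables n r := by
  ext I
  rw [mem_stabs, Pool.Agent.H28.Windows.mem_stables]
  rfl

private lemma isMat_Base {n r : ℕ} (hrn : r ≤ n) : IsMat n r (Base n r) := by
  refine ⟨fun _ h => h, ?_, ?_⟩
  · rw [← Finset.card_pos, card_Base]
    exact Nat.choose_pos hrn
  · intro X hX Y hY x hx
    rw [mem_Base] at hX hY
    rw [Finset.mem_sdiff] at hx
    have h1 : (X \ Y).card + (X ∩ Y).card = X.card := Finset.card_sdiff_add_card_inter X Y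
    have h2 : (Y \ X).card + (Y ∩ X).card = Y.card := Finset.card_sdiff_add_card_inter Y X
    rw [Finset.inter_comm Y X] at h2
    have h3 : 0 < (X \ Y).card := Finset.card_pos.2 ⟨x, Finset.mem_sdiff.2 hx⟩
    obtain ⟨y, hy⟩ := Finset.card_pos.1 (by omega : 0 < (Y \ X).card)
    refine ⟨y, hy, ?_⟩
    rw [Finset.mem_sdiff] at hy
    rw [mem_Base, Finset.card_insert_of_notMem fun h => hy.2 (Finset.mem_of_mem_erase h),
      Finset.card_erase_of_mem hx.1]
    have := Finset.card_pos.2 ⟨x, hx.1⟩
    omega

theorem stabs_le_mats {n r : ℕ} (hr : 1 ≤ r) (hrn : r < n) :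
    (stabs r (Base n r)).card ≤ (Mats n r).card := by
  classical
  refine Finset.card_le_card_of_injOn (fun I => Base n r \ I) ?_ ?_
  · intro I hI
    rw [Finset.mem_coe, mem_stabs] at hI
    rw [Finset.mem_coe, mem_Mats]
    exact del_stable (isMat_Base (le_of_lt hrn)) hr hrn hI.1 hI.2 fun _ _ X hX _ => hX
  · intro I hI J hJ he
    rw [Finset.mem_coe, mem_stabs] at hI hJ
    have he' : Base n r \ I = Base n r \ J := he
    rw [← Finset.sdiff_sdiff_eq_self hI.1, he', Finset.sdiff_sdiff_eq_self hJ.1]

end Pool.Agent.H95.FD
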