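import Pool.Agent.H95.FD.PtRel
import Pool.Agent.H95.FD.PtAv
import Pool.Agent.H95.FD.Ext
import Pool.Agent.H95.FD.StabMat
import Pool.Agent.H8.VM.A3d_Large

/-! MODULE PtIn (about 160 lines). Stable families all of whose members contain a fixed point are rare.

PROOF. Let `N = C(n,r)`, `s = (stabs r (Base n r)).card = (stables n r).card` (`stabs_eq_stables`), `n = m + 1`, `r = k + 1`,
`xi = (log 2) / 4`, and `eps` from `few_large xi` (`H8/VM/A3d_Large`). Split the families `I` (stable, all members contain `z`) at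
`t = (1 - eps) C(m,k) / (m - k + 1)`.
Large ones (`t <= I.card`): `rel_in` and `few_large` (`m <= 14 k`, `2 k <= m + 2` for large `n`): at most
`exp (xi C(m,k) / m) <= exp (2 xi N / n)` (`C(m,k) <= N`, `m >= n / 2`), and `s >= exp (log 2 * N / n)` (`stables_lower`,
`H8/VM/A3a_Lower`), so at most `exp (- (log 2 / 2) N / n) s`.
Small ones: `avail_in` with `V I` = the `r`-sets without `z` which are not adjacent to a member of `I`:
`(V I).card >= C(m, r) - (n - r) I.card >= C(m, r) - (1 - eps) C(m, k) >= eps C(m, k) >= eps N / 3`, because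
`(n - r) / (m - k + 1) = (n - r) / (n - r + 1) <= 1`, `C(m,k) <= C(m,k+1)` (`2 r <= n`; `Nat.choose_le_succ_of_lt_half_left` or
`Nat.succ_mul_choose_eq`), `C(m,k) = (r / n) N` (`Nat.succ_mul_choose_eq`) and `n <= 3 r`. `ext_card` with `X0` = sets containing `z`,
`a = eps N / 3`: at most `2^(- eps N / (3 n)) s` of them.
Sum: `exp (- a x) + exp (- b x) <= exp (- c x)` with `x = N / n`, `c = (min a b) / 2`, as soon as `c x >= log 2` (`x` tends to
infinity, uniformly: `N >= 2^r >= 2^(n/3)`, or `N >= C(n,3)`-like bounds; any lower bound for `N / n`). -/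

open scoped BigOperators
open Filter

namespace Pool.Agent.H95.FD

open Pool.Agent.H28.Johnson Pool.Agent.H13.VM

open Classical in
private theorem ptin_large {ε ξ : ℝ} {n m k : ℕ} (hnm : n = m + 1) (hk : k ≤ m) (hm1 : 1 ≤ m)
    (hξ : 0 < ξ) (z : Fin (m + 1))
    (hfl : (((Pool.Agent.H28.Windows.stables m k).filter fun I =>
      (1 - ε) * ((m.choose k : ℝ) / (m - k + 1)) ≤ (I.card : ℝ)).card : ℝ) ≤
      Real.exp (ξ * ((m.choose k : ℝ) / m))) :
    ((((stabs (k + 1) (Base (m + 1) (k + 1))).filter fun I =>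
      (∀ X ∈ I, z ∈ X) ∧ (1 - ε) * ((m.choose k : ℝ) / (m - k + 1)) ≤ (I.card : ℝ)).card : ℕ) : ℝ) ≤
      Real.exp (2 * ξ * (((m + 1).choose (k + 1) : ℝ) / n)) := by
  have h1 := rel_in (k := k) z ((1 - ε) * ((m.choose k : ℝ) / (m - k + 1)))
  have h2 : ((((stabs (k + 1) (Base (m + 1) (k + 1))).filter fun I =>
      (∀ X ∈ I, z ∈ X) ∧ (1 - ε) * ((m.choose k : ℝ) / (m - k + 1)) ≤ (I.card : ℝ)).card : ℕ) : ℝ) ≤
      Real.exp (ξ * ((m.choose k : ℝ) / m)) := by
    refine le_trans ?_ hfl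
    exact_mod_cast h1
  refine h2.trans (Real.exp_le_exp.mpr ?_)
  have hm0 : (0 : ℝ) < m := by exact_mod_cast hm1
  have hn0 : (0 : ℝ) < n := by rw [hnm]; push_cast; linarith
  have hnm' : (n : ℝ) ≤ 2 * m := by
    have : n ≤ 2 * m := by omega
    exact_mod_cast this
  have hc : (m.choose k : ℝ) ≤ ((m + 1).choose (k + 1) : ℝ) := by
    have : m.choose k ≤ (m + 1).choose (k + 1) := by
      rw [Nat.choose_succ_succ]
      exact Nat.le_add_right _ _
    exact_mod_cast this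
  have h3 : (m.choose k : ℝ) / m ≤ 2 * (((m + 1).choose (k + 1) : ℝ) / n) := by
    rw [div_le_iff₀ hm0]
    have h4 : (0 : ℝ) ≤ (((m + 1).choose (k + 1) : ℕ) : ℝ) / n := by positivity
    calc (m.choose k : ℝ) ≤ ((m + 1).choose (k + 1) : ℝ) := hc
      _ = (((m + 1).choose (k + 1) : ℕ) : ℝ) / n * n := by field_simp
      _ ≤ (((m + 1).choose (k + 1) : ℕ) : ℝ) / n * (2 * m) := mul_le_mul_of_nonneg_left hnm' h4
      _ = 2 * (((m + 1).choose (k + 1) : ℝ) / n) * m := by ring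
  calc ξ * ((m.choose k : ℝ) / m) ≤ ξ * (2 * (((m + 1).choose (k + 1) : ℝ) / n)) :=
        mul_le_mul_of_nonneg_left h3 hξ.le
    _ = 2 * ξ * (((m + 1).choose (k + 1) : ℝ) / n) := by ring

open Classical in
private theorem ptin_small {ε : ℝ} (hε0 : 0 < ε) (hε1 : ε < 1) {m k : ℕ} (hk1 : 1 ≤ k)
    (hmk : m + 1 ≤ 3 * (k + 1)) (h2 : 2 * (k + 1) ≤ m + 1) (z : Fin (m + 1)) :
    ((((stabs (k + 1) (Base (m + 1) (k + 1))).filter fun I =>
      (∀ X ∈ I, z ∈ X) ∧ ¬ (1 - ε) * ((m.choose k : ℝ) / (m - k + 1)) ≤ (I.card : ℝ)).card : ℕ) : ℝ) *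
      (2 : ℝ) ^ ((ε * (((m + 1).choose (k + 1) : ℝ)) / 3) / (m + 1 : ℕ)) ≤
      ((stabs (k + 1) (Base (m + 1) (k + 1))).card : ℝ) := by
  refine ext_card (n := m + 1) (r := k + 1) (by omega) (Finset.univ.filter fun X => z ∈ X) _
    (fun I => (Base (m + 1) (k + 1)).filter fun X => z ∉ X ∧ ∀ Y ∈ I, ¬ adj (k + 1) X Y)
    (ε * (((m + 1).choose (k + 1) : ℝ)) / 3) ?_ ?_ ?_
  · intro I hI
    rw [Finset.mem_filter] at hI
    refine ⟨hI.1, fun X hX => ?_⟩
    rw [Finset.mem_filter]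
    exact ⟨Finset.mem_univ _, hI.2.1 X hX⟩
  · intro I _
    refine ⟨Finset.filter_subset _ _, ?_, ?_⟩
    · rw [Finset.disjoint_left]
      intro X hX hX'
      rw [Finset.mem_filter] at hX hX'
      exact hX.2.1 hX'.2
    · intro X hX Y hY
      rw [Finset.mem_filter] at hX
      exact hX.2.2 Y hY
  · intro I hI
    rw [Finset.mem_filter] at hI
    obtain ⟨hIs, hIz, hIc⟩ := hI
    push Not at hIc
    have hav := avail_in (n := m + 1) (r := k + 1) (by omega) z I (mem_stabs.mp hIs).1 hIz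
    rw [Nat.add_sub_cancel, show m + 1 - (k + 1) = m - k from by omega] at hav
    have hav' : (m.choose (k + 1) : ℝ) ≤
        (((Base (m + 1) (k + 1)).filter fun X => z ∉ X ∧ ∀ Y ∈ I, ¬ adj (k + 1) X Y).card : ℝ) +
          ((m - k : ℕ) : ℝ) * (I.card : ℝ) := by exact_mod_cast hav
    have hkm : k ≤ m := by omega
    rw [Nat.cast_sub hkm] at hav'
    have hmk0 : (0 : ℝ) < (m : ℝ) - k + 1 := by
      have : (k : ℝ) ≤ m := by exact_mod_cast hkm
      linarith
    have hmk1 : (0 : ℝ) ≤ (m : ℝ) - k := by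
      have : (k : ℝ) ≤ m := by exact_mod_cast hkm
      linarith
    have hC0 : (0 : ℝ) ≤ (m.choose k : ℝ) := Nat.cast_nonneg _
    -- (m-k) |I| ≤ (1-ε) C(m,k)
    have hI1 : ((m : ℝ) - k) * (I.card : ℝ) ≤ (1 - ε) * (m.choose k : ℝ) := by
      have e1 : ((m : ℝ) - k) * (I.card : ℝ) ≤
          ((m : ℝ) - k + 1) * ((1 - ε) * ((m.choose k : ℝ) / (m - k + 1))) := by
        refine mul_le_mul (by linarith) hIc.le (Nat.cast_nonneg _) hmk0.le
      have e2 : ((m : ℝ) - k + 1) * ((1 - ε) * ((m.choose k : ℝ) / (m - k + 1))) =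
          (1 - ε) * (m.choose k : ℝ) := by
        field_simp
      linarith
    -- C(m,k) ≤ C(m,k+1)
    have hmono : (m.choose k : ℝ) ≤ (m.choose (k + 1) : ℝ) := by
      have : m.choose k ≤ m.choose (k + 1) := by
        have e1 := Nat.choose_succ_right_eq m k
        have e2 : k + 1 ≤ m - k := by omega
        have e3 : m.choose k * (k + 1) ≤ m.choose (k + 1) * (k + 1) := by
          rw [e1]
          exact Nat.mul_le_mul_left _ e2
        exact Nat.le_of_mul_le_mul_right e3 (by omega)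
      exact_mod_cast this
    -- N / 3 ≤ C(m,k)
    have hN3 : (((m + 1).choose (k + 1) : ℕ) : ℝ) / 3 ≤ (m.choose k : ℝ) := by
      have e1 := Nat.add_one_mul_choose_eq m k
      have e1' : ((m : ℝ) + 1) * (m.choose k : ℝ) =
          (((m + 1).choose (k + 1) : ℕ) : ℝ) * ((k : ℝ) + 1) := by
        have : (m + 1) * m.choose k = (m + 1).choose (k + 1) * (k + 1) := e1
        exact_mod_cast this
      have e2 : (m : ℝ) + 1 ≤ 3 * ((k : ℝ) + 1) := by exact_mod_cast hmk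
      have e3 : (0 : ℝ) < (k : ℝ) + 1 := by positivity
      have e4 : (((m + 1).choose (k + 1) : ℕ) : ℝ) * ((k : ℝ) + 1) ≤
          3 * ((k : ℝ) + 1) * (m.choose k : ℝ) := by
        rw [← e1']
        exact mul_le_mul_of_nonneg_right e2 hC0
      have e5 : (((m + 1).choose (k + 1) : ℕ) : ℝ) ≤ 3 * (m.choose k : ℝ) := by
        by_contra hcon
        push Not at hcon
        have := mul_lt_mul_of_pos_right hcon e3
        linarith
      linarith
    have hfin : ε * (((m + 1).choose (k + 1) : ℕ) : ℝ) / 3 ≤ ε * (m.choose k : ℝ) := by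
      have := mul_le_mul_of_nonneg_left hN3 hε0.le
      linarith
    show ε * (((m + 1).choose (k + 1) : ℕ) : ℝ) / 3 ≤ _
    linarith

open Classical in
private theorem ptin_split {m k : ℕ} (z : Fin (m + 1)) (t : ℝ) :
    ((stabs (k + 1) (Base (m + 1) (k + 1) ∩ Finset.univ.filter fun X => z ∈ X)).card : ℝ) ≤
      (((stabs (k + 1) (Base (m + 1) (k + 1))).filter fun I =>
        (∀ X ∈ I, z ∈ X) ∧ t ≤ (I.card : ℝ)).card : ℝ) +
      (((stabs (k + 1) (Base (m + 1) (k + 1))).filter fun I =>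
        (∀ X ∈ I, z ∈ X) ∧ ¬ t ≤ (I.card : ℝ)).card : ℝ) := by
  rw [← Nat.cast_add]
  have h : stabs (k + 1) (Base (m + 1) (k + 1) ∩ Finset.univ.filter fun X => z ∈ X) ⊆
      ((stabs (k + 1) (Base (m + 1) (k + 1))).filter fun I =>
        (∀ X ∈ I, z ∈ X) ∧ t ≤ (I.card : ℝ)) ∪
      ((stabs (k + 1) (Base (m + 1) (k + 1))).filter fun I =>
        (∀ X ∈ I, z ∈ X) ∧ ¬ t ≤ (I.card : ℝ)) := by
    intro I hI
    rw [mem_stabs] at hI
    have h1 : I ∈ stabs (k + 1) (Base (m + 1) (k + 1)) :=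
      mem_stabs.mpr ⟨fun X hX => (Finset.mem_inter.mp (hI.1 hX)).1, hI.2⟩
    have h2 : ∀ X ∈ I, z ∈ X := fun X hX =>
      (Finset.mem_filter.mp (Finset.mem_inter.mp (hI.1 hX)).2).2
    rw [Finset.mem_union, Finset.mem_filter, Finset.mem_filter]
    by_cases ht : t ≤ (I.card : ℝ)
    · exact Or.inl ⟨h1, h2, ht⟩
    · exact Or.inr ⟨h1, h2, ht⟩
  exact_mod_cast (Finset.card_le_card h).trans (Finset.card_union_le _ _)

open Classical in
theorem point_in : ∃ c : ℝ, 0 < c ∧ ∀ᶠ n : ℕ in atTop, ∀ r : ℕ, n ≤ 3 * r → 2 * r ≤ n →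
    ∀ z : Fin n, ((stabs r (Base n r ∩ Finset.univ.filter fun X => z ∈ X)).card : ℝ) ≤
      Real.exp (-(c * ((n.choose r : ℝ) / n))) * ((stabs r (Base n r)).card : ℝ) := by
  have hlog2 : 0 < Real.log 2 := Real.log_pos (by norm_num)
  obtain ⟨ε, hε0, hε1, hev⟩ := Pool.Agent.H8.VM.few_large (Real.log 2 / 4) (by positivity)
  set A : ℝ := min (Real.log 2 / 2) (ε / 3 * Real.log 2) with hA
  have hA0 : 0 < A := lt_min (by positivity) (by positivity)
  refine ⟨A / 2, by positivity, ?_⟩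
  have hev' : ∀ᶠ n : ℕ in atTop, ∀ k : ℕ, (n - 1) ≤ 14 * k → 2 * k ≤ (n - 1) + 2 →
      (((Pool.Agent.H28.Windows.stables (n - 1) k).filter fun I =>
        (1 - ε) * (((n - 1).choose k : ℝ) / (((n - 1 : ℕ) : ℝ) - k + 1)) ≤ (I.card : ℝ)).card : ℝ) ≤
        Real.exp (Real.log 2 / 4 * (((n - 1).choose k : ℝ) / ((n - 1 : ℕ) : ℝ))) :=
    (tendsto_sub_atTop_nat 1).eventually hev
  obtain ⟨K, hK⟩ := exists_nat_ge (Real.log 2 / (A / 2) * 16464)
  filter_upwards [hev', eventually_ge_atTop (max 10 K)] with n hn hnK r hr3 hr2 z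
  have hn10 : 10 ≤ n := (le_max_left _ _).trans hnK
  have hnK' : K ≤ n := (le_max_right _ _).trans hnK
  obtain ⟨m, rfl⟩ : ∃ m, n = m + 1 := ⟨n - 1, by omega⟩
  obtain ⟨k, rfl⟩ : ∃ k, r = k + 1 := ⟨r - 1, by omega⟩
  rw [Nat.add_sub_cancel] at hn
  have hfl := hn k (by omega) (by omega)
  have hL := ptin_large (n := m + 1) rfl (by omega) (by omega) (by positivity) z hfl
  have hS := ptin_small hε0 hε1 (by omega) hr3 hr2 z
  have hsp := ptin_split (k := k) z ((1 - ε) * ((m.choose k : ℝ) / (m - k + 1)))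
  set x : ℝ := (((m + 1).choose (k + 1) : ℕ) : ℝ) / ((m + 1 : ℕ) : ℝ) with hx
  set s : ℝ := ((stabs (k + 1) (Base (m + 1) (k + 1))).card : ℝ) with hs
  have hx0 : 0 ≤ x := by positivity
  -- lower bound for s
  have hslow : Real.exp (x * Real.log 2) ≤ s := by
    have h1 := Pool.Agent.H8.VM.stables_lower (n := m + 1) (r := k + 1) (by omega) (by omega)
    have h2 : s = ((Pool.Agent.H28.Windows.stables (m + 1) (k + 1)).card : ℝ) := by
      rw [hs, stabs_eq_stables]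
    have h3 : 0 < s := by
      rw [hs]
      have : (∅ : Fam (m + 1)) ∈ stabs (k + 1) (Base (m + 1) (k + 1)) :=
        mem_stabs.mpr ⟨Finset.empty_subset _, fun a ha => absurd ha (Finset.notMem_empty a)⟩
      exact_mod_cast Finset.card_pos.mpr ⟨_, this⟩
    rw [← h2] at h1
    calc Real.exp (x * Real.log 2) ≤ Real.exp (Real.log s) := Real.exp_le_exp.mpr h1
      _ = s := Real.exp_log h3
  have hs0 : 0 < s := (Real.exp_pos _).trans_le hslow
  -- large part
  have hL' : ((((stabs (k + 1) (Base (m + 1) (k + 1))).filter fun I =>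
      (∀ X ∈ I, z ∈ X) ∧ (1 - ε) * ((m.choose k : ℝ) / (m - k + 1)) ≤ (I.card : ℝ)).card : ℕ) : ℝ) ≤
      Real.exp (-(A * x)) * s := by
    refine hL.trans ?_
    have h1 : Real.exp (2 * (Real.log 2 / 4) * x) ≤ Real.exp (-(A * x)) * Real.exp (x * Real.log 2) := by
      rw [← Real.exp_add]
      refine Real.exp_le_exp.mpr ?_
      have h2 : A * x ≤ Real.log 2 / 2 * x := mul_le_mul_of_nonneg_right (min_le_left _ _) hx0
      linarith
    exact h1.trans (mul_le_mul_of_nonneg_left hslow (Real.exp_pos _).le)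
  -- small part
  have hS' : ((((stabs (k + 1) (Base (m + 1) (k + 1))).filter fun I =>
      (∀ X ∈ I, z ∈ X) ∧ ¬ (1 - ε) * ((m.choose k : ℝ) / (m - k + 1)) ≤ (I.card : ℝ)).card : ℕ) : ℝ) ≤
      Real.exp (-(A * x)) * s := by
    have h1 : (2 : ℝ) ^ ((ε * (((m + 1).choose (k + 1) : ℕ) : ℝ) / 3) / ((m + 1 : ℕ) : ℝ)) =
        Real.exp (ε / 3 * Real.log 2 * x) := by
      rw [Real.rpow_def_of_pos (by norm_num)]
      congr 1
      rw [hx]
      ring
    rw [h1] at hS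
    have h2 : Real.exp (A * x) ≤ Real.exp (ε / 3 * Real.log 2 * x) :=
      Real.exp_le_exp.mpr (mul_le_mul_of_nonneg_right (min_le_right _ _) hx0)
    have h3 : (((((stabs (k + 1) (Base (m + 1) (k + 1))).filter fun I =>
      (∀ X ∈ I, z ∈ X) ∧ ¬ (1 - ε) * ((m.choose k : ℝ) / (m - k + 1)) ≤ (I.card : ℝ)).card : ℕ) : ℝ)) *
      Real.exp (A * x) ≤ s := (mul_le_mul_of_nonneg_left h2 (Nat.cast_nonneg _)).trans hS
    rw [Real.exp_neg, inv_mul_eq_div, le_div_iff₀ (Real.exp_pos _)]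
    exact h3
  -- sum
  have hbig : Real.log 2 ≤ A / 2 * x := by
    have h1 := Pool.Agent.H8.VM.A3c_choose (n := m + 1) (r := k + 1) (by omega) (by omega) hn10
    have hn0 : (0 : ℝ) < ((m + 1 : ℕ) : ℝ) := by positivity
    have h2 : ((m + 1 : ℕ) : ℝ) ^ 2 ≤ 16464 * x := by
      have h3 : ((m + 1 : ℕ) : ℝ) ^ 2 * ((m + 1 : ℕ) : ℝ) ≤ 16464 * x * ((m + 1 : ℕ) : ℝ) := by
        calc ((m + 1 : ℕ) : ℝ) ^ 2 * ((m + 1 : ℕ) : ℝ) = ((m + 1 : ℕ) : ℝ) ^ 3 := by ring
          _ ≤ 16464 * (((m + 1).choose (k + 1) : ℕ) : ℝ) := h1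
          _ = 16464 * x * ((m + 1 : ℕ) : ℝ) := by
            rw [hx]
            field_simp
      exact le_of_mul_le_mul_right h3 hn0
    have h4 : ((m + 1 : ℕ) : ℝ) ≤ ((m + 1 : ℕ) : ℝ) ^ 2 := by
      have : (1 : ℝ) ≤ ((m + 1 : ℕ) : ℝ) := by
        have : 1 ≤ m + 1 := by omega
        exact_mod_cast this
      nlinarith
    have h5 : Real.log 2 / (A / 2) * 16464 ≤ 16464 * x := by
      refine hK.trans (le_trans ?_ (h4.trans h2))
      exact_mod_cast hnK'
    have h6 : Real.log 2 / (A / 2) ≤ x := by linarith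
    rw [div_le_iff₀ (by positivity)] at h6
    linarith
  have h2e : 2 * Real.exp (-(A * x)) ≤ Real.exp (-(A / 2 * x)) := by
    have h1 : (2 : ℝ) ≤ Real.exp (A / 2 * x) := by
      calc (2 : ℝ) = Real.exp (Real.log 2) := (Real.exp_log (by norm_num)).symm
        _ ≤ _ := Real.exp_le_exp.mpr hbig
    calc 2 * Real.exp (-(A * x)) ≤ Real.exp (A / 2 * x) * Real.exp (-(A * x)) :=
          mul_le_mul_of_nonneg_right h1 (Real.exp_pos _).le
      _ = Real.exp (-(A / 2 * x)) := by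
        rw [← Real.exp_add]
        congr 1
        ring
  calc ((stabs (k + 1) (Base (m + 1) (k + 1) ∩ Finset.univ.filter fun X => z ∈ X)).card : ℝ)
      ≤ Real.exp (-(A * x)) * s + Real.exp (-(A * x)) * s := hsp.trans (add_le_add hL' hS')
    _ = 2 * Real.exp (-(A * x)) * s := by ring
    _ ≤ Real.exp (-(A / 2 * x)) * s := mul_le_mul_of_nonneg_right h2e hs0.le

end Pool.Agent.H95.FD
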