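import Pool.Agent.H95.FD.PtRel
import Pool.Agent.H95.FD.PtAv
import Pool.Agent.H95.FD.Ext
import Pool.Agent.H95.FD.StabMat
import Pool.Agent.H8.VM.A3d_Large

/-! MODULE PtOut (about 160 lines). Stable families all of whose members avoid a fixed point are rare.

PROOF. Let `N = C(n,r)`, `s = (stabs r (Base n r)).card = (stables n r).card` (`stabs_eq_stables`), `n = m + 1`,
`xi = (log 2) / 4`, and `eps` from `few_large xi` (`H8/VM/A3d_Large`). Split the families `I` (stable, no member contains `z`) at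
`t = (1 - eps) C(m,r) / (m - r + 1)`; note `m - r + 1 = n - r`.
Large ones (`t <= I.card`): `rel_out` and `few_large` (`m <= 14 r`, `2 r <= m + 2`): at most `exp (xi C(m,r) / m) <=
exp (2 xi N / n)` (`C(m,r) <= N`, `m >= n / 2`), and `s >= exp (log 2 * N / n)` (`stables_lower`, `H8/VM/A3a_Lower`), so at most
`exp (- (log 2 / 2) N / n) s`.
Small ones: `avail_out` with `V I` = the `r`-sets containing `z` which are not adjacent to a member of `I`:
`(V I).card >= C(m, r-1) - r I.card >= C(m, r-1) - (1 - eps) r C(m,r) / (n - r) = eps C(m, r-1) >= eps N / 3`, because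
`r C(m,r) = (n - r) C(m,r-1)` (`Nat.succ_mul_choose_eq`, `Nat.choose_succ_right_eq`), `C(m,r-1) = (r / n) N` and `n <= 3 r`.
`ext_card` with `X0` = sets not containing `z`, `a = eps N / 3`: at most `2^(- eps N / (3 n)) s` of them.
Sum: `exp (- a x) + exp (- b x) <= exp (- c x)` with `x = N / n`, `c = (min a b) / 2`, as soon as `c x >= log 2` (`x` tends to
infinity, uniformly: `N >= 2^r >= 2^(n/3)`, or any lower bound for `N / n`). The module PtIn is the mirror image. -/

open scoped BigOperators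
open Filter

namespace Pool.Agent.H95.FD

open Pool.Agent.H28.Johnson Pool.Agent.H13.VM

private lemma pto_choose_two_le {n r : ℕ} (h2 : 2 ≤ r) (hr : 2 * r ≤ n) :
    n.choose 2 ≤ n.choose r := by
  induction r, h2 using Nat.le_induction with
  | base => exact le_rfl
  | succ k hk ih =>
    exact (ih (by omega)).trans (Nat.choose_le_succ_of_lt_half_left (by omega))

open Classical in
theorem point_out : ∃ c : ℝ, 0 < c ∧ ∀ᶠ n : ℕ in atTop, ∀ r : ℕ, n ≤ 3 * r → 2 * r ≤ n →
    ∀ z : Fin n, ((stabs r (Base n r ∩ Finset.univ.filter fun X => z ∉ X)).card : ℝ) ≤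
      Real.exp (-(c * ((n.choose r : ℝ) / n))) * ((stabs r (Base n r)).card : ℝ) := by
  have hL0 : 0 < Real.log 2 := Real.log_pos (by norm_num)
  have hL1 : Real.log 2 ≤ 1 := by have := Real.log_two_lt_d9; linarith
  obtain ⟨ε, hε0, hε1, hlarge⟩ := Pool.Agent.H8.VM.few_large (Real.log 2 / 4) (by positivity)
  set β : ℝ := ε * Real.log 2 / 3 with hβ
  have hβ0 : 0 < β := by positivity
  have hβα : β ≤ Real.log 2 / 2 := by
    rw [hβ]
    nlinarith
  refine ⟨β / 2, by positivity, ?_⟩
  have hev := (tendsto_sub_atTop_nat 1).eventually hlarge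
  filter_upwards [hev, eventually_ge_atTop (⌈8 / β⌉₊ + 10)] with n hn hnl r hr3 hr2 z
  obtain ⟨m, rfl⟩ : ∃ m, n = m + 1 := ⟨n - 1, by omega⟩
  rw [Nat.add_sub_cancel] at hn
  have hrm : r ≤ m := by omega
  have hr1 : 1 ≤ r := by omega
  have hm0 : (0 : ℝ) < m := by
    have : 0 < m := by omega
    exact_mod_cast this
  have hn0 : (0 : ℝ) < ((m + 1 : ℕ) : ℝ) := by positivity
  have hncast : ((m + 1 : ℕ) : ℝ) = (m : ℝ) + 1 := by push_cast; ring
  set N : ℝ := ((m + 1).choose r : ℝ) with hNdef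
  set x : ℝ := N / ((m + 1 : ℕ) : ℝ) with hx
  set s : ℝ := ((stabs r (Base (m + 1) r)).card : ℝ) with hs
  have hN0 : 0 < N := by
    rw [hNdef]
    exact_mod_cast Nat.choose_pos (by omega)
  have hx0 : 0 < x := div_pos hN0 hn0
  -- x is large
  have hx1 : ((m : ℝ)) / 2 ≤ x := by
    have h1 : (((m + 1).choose 2 : ℕ) : ℝ) ≤ N := by
      rw [hNdef]
      exact_mod_cast pto_choose_two_le (by omega) hr2
    rw [Nat.cast_choose_two, hncast] at h1
    rw [hx, le_div_iff₀ hn0, hncast]
    nlinarith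
  have hxβ : 2 * Real.log 2 ≤ β * x := by
    have h1 : 8 / β ≤ (m : ℝ) := by
      have h2 : (8 / β) ≤ (⌈8 / β⌉₊ : ℝ) := Nat.le_ceil _
      have h3 : ((⌈8 / β⌉₊ : ℕ) : ℝ) ≤ (m : ℝ) := by
        have : ⌈8 / β⌉₊ ≤ m := by omega
        exact_mod_cast this
      linarith
    rw [div_le_iff₀ hβ0] at h1
    have h4 : β * ((m : ℝ) / 2) ≤ β * x := mul_le_mul_of_nonneg_left hx1 hβ0.le
    nlinarith
  -- lower bound for s
  have hslow : x * Real.log 2 ≤ Real.log s := by
    have h1 := Pool.Agent.H8.VM.stables_lower (n := m + 1) (r := r) (by omega) (by omega)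
    rw [hs, stabs_eq_stables]
    exact h1
  have hs0 : 0 < s := by
    rw [hs]
    have : 0 < (stabs r (Base (m + 1) r)).card := by
      refine Finset.card_pos.mpr ⟨∅, ?_⟩
      rw [mem_stabs]
      exact ⟨Finset.empty_subset _, fun a ha => absurd ha (Finset.notMem_empty a)⟩
    exact_mod_cast this
  have hsexp : Real.exp (x * Real.log 2) ≤ s := by
    calc Real.exp (x * Real.log 2) ≤ Real.exp (Real.log s) := Real.exp_le_exp.mpr hslow
      _ = s := Real.exp_log hs0
  -- the threshold
  set t : ℝ := (1 - ε) * ((m.choose r : ℝ) / (m - r + 1)) with ht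
  set LG := (stabs r (Base (m + 1) r)).filter fun I =>
      (∀ X ∈ I, z ∉ X) ∧ t ≤ (I.card : ℝ) with hLG
  set SM := (stabs r (Base (m + 1) r)).filter fun I =>
      (∀ X ∈ I, z ∉ X) ∧ (I.card : ℝ) < t with hSM
  have hsplit : (stabs r (Base (m + 1) r ∩ Finset.univ.filter fun X => z ∉ X)) ⊆ LG ∪ SM := by
    intro I hI
    rw [mem_stabs] at hI
    have h1 : ∀ X ∈ I, z ∉ X := by
      intro X hX
      have := hI.1 hX
      rw [Finset.mem_inter, Finset.mem_filter] at this
      exact this.2.2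
    have h2 : I ∈ stabs r (Base (m + 1) r) :=
      mem_stabs.mpr ⟨hI.1.trans Finset.inter_subset_left, hI.2⟩
    rw [Finset.mem_union, hLG, hSM, Finset.mem_filter, Finset.mem_filter]
    rcases le_or_gt t (I.card : ℝ) with h3 | h3
    · exact Or.inl ⟨h2, h1, h3⟩
    · exact Or.inr ⟨h2, h1, h3⟩
  -- large families
  have hLGc : (LG.card : ℝ) ≤ Real.exp (-(β * x)) * s := by
    have h1 : (LG.card : ℝ) ≤ Real.exp (Real.log 2 / 4 * ((m.choose r : ℝ) / m)) := by
      have h2 := rel_out (m := m) (r := r) z t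
      have h3 := hn r (by omega) (by omega)
      exact (Nat.cast_le.mpr h2).trans h3
    have h4 : (m.choose r : ℝ) / m ≤ 2 * x := by
      have h5 : (m.choose r : ℝ) ≤ N := by
        rw [hNdef]
        exact_mod_cast Nat.choose_le_choose r (Nat.le_succ m)
      have h6 : (1 : ℝ) ≤ m := by
        have : 1 ≤ m := by omega
        exact_mod_cast this
      rw [hx, div_le_iff₀ hm0]
      have h7 : N ≤ 2 * (N / ((m + 1 : ℕ) : ℝ)) * m := by
        have h8 : 2 * (N / ((m + 1 : ℕ) : ℝ)) * m = N * (2 * m / ((m + 1 : ℕ) : ℝ)) := by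
          ring
        rw [h8]
        have h9 : (1 : ℝ) ≤ 2 * m / ((m + 1 : ℕ) : ℝ) := by
          rw [le_div_iff₀ hn0, hncast]
          linarith
        nlinarith
      linarith
    have h10 : Real.exp (Real.log 2 / 4 * ((m.choose r : ℝ) / m)) ≤
        Real.exp (-(β * x)) * Real.exp (x * Real.log 2) := by
      rw [← Real.exp_add, Real.exp_le_exp]
      have h11 : Real.log 2 / 4 * ((m.choose r : ℝ) / m) ≤ Real.log 2 / 4 * (2 * x) :=
        mul_le_mul_of_nonneg_left h4 (by positivity)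
      have h12 : β * x ≤ Real.log 2 / 2 * x := mul_le_mul_of_nonneg_right hβα hx0.le
      nlinarith
    refine h1.trans (h10.trans ?_)
    exact mul_le_mul_of_nonneg_left hsexp (Real.exp_pos _).le
  -- small families
  have hSMc : (SM.card : ℝ) ≤ Real.exp (-(β * x)) * s := by
    have hD0 : (0 : ℝ) < (m : ℝ) - r + 1 := by
      have : (r : ℝ) ≤ m := by exact_mod_cast hrm
      linarith
    -- r C(m,r) = (m - r + 1) C(m, r-1)
    have e1 : (r : ℝ) * (m.choose r : ℝ) = ((m : ℝ) - r + 1) * (m.choose (r - 1) : ℝ) := by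
      have h1 := Nat.choose_succ_right_eq m (r - 1)
      rw [show r - 1 + 1 = r by omega] at h1
      have h2 : ((m - (r - 1) : ℕ) : ℝ) = (m : ℝ) - r + 1 := by
        rw [Nat.cast_sub (by omega), Nat.cast_sub hr1]
        push_cast
        ring
      have h3 : ((m.choose r * r : ℕ) : ℝ) = ((m.choose (r - 1) * (m - (r - 1)) : ℕ) : ℝ) := by
        rw [h1]
      rw [Nat.cast_mul, Nat.cast_mul, h2] at h3
      linarith
    -- (m+1) C(m,r-1) = r C(m+1,r)
    have e2 : ((m + 1 : ℕ) : ℝ) * (m.choose (r - 1) : ℝ) = N * r := by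
      have h1 := Nat.add_one_mul_choose_eq m (r - 1)
      rw [show r - 1 + 1 = r by omega] at h1
      rw [hNdef]
      exact_mod_cast h1
    have hrt : (r : ℝ) * t = (1 - ε) * (m.choose (r - 1) : ℝ) := by
      have h1 : (r : ℝ) * t = (1 - ε) * ((r : ℝ) * (m.choose r : ℝ) / ((m : ℝ) - r + 1)) := by
        rw [ht]
        ring
      rw [h1, e1, mul_div_cancel_left₀ _ hD0.ne']
    have hr3' : ((m + 1 : ℕ) : ℝ) ≤ 3 * r := by exact_mod_cast hr3
    have hC : N / 3 ≤ (m.choose (r - 1) : ℝ) := by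
      have h1 : ((m + 1 : ℕ) : ℝ) * (N / 3) ≤ ((m + 1 : ℕ) : ℝ) * (m.choose (r - 1) : ℝ) := by
        rw [e2]
        nlinarith
      exact le_of_mul_le_mul_left h1 hn0
    have hext := ext_card (n := m + 1) (r := r) (by omega)
      ((Finset.univ : Finset (Finset (Fin (m + 1)))).filter fun X => z ∉ X) SM
      (fun I => (Base (m + 1) r).filter fun X => z ∈ X ∧ ∀ Y ∈ I, ¬ adj r X Y) (ε * N / 3)
      ?_ ?_ ?_
    · have h1 : (2 : ℝ) ^ (ε * N / 3 / ((m + 1 : ℕ) : ℝ)) = Real.exp (β * x) := by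
        rw [Real.rpow_def_of_pos (by norm_num), hβ, hx]
        congr 1
        ring
      rw [h1] at hext
      have h2 : (SM.card : ℝ) = Real.exp (-(β * x)) * ((SM.card : ℝ) * Real.exp (β * x)) := by
        rw [Real.exp_neg]
        field_simp
      rw [h2]
      exact mul_le_mul_of_nonneg_left hext (Real.exp_pos _).le
    · intro I hI
      rw [hSM, Finset.mem_filter] at hI
      refine ⟨hI.1, fun X hX => ?_⟩
      rw [Finset.mem_filter]
      exact ⟨Finset.mem_univ _, hI.2.1 X hX⟩
    · intro I hI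
      refine ⟨Finset.filter_subset _ _, ?_, ?_⟩
      · rw [Finset.disjoint_left]
        intro X hX hX2
        rw [Finset.mem_filter] at hX hX2
        exact hX2.2 hX.2.1
      · intro X hX
        rw [Finset.mem_filter] at hX
        exact hX.2.2
    · intro I hI
      rw [hSM, Finset.mem_filter] at hI
      have h1 := avail_out (n := m + 1) (r := r) hr1 z I (mem_stabs.mp hI.1).1 hI.2.1
      rw [Nat.add_sub_cancel] at h1
      have h2 : (m.choose (r - 1) : ℝ) ≤
          (((Base (m + 1) r).filter fun X => z ∈ X ∧ ∀ Y ∈ I, ¬ adj r X Y).card : ℝ) +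
            r * (I.card : ℝ) := by exact_mod_cast h1
      have h3 : (r : ℝ) * (I.card : ℝ) ≤ r * t :=
        mul_le_mul_of_nonneg_left hI.2.2.le (Nat.cast_nonneg _)
      rw [hrt] at h3
      show ε * N / 3 ≤ (((Base (m + 1) r).filter fun X => z ∈ X ∧ ∀ Y ∈ I, ¬ adj r X Y).card : ℝ)
      nlinarith
  -- total
  have htot : ((stabs r (Base (m + 1) r ∩ Finset.univ.filter fun X => z ∉ X)).card : ℝ) ≤
      2 * (Real.exp (-(β * x)) * s) := by
    have h1 := Finset.card_le_card hsplit
    have h2 := Finset.card_union_le LG SM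
    have h3 : ((stabs r (Base (m + 1) r ∩ Finset.univ.filter fun X => z ∉ X)).card : ℝ) ≤
        (LG.card : ℝ) + (SM.card : ℝ) := by exact_mod_cast h1.trans h2
    linarith
  refine htot.trans ?_
  have h4 : (2 : ℝ) ≤ Real.exp (β * x / 2) := by
    rw [← Real.log_le_iff_le_exp (by norm_num)]
    linarith
  have h5 : 2 * Real.exp (-(β * x)) ≤ Real.exp (-(β / 2 * x)) := by
    calc 2 * Real.exp (-(β * x)) ≤ Real.exp (β * x / 2) * Real.exp (-(β * x)) :=
          mul_le_mul_of_nonneg_right h4 (Real.exp_pos _).le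
      _ = Real.exp (-(β / 2 * x)) := by
          rw [← Real.exp_add]
          congr 1
          ring
  calc 2 * (Real.exp (-(β * x)) * s) = (2 * Real.exp (-(β * x))) * s := by ring
    _ ≤ Real.exp (-(β / 2 * x)) * s := mul_le_mul_of_nonneg_right h5 hs0.le

end Pool.Agent.H95.FD
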