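import Mathlib

/-! MODULE Run (about 160 lines). The Kleitman-Winston run with the additional rule: continue as long as some vertex of the
current set has degree at least `d`. Compare `Pool/Agent/H8/VM/A1_KW.lean` (proof by strong induction on the size of the current
set `U`, the two functions are defined by cases).

PROOF. (I) small sets. CLAIM 1: for every finite `U` there are `F A` with, for every `K`: `F K` contained in `K` and in `U`,
`(F K).card * d <= U.card`, `A K` contained in `U`, every `v` in `A K` has fewer than `d` neighbours in `A K`, and every `x` in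
`K` and in `U`, not in `A K`, is in `F K` or is a neighbour `adj v x` of some `v` in `F K`; and `F K = F K'` implies
`A K = A K'`. Strong induction on `U.card`: if all degrees in `U` are less than `d` take `F K` empty, `A K = U`. Otherwise fix
`v` in `U` with at least `d` neighbours in `U`; let `(F1, A1)` belong to `U.erase v` and `(F2, A2)` to
`U2 = (U.erase v).filter (not adj v .)` (both smaller); put `F K = insert v (F2 K)`, `A K = A2 K` if `v` is in `K` and
`F K = F1 K`, `A K = A1 K` otherwise. Size: `U2.card + d <= U.card` (`hirr`: `v` is not its own neighbour), so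
`((F2 K).card + 1) * d <= U2.card + d <= U.card`. Determinacy: `v` is in `F K` iff `v` is in `K` (`F1 K`, `F2 K` do not contain
`v`), so `F K = F K'` gives the same case, and in the first case `F2 K = F2 K'` (erase `v`).
(II) CLAIM 2, the same for `U` contained in `B` with `q` such that `(1 - beta)^q * U.card <= theta`, with
`(F K).card <= q + theta / d` and `(A K).card <= theta`. If `U.card <= theta` use Claim 1
(`(F K).card * d <= U.card <= theta` gives `(F K).card <= theta / d`, `Nat.le_div_iff_mul_le`). Otherwise `q <> 0` (as `q = 0`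
gives `U.card <= theta`), take `v` from `hdeg`, the same two recursive calls, with `q` for `U.erase v` and `q - 1` for `U2`:
`U2.card <= (1 - beta) * U.card`. -/

namespace Pool.Agent.H95.FD

open Classical in
/-- The conclusion of a run on `U`, with size bounds `k` and `t`. -/
private def RunP {V : Type*} (adj : V → V → Prop) (d : ℕ) (U : Finset V) (k t : ℕ) : Prop :=
  ∃ F A : Finset V → Finset V,
    (∀ K, F K ⊆ K ∧ F K ⊆ U ∧ (F K).card ≤ k ∧ A K ⊆ U ∧ (A K).card ≤ t ∧
      (∀ v ∈ A K, ((A K).filter fun u => adj v u).card < d) ∧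
      ∀ x ∈ K, x ∈ U → x ∉ A K → x ∈ F K ∨ ∃ v ∈ F K, adj v x) ∧
    ∀ K K', F K = F K' → A K = A K'

open Classical in
private theorem run_step {V : Type*} (adj : V → V → Prop) (d : ℕ) (U : Finset V) (v : V)
    (hv : v ∈ U) (k t k1 k2 : ℕ) (hk1 : k1 ≤ k) (hk2 : k2 + 1 ≤ k)
    (h1 : RunP adj d (U.erase v) k1 t)
    (h2 : RunP adj d ((U.erase v).filter fun u => ¬ adj v u) k2 t) : RunP adj d U k t := by
  obtain ⟨F1, A1, a1, b1⟩ := h1
  obtain ⟨F2, A2, a2, b2⟩ := h2
  have hU1 : U.erase v ⊆ U := Finset.erase_subset _ _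
  have hU2 : ((U.erase v).filter fun u => ¬ adj v u) ⊆ U := (Finset.filter_subset _ _).trans hU1
  have hv1 : ∀ K, v ∉ F1 K := fun K h => Finset.notMem_erase v U ((a1 K).2.1 h)
  have hv2 : ∀ K, v ∉ F2 K := fun K h =>
    Finset.notMem_erase v U (Finset.filter_subset _ _ ((a2 K).2.1 h))
  refine ⟨fun K => if v ∈ K then insert v (F2 K) else F1 K,
    fun K => if v ∈ K then A2 K else A1 K, fun K => ?_, fun K K' hF => ?_⟩
  · by_cases hvK : v ∈ K
    · simp only [if_pos hvK]
      obtain ⟨c1, c2, c3, c4, c5, c6, c7⟩ := a2 K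
      refine ⟨Finset.insert_subset hvK c1, Finset.insert_subset hv (c2.trans hU2),
        (Finset.card_insert_le _ _).trans (by omega), c4.trans hU2, c5, c6, ?_⟩
      intro x hxK hxU hxA
      by_cases hxv : x = v
      · left
        rw [hxv]
        exact Finset.mem_insert_self _ _
      · by_cases hadj : adj v x
        · exact Or.inr ⟨v, Finset.mem_insert_self _ _, hadj⟩
        · rcases c7 x hxK (Finset.mem_filter.mpr ⟨Finset.mem_erase.mpr ⟨hxv, hxU⟩, hadj⟩) hxA with
            h | ⟨w, hw, hwx⟩
          · exact Or.inl (Finset.mem_insert_of_mem h)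
          · exact Or.inr ⟨w, Finset.mem_insert_of_mem hw, hwx⟩
    · simp only [if_neg hvK]
      obtain ⟨c1, c2, c3, c4, c5, c6, c7⟩ := a1 K
      refine ⟨c1, c2.trans hU1, c3.trans hk1, c4.trans hU1, c5, c6, ?_⟩
      intro x hxK hxU hxA
      refine c7 x hxK (Finset.mem_erase.mpr ⟨?_, hxU⟩) hxA
      rintro rfl
      exact hvK hxK
  · by_cases hvK : v ∈ K <;> by_cases hvK' : v ∈ K'
    · simp only [if_pos hvK, if_pos hvK'] at hF ⊢
      refine b2 K K' ?_
      rw [← Finset.erase_insert (hv2 K), ← Finset.erase_insert (hv2 K'), hF]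
    · simp only [if_pos hvK, if_neg hvK'] at hF
      exact absurd (hF ▸ Finset.mem_insert_self v (F2 K)) (hv1 K')
    · simp only [if_neg hvK, if_pos hvK'] at hF
      exact absurd (hF ▸ Finset.mem_insert_self v (F2 K')) (hv1 K)
    · simp only [if_neg hvK, if_neg hvK'] at hF ⊢
      exact b1 K K' hF

open Classical in
private theorem run_card {V : Type*} (adj : V → V → Prop) (hirr : ∀ a, ¬ adj a a)
    (U : Finset V) (v : V) (hv : v ∈ U) :
    (((U.erase v).filter fun u => ¬ adj v u).card) + (U.filter fun u => adj v u).card + 1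
      = U.card := by
  have h1 : (U.filter fun u => adj v u) = (U.erase v).filter fun u => adj v u := by
    ext x
    simp only [Finset.mem_filter, Finset.mem_erase]
    constructor
    · rintro ⟨hx, hvx⟩
      refine ⟨⟨?_, hx⟩, hvx⟩
      rintro rfl
      exact hirr _ hvx
    · rintro ⟨⟨_, hx⟩, hvx⟩
      exact ⟨hx, hvx⟩
  have h2 := Finset.card_filter_add_card_filter_not (s := U.erase v) (fun u => adj v u)
  have h3 := Finset.card_erase_add_one hv
  rw [h1]
  omega

open Classical in
private theorem run_small {V : Type*} (adj : V → V → Prop) (hirr : ∀ a, ¬ adj a a)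
    (d : ℕ) (hd : 1 ≤ d) (t : ℕ) :
    ∀ (m : ℕ) (U : Finset V), U.card = m → U.card ≤ t → RunP adj d U (U.card / d) t := by
  intro m
  induction m using Nat.strong_induction_on with
  | _ m ih =>
  intro U hUm hUt
  by_cases hall : ∀ v ∈ U, (U.filter fun u => adj v u).card < d
  · refine ⟨fun _ => ∅, fun _ => U, fun K => ⟨Finset.empty_subset _, Finset.empty_subset _, ?_,
      subset_rfl, hUt, hall, fun x _ hxU hxA => absurd hxU hxA⟩, fun _ _ _ => rfl⟩
    simp
  · push Not at hall
    obtain ⟨v, hv, hdv⟩ := hall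
    have hc := run_card adj hirr U v hv
    have h3 := Finset.card_erase_add_one hv
    refine run_step adj d U v hv (U.card / d) t _ _ ?_ ?_
      (ih (U.erase v).card (by omega) (U.erase v) rfl (by omega))
      (ih ((U.erase v).filter fun u => ¬ adj v u).card (by omega) _ rfl (by omega))
    · exact Nat.div_le_div_right (by omega)
    · rw [← Nat.add_div_right _ (by omega : 0 < d)]
      exact Nat.div_le_div_right (by omega)

open Classical in
private theorem run_big {V : Type*} (adj : V → V → Prop) (hirr : ∀ a, ¬ adj a a) (B : Finset V)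
    (θ d : ℕ) (hd : 1 ≤ d) (β : ℝ) (hβ1 : β ≤ 1)
    (hdeg : ∀ U ⊆ B, θ < U.card →
      ∃ v ∈ U, β * (U.card : ℝ) ≤ ((U.filter fun u => adj v u).card : ℝ)) :
    ∀ (m : ℕ) (U : Finset V), U.card = m → U ⊆ B → ∀ q : ℕ, (1 - β) ^ q * (U.card : ℝ) ≤ θ →
      RunP adj d U (q + θ / d) θ := by
  intro m
  induction m using Nat.strong_induction_on with
  | _ m ih =>
  intro U hUm hUB q hq
  by_cases hR : U.card ≤ θ
  · obtain ⟨F, A, a, b⟩ := run_small adj hirr d hd θ U.card U rfl hR
    refine ⟨F, A, fun K => ⟨(a K).1, (a K).2.1, ?_, (a K).2.2.2⟩, b⟩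
    exact (a K).2.2.1.trans ((Nat.div_le_div_right hR).trans (Nat.le_add_left _ _))
  · push Not at hR
    have hq0 : q ≠ 0 := by
      rintro rfl
      rw [pow_zero, one_mul] at hq
      have h2 : U.card ≤ θ := by exact_mod_cast hq
      omega
    obtain ⟨p, rfl⟩ : ∃ p, q = p + 1 := ⟨q - 1, by omega⟩
    obtain ⟨v, hv, hdv⟩ := hdeg U hUB hR
    have h1β : 0 ≤ 1 - β := by linarith
    have hc := run_card adj hirr U v hv
    have h3 := Finset.card_erase_add_one hv
    have hU1 : U.erase v ⊆ U := Finset.erase_subset _ _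
    refine run_step adj d U v hv (p + 1 + θ / d) θ (p + 1 + θ / d) (p + θ / d) le_rfl (by omega)
      (ih (U.erase v).card (by omega) (U.erase v) rfl (hU1.trans hUB) (p + 1) ?_)
      (ih ((U.erase v).filter fun u => ¬ adj v u).card (by omega) _ rfl
        (((Finset.filter_subset _ _).trans hU1).trans hUB) p ?_)
    · refine le_trans ?_ hq
      apply mul_le_mul_of_nonneg_left _ (pow_nonneg h1β _)
      exact_mod_cast Finset.card_le_card hU1
    · have h1 : (((U.erase v).filter fun u => ¬ adj v u).card : ℝ) ≤ (1 - β) * U.card := by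
        have h2 : (((U.erase v).filter fun u => ¬ adj v u).card : ℝ)
            + (U.filter fun u => adj v u).card + 1 = U.card := by exact_mod_cast hc
        linarith
      calc (1 - β) ^ p * (((U.erase v).filter fun u => ¬ adj v u).card : ℝ)
          ≤ (1 - β) ^ p * ((1 - β) * U.card) := mul_le_mul_of_nonneg_left h1 (pow_nonneg h1β _)
        _ = (1 - β) ^ (p + 1) * U.card := by ring
        _ ≤ θ := hq

open Classical in
theorem kw_gen {V : Type*} (adj : V → V → Prop) (hirr : ∀ a, ¬ adj a a) (B : Finset V)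
    (θ d : ℕ) (hd : 1 ≤ d) (β : ℝ) (hβ0 : 0 < β) (hβ1 : β ≤ 1)
    (hdeg : ∀ U ⊆ B, θ < U.card →
      ∃ v ∈ U, β * (U.card : ℝ) ≤ ((U.filter fun u => adj v u).card : ℝ))
    (q : ℕ) (hq : (1 - β) ^ q * (B.card : ℝ) ≤ θ) :
    ∃ F A : Finset V → Finset V,
      (∀ K, F K ⊆ K ∧ (F K).card ≤ q + θ / d ∧ A K ⊆ B ∧ (A K).card ≤ θ ∧
        (∀ v ∈ A K, ((A K).filter fun u => adj v u).card < d) ∧
        ∀ x ∈ K, x ∈ B → x ∉ A K → x ∈ F K ∨ ∃ v ∈ F K, adj v x) ∧
      ∀ K K', F K = F K' → A K = A K' := by
  obtain ⟨F, A, a, b⟩ := run_big adj hirr B θ d hd β hβ1 hdeg B.card B rfl subset_rfl q hq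
  exact ⟨F, A, fun K => ⟨(a K).1, (a K).2.2⟩, b⟩

end Pool.Agent.H95.FD
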