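import Pool.Agent.H95.FD.Defs
import Pool.Agent.H95.FD.Run

/-! MODULE RunJ (about 120 lines). The run in the Johnson graph.

PROOF. Let `N = C(n,r)`, `D = n - r + 1` (real; `D >= n/2`), `theta = floor(2 N / D)`, `beta = r D / (2 N)`
(`deg_large` of `Pool.Agent.H28.Johnson` with `delta = 1`: if `theta < U.card` then `U.card >= 2 N / D`), `d = n / 4`,
`q1 = ceil(log n / beta)`; `(1 - beta)^q1 * N <= exp(- log n) N = N / n <= theta` because
`theta >= 2 N / D - 1 >= 2 N / n - 1 >= N / n` (`N >= n`; `D <= n` as `r >= 1`). Then `theta <= 2 N / D <= 4 N / n` and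
`q = q1 + theta / d <= 2 N log n / (r D) + 1 + (4 N / n) / (n / 4 - 1)
   <= 12 N log n / n^2 + 1 + 32 N / n^2 <= 16 N log n / n^2` for large `n` (`r >= n / 3`, `D >= n / 2`, `N >= n^2`, `log n >= 9`).
`beta <= 1`: `r D <= n^2 <= 2 N`. The needed lower bound for `N`: `C(n,r) >= C(n,3)`-like bounds for `3 <= r <= n - 3`, or
`choose_ge_two_pow` in the library of the project: compare the beginning of the proof of `B8_N1.lean` (folder
`Pool/Agent/H8/VM`) and `StableCount.lean` (folder `Pool/Agent/H28`), where the same estimates are proved. In detail: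
`2^r <= C(2r, r) <= C(n, r)` (`Nat.four_pow_le_two_mul_self_mul_centralBinom` or `Nat.two_pow_le_choose`-like induction), and
`2^(n/3)` is larger than `n^2` for large `n`. -/

open scoped BigOperators
open Filter

namespace Pool.Agent.H95.FD

open Pool.Agent.H28.Johnson Pool.Agent.H13.VM

/-- lower bound for the binomial coefficients -/
private lemma choose_low {n r : ℕ} (hr : 2 ≤ r) (hrn : 2 * r ≤ n) :
    (n : ℝ) ^ 2 / 4 ≤ (n.choose r : ℝ) := by
  have h1 : ∀ k, 2 ≤ k → 2 * k ≤ n → n.choose 2 ≤ n.choose k := by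
    intro k hk
    induction k, hk using Nat.le_induction with
    | base => intro _; exact le_rfl
    | succ k hk ih =>
      intro h
      exact (ih (by omega)).trans (Nat.choose_le_succ_of_lt_half_left (by omega))
  have h2 := h1 r hr hrn
  have h3 : ((n.choose 2 : ℕ) : ℝ) = (n : ℝ) * (n - 1) / 2 := Nat.cast_choose_two ℝ n
  have h4 : ((n.choose 2 : ℕ) : ℝ) ≤ (n.choose r : ℝ) := by exact_mod_cast h2
  have h5 : (4 : ℝ) ≤ n := by
    have : 4 ≤ n := by omega
    exact_mod_cast this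
  rw [h3] at h4
  nlinarith

theorem exists_run : ∀ᶠ n : ℕ in atTop, ∀ r : ℕ, n ≤ 3 * r → 2 * r ≤ n →
    ∃ (q θ : ℕ) (F A : Fam n → Fam n), IsRun n r (n / 4) q θ F A ∧
      (q : ℝ) ≤ 16 * (n.choose r : ℝ) * Real.log n / (n : ℝ) ^ 2 ∧
      (θ : ℝ) ≤ 4 * ((n.choose r : ℝ) / n) := by
  classical
  have hlog : Tendsto (fun n : ℕ => Real.log (n : ℝ)) atTop atTop :=
    Real.tendsto_log_atTop.comp tendsto_natCast_atTop_atTop
  filter_upwards [hlog.eventually_ge_atTop 9, eventually_ge_atTop 24] with n hL9 hn24 r hr3 hr2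
  set L := Real.log (n : ℝ) with hLdef
  have hr_ge : 2 ≤ r := by omega
  have hrn : r ≤ n := by omega
  have hn24' : (24 : ℝ) ≤ n := by exact_mod_cast hn24
  have hn0 : (0 : ℝ) < n := by linarith
  have hN4 := choose_low hr_ge hr2
  set N : ℝ := (n.choose r : ℝ) with hNdef
  have hN0 : 0 < N := lt_of_lt_of_le (by positivity) hN4
  have hL0 : 0 < L := by linarith
  have hr3' : (n : ℝ) ≤ 3 * r := by exact_mod_cast hr3
  have hr2' : 2 * (r : ℝ) ≤ n := by exact_mod_cast hr2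
  have hr0 : (0 : ℝ) < r := by linarith
  have hD : (n : ℝ) / 2 ≤ n - r + 1 := by linarith
  have hD0 : (0 : ℝ) < n - r + 1 := by linarith
  have hDn : (n : ℝ) - r + 1 ≤ n := by
    have : (1 : ℝ) ≤ r := by
      have : 1 ≤ r := by omega
      exact_mod_cast this
    linarith
  -- the parameters
  set θ : ℕ := ⌊2 * N / ((n : ℝ) - r + 1)⌋₊ with hθdef
  have hθup : (θ : ℝ) ≤ 2 * N / ((n : ℝ) - r + 1) := Nat.floor_le (by positivity)
  have hθlow : 2 * N / ((n : ℝ) - r + 1) < θ + 1 := Nat.lt_floor_add_one _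
  have hθ4 : (θ : ℝ) ≤ 4 * (N / n) := by
    refine hθup.trans ?_
    rw [div_le_iff₀ hD0]
    have h1 : 4 * (N / n) * (n / 2) ≤ 4 * (N / n) * ((n : ℝ) - r + 1) :=
      mul_le_mul_of_nonneg_left hD (by positivity)
    have h2 : 4 * (N / n) * (n / 2) = 2 * N := by field_simp; ring
    linarith
  set β : ℝ := 1 * r * (n - r + 1) / ((1 + 1) * (n.choose r : ℝ)) with hβdef
  have hβ0 : 0 < β := by
    rw [hβdef]
    have : (0 : ℝ) < n.choose r := hN0
    positivity
  have hβ1 : β ≤ 1 := by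
    rw [hβdef, div_le_one (by have : (0 : ℝ) < n.choose r := hN0; positivity)]
    have h1 : (r : ℝ) * (n - r + 1) ≤ n / 2 * n := by
      have h3 : (r : ℝ) ≤ n / 2 := by linarith
      nlinarith
    have h4 : (n : ℝ) ^ 2 / 4 ≤ (n.choose r : ℝ) := hN4
    nlinarith
  set q : ℕ := ⌈L / β⌉₊ with hqdef
  have hqlow : L / β ≤ q := Nat.le_ceil _
  have hqup : (q : ℝ) ≤ L / β + 1 := (Nat.ceil_lt_add_one (by positivity)).le
  -- the run
  have hdeg : ∀ U ⊆ Base n r, θ < U.card →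
      ∃ v ∈ U, β * (U.card : ℝ) ≤ ((U.filter fun u => adj r v u).card : ℝ) := by
    intro U hU hcard
    refine deg_large (by omega) hrn 1 one_pos U hU ?_
    have h1 : (θ : ℝ) + 1 ≤ U.card := by exact_mod_cast hcard
    have h2 : 2 * N / ((n : ℝ) - r + 1) ≤ U.card := by linarith
    rw [div_le_iff₀ hD0] at h2
    linarith
  have hq : (1 - β) ^ q * ((Base n r).card : ℝ) ≤ θ := by
    rw [card_Base]
    have h1 : (1 - β) ^ q ≤ Real.exp (-L) := by
      have h2 : 1 - β ≤ Real.exp (-β) := Real.one_sub_le_exp_neg β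
      calc (1 - β) ^ q ≤ (Real.exp (-β)) ^ q := pow_le_pow_left₀ (by linarith) h2 q
        _ = Real.exp (-(β * q)) := by
          rw [← Real.exp_nat_mul]
          congr 1
          ring
        _ ≤ Real.exp (-L) := by
          apply Real.exp_le_exp.mpr
          rw [div_le_iff₀ hβ0] at hqlow
          linarith
    have h3 : Real.exp (-L) = 1 / n := by
      rw [Real.exp_neg, hLdef, Real.exp_log hn0, one_div]
    have h4 : (1 - β) ^ q * N ≤ 1 / n * N := by
      rw [← h3]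
      exact mul_le_mul_of_nonneg_right h1 hN0.le
    refine h4.trans ?_
    have h5 : 2 * N / n ≤ 2 * N / ((n : ℝ) - r + 1) :=
      div_le_div_of_nonneg_left (by positivity) hD0 hDn
    have h6 : 1 ≤ N / n := by
      rw [le_div_iff₀ hn0]
      nlinarith
    have h7 : 2 * N / n = 2 * (N / n) := by ring
    have h8 : 1 / (n : ℝ) * N = N / n := by ring
    rw [h8]
    linarith
  obtain ⟨F, A, hF, hdet⟩ := kw_gen (adj r) (fun a => adj_irrefl a) (Base n r) θ (n / 4)
    (by omega) β hβ0 hβ1 hdeg q hq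
  refine ⟨q + θ / (n / 4), θ, F, A, ⟨fun K _ => (hF K).1, fun K _ => (hF K).2.1,
    fun K _ => (hF K).2.2.1, fun K _ => (hF K).2.2.2.1, ?_, ?_, fun K _ K' _ h => hdet K K' h⟩,
    ?_, hθ4⟩
  · intro K _ v hv S hS hSv
    refine lt_of_le_of_lt (Finset.card_le_card ?_) ((hF K).2.2.2.2.1 v hv)
    intro u hu
    exact Finset.mem_filter.mpr ⟨hS hu, hSv u hu⟩
  · intro K hK x hx hxA
    exact (hF K).2.2.2.2.2 x hx (hK hx) hxA
  · rw [le_div_iff₀ (by positivity)]
    have h1 : L / β * (n : ℝ) ^ 2 ≤ 12 * N * L := by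
      rw [div_mul_eq_mul_div, div_le_iff₀ hβ0]
      have h2 : (n : ℝ) ^ 2 ≤ 12 * N * β := by
        have h3 : 12 * N * β = 6 * (r * (n - r + 1)) := by
          rw [hβdef]
          have : (n.choose r : ℝ) ≠ 0 := hN0.ne'
          field_simp
          ring
        rw [h3]
        have h4 : (n : ℝ) / 3 * (n / 2) ≤ r * (n - r + 1) :=
          mul_le_mul (by linarith) hD (by positivity) hr0.le
        nlinarith
      calc L * (n : ℝ) ^ 2 ≤ L * (12 * N * β) := mul_le_mul_of_nonneg_left h2 hL0.le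
        _ = 12 * N * L * β := by ring
    have h5 : (q : ℝ) * (n : ℝ) ^ 2 ≤ (L / β + 1) * (n : ℝ) ^ 2 :=
      mul_le_mul_of_nonneg_right hqup (by positivity)
    have h6 : (((θ / (n / 4) : ℕ)) : ℝ) ≤ (θ : ℝ) / ((n / 4 : ℕ) : ℝ) := Nat.cast_div_le
    have h7 : (n : ℝ) / 8 ≤ ((n / 4 : ℕ) : ℝ) := by
      have h8 : n ≤ 8 * (n / 4) := by omega
      have h9 : (n : ℝ) ≤ 8 * ((n / 4 : ℕ) : ℝ) := by exact_mod_cast h8
      linarith
    have h10 : (θ : ℝ) / ((n / 4 : ℕ) : ℝ) ≤ 4 * (N / n) / (n / 8) :=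
      div_le_div₀ (by positivity) hθ4 (by positivity) h7
    have h11 : 4 * (N / n) / ((n : ℝ) / 8) * (n : ℝ) ^ 2 = 32 * N := by field_simp; ring
    have h12 : (((θ / (n / 4) : ℕ)) : ℝ) * (n : ℝ) ^ 2 ≤ 32 * N := by
      rw [← h11]
      exact mul_le_mul_of_nonneg_right (h6.trans h10) (by positivity)
    have h13 : 9 * N ≤ L * N := mul_le_mul_of_nonneg_right hL9 hN0.le
    have h14 : ((q + θ / (n / 4) : ℕ) : ℝ) * (n : ℝ) ^ 2 =
        (q : ℝ) * (n : ℝ) ^ 2 + (((θ / (n / 4) : ℕ)) : ℝ) * (n : ℝ) ^ 2 := by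
      push_cast
      ring
    rw [h14]
    have h15 : (L / β + 1) * (n : ℝ) ^ 2 = L / β * (n : ℝ) ^ 2 + (n : ℝ) ^ 2 := by ring
    nlinarith

end Pool.Agent.H95.FD
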