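import Pool.Agent.H95.FD.Cls2
import Pool.Agent.H95.FD.PtIn
import Pool.Agent.H95.FD.PtOut
import Pool.Agent.H95.FD.CodeB
import Pool.Agent.H95.FD.BinE
import Pool.Agent.H95.FD.RunJ
import Pool.Agent.H8.VM.G7_Sym
import Pool.Agent.H97.VZ.Defs

/-! # Faithful description: matroids with a symmetry are rare (assembly)

`fix_small`: for central rank and `s <> 1` the number of matroids fixed by `s` is at most `exp (- c N / n)` times the number of
all matroids. `c2_holds`: the rank-level theorem `C2` of `Pool.Agent.H97.VZ`. -/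

open scoped BigOperators
open Filter

namespace Pool.Agent.H95.FD

open Pool.Agent.H28.Johnson Pool.Agent.H13.VM

lemma jj_le : ∀ᶠ n : ℕ in atTop, 5 * jj n ≤ n := by
  have h : Tendsto (fun n : ℕ => (n : ℝ) ^ (1 / 4 : ℝ)) atTop atTop :=
    (tendsto_rpow_atTop (by norm_num)).comp tendsto_natCast_atTop_atTop
  filter_upwards [h.eventually_ge_atTop 10, eventually_ge_atTop 10] with n hn hn10
  have h0 : (0 : ℝ) < n := by exact_mod_cast (by omega : 0 < n)
  have h1 : (n : ℝ) = (n : ℝ) ^ (3 / 4 : ℝ) * (n : ℝ) ^ (1 / 4 : ℝ) := by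
    rw [← Real.rpow_add h0]
    norm_num
  have h2 : (0 : ℝ) ≤ (n : ℝ) ^ (3 / 4 : ℝ) := by positivity
  have h3 : (jj n : ℝ) ≤ (n : ℝ) ^ (3 / 4 : ℝ) + 1 := (Nat.ceil_lt_add_one h2).le
  have h4 : (10 : ℝ) ≤ n := by exact_mod_cast hn10
  have h5 : 10 * (n : ℝ) ^ (3 / 4 : ℝ) ≤ n := by
    calc 10 * (n : ℝ) ^ (3 / 4 : ℝ) = (n : ℝ) ^ (3 / 4 : ℝ) * 10 := by ring
      _ ≤ (n : ℝ) ^ (3 / 4 : ℝ) * (n : ℝ) ^ (1 / 4 : ℝ) := mul_le_mul_of_nonneg_left hn h2
      _ = n := h1.symm
  have h6 : (5 : ℝ) * jj n ≤ n := by linarith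
  exact_mod_cast h6

lemma jj_pos {n : ℕ} (hn : 1 ≤ n) : 1 ≤ jj n := by
  rw [jj, Nat.one_le_ceil_iff]
  have : (0 : ℝ) < n := by exact_mod_cast hn
  positivity

/-- `N / n >= n^3` for central ranks -/
lemma x_large : ∀ᶠ n : ℕ in atTop, ∀ r : ℕ, Cen n r → (n : ℝ) ^ 3 ≤ (n.choose r : ℝ) / n := by
  have h : ∀ᶠ n : ℕ in atTop, (n : ℝ) ^ 7 / (2 : ℝ) ^ n ≤ 1 := by
    have h1 := tendsto_pow_const_div_const_pow_of_one_lt 7 (by norm_num : (1 : ℝ) < 2)
    exact h1.eventually_le_const (by norm_num)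
  filter_upwards [h, eventually_ge_atTop 1] with n hn hn1 r hr
  have hn0 : (0 : ℝ) < n := by exact_mod_cast hn1
  have h2 : (0 : ℝ) < (2 : ℝ) ^ n := by positivity
  rw [div_le_one h2] at hn
  have h3 : (2 : ℝ) ^ n ≤ (n : ℝ) ^ 3 * (n.choose r : ℝ) := by exact_mod_cast hr.1
  rw [le_div_iff₀ hn0]
  have h4 : (n : ℝ) ^ 3 * ((n : ℝ) ^ 3 * n) ≤ (n : ℝ) ^ 3 * (n.choose r : ℝ) := by
    calc (n : ℝ) ^ 3 * ((n : ℝ) ^ 3 * n) = (n : ℝ) ^ 7 := by ring
      _ ≤ _ := hn.trans h3
  exact le_of_mul_le_mul_left h4 (by positivity)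

open Classical in
/-- the fixed matroids with a given code -/
theorem class_small : ∃ c : ℝ, 0 < c ∧ ∀ᶠ n : ℕ in atTop, ∀ r : ℕ, 2 * r ≤ n → Cen n r →
    ∀ (q θ : ℕ) (F A : Fam n → Fam n), IsRun n r (n / 4) q θ F A →
      (θ : ℝ) ≤ 4 * ((n.choose r : ℝ) / n) →
      ∀ (co : Fam n × Fam n × Finset (Inf n)) (s : Equiv.Perm (Fin n)), s ≠ 1 →
      (((cls n r (jj n) F co).filter fun B => (B.image fun X => X.image s) = B).card : ℝ) ≤
        (2 * n + 3) * (Real.exp (-(c * ((n.choose r : ℝ) / n))) *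
          ((stabs r (Base n r)).card : ℝ)) := by
  obtain ⟨c0, hc0, hsym⟩ := Pool.Agent.H8.VM.sym_small
  obtain ⟨c1, hc1, hin⟩ := point_in
  obtain ⟨c2, hc2, hout⟩ := point_out
  have hl2 : 0 < Real.log 2 := Real.log_pos (by norm_num)
  set g : ℕ := ⌈8 * Real.log 2 / c0⌉₊ + 1 with hg
  have hg1 : 1 ≤ g := by omega
  have hg8 : 8 * Real.log 2 / c0 ≤ g := by
    rw [hg]
    push_cast
    linarith [Nat.le_ceil (8 * Real.log 2 / c0)]
  have hg0 : (0 : ℝ) < g := by exact_mod_cast hg1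
  have hgc : 4 * Real.log 2 / g ≤ c0 / 2 := by
    rw [div_le_iff₀ hc0] at hg8
    rw [div_le_iff₀ hg0]
    linarith
  set κ : ℝ := (2 / 5 : ℝ) ^ g / 2 with hκ
  have hκ0 : 0 < κ := by positivity
  set δ : ℝ := κ * Real.log 2 / 2 with hδ
  have hδ0 : 0 < δ := by positivity
  obtain ⟨κ', hκ'0, hbin⟩ := binom_exp δ hδ0
  set c : ℝ := min (min c1 c2) (min (Real.log 2 * κ') (min δ (c0 / 2))) with hcdef
  have hc : 0 < c := by
    rw [hcdef]
    have e1 : 0 < Real.log 2 * κ' := by positivity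
    have e2 : 0 < c0 / 2 := by positivity
    exact lt_min (lt_min hc1 hc2) (lt_min e1 (lt_min hδ0 e2))
  have hcc1 : c ≤ c1 := (min_le_left _ _).trans (min_le_left _ _)
  have hcc2 : c ≤ c2 := (min_le_left _ _).trans (min_le_right _ _)
  have hcκ : c ≤ Real.log 2 * κ' := (min_le_right _ _).trans (min_le_left _ _)
  have hcδ : c ≤ δ := (min_le_right _ _).trans ((min_le_right _ _).trans (min_le_left _ _))
  have hcc0 : c ≤ c0 / 2 := (min_le_right _ _).trans ((min_le_right _ _).trans (min_le_right _ _))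
  refine ⟨c, hc, ?_⟩
  obtain ⟨n0, hn0⟩ := exists_nat_ge (4 / κ)
  filter_upwards [hsym, hin, hout, jj_le, eventually_ge_atTop (10 * g + 100),
    eventually_ge_atTop n0] with n hsymn hinn houtn hjn hng hnn0 r h2r hcen q θ F A hF hθ co s hs
  set N : ℝ := (n.choose r : ℝ) with hN
  set x : ℝ := N / n with hx
  have hnpos : (0 : ℝ) < n := by exact_mod_cast (by omega : 0 < n)
  have hr49 := hcen.2.1
  have hN0 : 0 < N := by
    rw [hN]
    exact_mod_cast Nat.choose_pos (by omega : r ≤ n)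
  have hx0 : 0 < x := by rw [hx]; positivity
  have hNx : N = x * n := by rw [hx, div_mul_cancel₀ _ hnpos.ne']
  have h1 : n / 4 + jj n ≤ r := by
    clear_value x N c κ
    omega
  have h2 : n / 4 + jj n + r ≤ n := by
    clear_value x N c κ
    omega
  have hd : 1 ≤ n / 4 := by
    clear_value x N c κ
    omega
  set S : ℝ := ((stabs r (Base n r)).card : ℝ) with hS
  have hS0 : 0 ≤ S := Nat.cast_nonneg _
  set E : ℝ := Real.exp (-(c * x)) with hE
  have hκn : 4 / κ ≤ n := hn0.trans (by exact_mod_cast hnn0)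
  have hhx : κ * N + θ ≤ (2 / 5 : ℝ) ^ g * (n.choose r : ℝ) := by
    have e1 : (2 / 5 : ℝ) ^ g = 2 * κ := by rw [hκ]; ring
    rw [e1, ← hN]
    have e2 : 4 * x ≤ κ * N := by
      rw [hNx]
      rw [div_le_iff₀ hκ0] at hκn
      nlinarith
    linarith
  set q' : ℕ := ⌊κ' * x⌋₊ with hq'
  have hq'x : (q' : ℝ) ≤ κ' * x := Nat.floor_le (by positivity)
  have hq'x1 : κ' * x ≤ (q' : ℝ) + 1 := (Nat.lt_floor_add_one _).le
  have hcov := cls_cover (j := jj n) co hF (g := g) (by omega) h2r (by omega) s q' (κ * N) hhx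
  -- the five terms
  have t1 : (((∑ z : Fin n, ((cls n r (jj n) F co).filter fun B => ∀ Y ∈ B, z ∈ Y).card : ℕ)) : ℝ) ≤
      n * (E * S) := by
    push_cast
    calc _ ≤ ∑ _z : Fin n, E * S := by
          refine Finset.sum_le_sum fun z _ => ?_
          have a1 : (((cls n r (jj n) F co).filter fun B => ∀ Y ∈ B, z ∈ Y).card : ℝ) ≤
              ((stabs r (Base n r ∩ Finset.univ.filter fun X => z ∈ X)).card : ℝ) := by
            exact_mod_cast cat_coloop co hF h1 h2 hd z
          refine a1.trans ((hinn r (by omega) h2r z).trans ?_)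
          refine mul_le_mul_of_nonneg_right ?_ hS0
          apply Real.exp_le_exp.mpr
          have : c * x ≤ c1 * x := mul_le_mul_of_nonneg_right hcc1 hx0.le
          linarith
      _ = n * (E * S) := by simp
  have t2 : (((∑ z : Fin n, ((cls n r (jj n) F co).filter fun B => ∀ Y ∈ B, z ∉ Y).card : ℕ)) : ℝ) ≤
      n * (E * S) := by
    push_cast
    calc _ ≤ ∑ _z : Fin n, E * S := by
          refine Finset.sum_le_sum fun z _ => ?_
          have a1 : (((cls n r (jj n) F co).filter fun B => ∀ Y ∈ B, z ∉ Y).card : ℝ) ≤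
              ((stabs r (Base n r ∩ Finset.univ.filter fun X => z ∉ X)).card : ℝ) := by
            exact_mod_cast cat_loop co hF h1 h2 hd z
          refine a1.trans ((houtn r (by omega) h2r z).trans ?_)
          refine mul_le_mul_of_nonneg_right ?_ hS0
          apply Real.exp_le_exp.mpr
          have : c * x ≤ c2 * x := mul_le_mul_of_nonneg_right hcc2 hx0.le
          linarith
      _ = n * (E * S) := by simp
  have t3 : ((((cls n r (jj n) F co).filter fun B =>
      (∀ z : Fin n, (∃ Y ∈ B, z ∈ Y) ∧ ∃ Y ∈ B, z ∉ Y) ∧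
        q' + 1 ≤ (nclB r (jj n) A B).card).card : ℕ) : ℝ) ≤ E * S := by
    have a1 := cat_many co hF h1 h2 (q' + 1)
    set T := ((cls n r (jj n) F co).filter fun B =>
      (∀ z : Fin n, (∃ Y ∈ B, z ∈ Y) ∧ ∃ Y ∈ B, z ∉ Y) ∧
        q' + 1 ≤ (nclB r (jj n) A B).card).card with hT
    have a2 : (T : ℝ) * (2 : ℝ) ^ (q' + 1) ≤ S := by
      rw [hS]
      exact_mod_cast a1
    have a3 : Real.exp (c * x) ≤ (2 : ℝ) ^ (q' + 1) := by
      have e2 : (2 : ℝ) ^ (q' + 1) = Real.exp (Real.log 2 * ((q' + 1 : ℕ) : ℝ)) := by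
        rw [mul_comm, Real.exp_nat_mul, Real.exp_log (by norm_num : (0 : ℝ) < 2)]
      rw [e2]
      apply Real.exp_le_exp.mpr
      push_cast
      calc c * x ≤ Real.log 2 * κ' * x := mul_le_mul_of_nonneg_right hcκ hx0.le
        _ = Real.log 2 * (κ' * x) := by ring
        _ ≤ _ := mul_le_mul_of_nonneg_left hq'x1 hl2.le
    have a4 : (T : ℝ) * Real.exp (c * x) ≤ S :=
      (mul_le_mul_of_nonneg_left a3 (Nat.cast_nonneg _)).trans a2
    rw [hE, Real.exp_neg]
    rw [inv_mul_eq_div, le_div_iff₀ (Real.exp_pos _)]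
    exact a4
  have t4 : ((((cls n r (jj n) F co).filter fun B => (nclB r (jj n) A B).card ≤ q' ∧
        κ * N ≤ ((NB r B \ A (NB r B)).card : ℝ)).card : ℕ) : ℝ) ≤ E * S := by
    have a1 := cat_known (by omega) co hF h1 h2 q' (κ * N)
    set T := ((cls n r (jj n) F co).filter fun B => (nclB r (jj n) A B).card ≤ q' ∧
        κ * N ≤ ((NB r B \ A (NB r B)).card : ℝ)).card with hT
    have a2 : ((∑ i ∈ Finset.range (q' + 1), θ.choose i : ℕ) : ℝ) ≤ Real.exp (δ * x) :=
      hbin θ q' x hx0.le hθ hq'x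
    have a3 : (2 : ℝ) ^ (κ * N / n) = Real.exp (2 * δ * x) := by
      rw [Real.rpow_def_of_pos (by norm_num : (0 : ℝ) < 2), hδ, hx]
      congr 1
      ring
    rw [a3] at a1
    have a4 : (T : ℝ) * Real.exp (2 * δ * x) ≤ Real.exp (δ * x) * S :=
      a1.trans (mul_le_mul_of_nonneg_right a2 hS0)
    have a5 : Real.exp (2 * δ * x) = Real.exp (δ * x) * Real.exp (δ * x) := by
      rw [← Real.exp_add]
      congr 1
      ring
    rw [a5, ← mul_assoc, mul_comm (T : ℝ), mul_assoc] at a4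
    have a6 : (T : ℝ) * Real.exp (δ * x) ≤ S := le_of_mul_le_mul_left a4 (Real.exp_pos _)
    have a7 : Real.exp (c * x) ≤ Real.exp (δ * x) :=
      Real.exp_le_exp.mpr (mul_le_mul_of_nonneg_right hcδ hx0.le)
    have a8 : (T : ℝ) * Real.exp (c * x) ≤ S :=
      (mul_le_mul_of_nonneg_left a7 (Nat.cast_nonneg _)).trans a6
    rw [hE, Real.exp_neg]
    rw [inv_mul_eq_div, le_div_iff₀ (Real.exp_pos _)]
    exact a8
  have t5 : ((((cls n r (jj n) F co).filter fun B => (B.image fun X => X.image s) = B ∧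
        (∀ S : Finset (Fin n), Dep B S → g ≤ S.card) ∧
        ∀ S : Finset (Fin n), Codep B S → g ≤ S.card).card : ℕ) : ℝ) ≤ E * S := by
    have a1 : ((((cls n r (jj n) F co).filter fun B => (B.image fun X => X.image s) = B ∧
        (∀ S : Finset (Fin n), Dep B S → g ≤ S.card) ∧
        ∀ S : Finset (Fin n), Codep B S → g ≤ S.card).card : ℕ) : ℝ) ≤
        (2 : ℝ) ^ (θ / g) * ((Pool.Agent.H8.VM.inv r s).card : ℝ) := by
      exact_mod_cast cat_sym co hF h1 h2 hg1 s
    have a2 : ((Pool.Agent.H8.VM.inv r s).card : ℝ) ≤ Real.exp (-(c0 * x)) * S := by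
      have := hsymn r (by omega) h2r s hs
      rwa [← stabs_eq_stables, ← hS] at this
    have a3 : (2 : ℝ) ^ (θ / g) ≤ Real.exp (c0 / 2 * x) := by
      have e2 : (2 : ℝ) ^ (θ / g) = Real.exp (Real.log 2 * ((θ / g : ℕ) : ℝ)) := by
        rw [mul_comm, Real.exp_nat_mul, Real.exp_log (by norm_num : (0 : ℝ) < 2)]
      rw [e2]
      apply Real.exp_le_exp.mpr
      have e3 : ((θ / g : ℕ) : ℝ) ≤ (θ : ℝ) / g := Nat.cast_div_le
      have e4 : (θ : ℝ) / g ≤ 4 * x / g := div_le_div_of_nonneg_right hθ hg0.le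
      calc Real.log 2 * ((θ / g : ℕ) : ℝ) ≤ Real.log 2 * (4 * x / g) :=
            mul_le_mul_of_nonneg_left (e3.trans e4) hl2.le
        _ = 4 * Real.log 2 / g * x := by ring
        _ ≤ _ := mul_le_mul_of_nonneg_right hgc hx0.le
    refine a1.trans ?_
    calc (2 : ℝ) ^ (θ / g) * ((Pool.Agent.H8.VM.inv r s).card : ℝ) ≤
          Real.exp (c0 / 2 * x) * (Real.exp (-(c0 * x)) * S) :=
          mul_le_mul a3 a2 (Nat.cast_nonneg _) (Real.exp_pos _).le
      _ = Real.exp (-(c0 / 2 * x)) * S := by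
          rw [← mul_assoc, ← Real.exp_add]
          congr 2
          ring
      _ ≤ E * S := by
          refine mul_le_mul_of_nonneg_right ?_ hS0
          apply Real.exp_le_exp.mpr
          have : c * x ≤ c0 / 2 * x := mul_le_mul_of_nonneg_right hcc0 hx0.le
          linarith
  have hcov' : (((cls n r (jj n) F co).filter fun B => (B.image fun X => X.image s) = B).card : ℝ) ≤
      n * (E * S) + n * (E * S) + E * S + E * S + E * S := by
    have hcovR := (Nat.cast_le (α := ℝ)).mpr hcov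
    rw [Nat.cast_add, Nat.cast_add, Nat.cast_add, Nat.cast_add] at hcovR
    exact hcovR.trans
      (add_le_add (add_le_add (add_le_add (add_le_add t1 t2) t3) t4) t5)
  refine hcov'.trans (le_of_eq ?_)
  ring

open Classical in
/-- few matroids are fixed by a given permutation -/
theorem fix_small : ∃ c : ℝ, 0 < c ∧ ∀ᶠ n : ℕ in atTop, ∀ r : ℕ, 2 * r ≤ n → Cen n r →
    ∀ s : Equiv.Perm (Fin n), s ≠ 1 →
    (((Mats n r).filter fun B => (B.image fun X => X.image s) = B).card : ℝ) ≤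
      Real.exp (-(c * ((n.choose r : ℝ) / n))) * ((Mats n r).card : ℝ) := by
  obtain ⟨c, hc, hcls⟩ := class_small
  have hc4 : 0 < c / 4 := by positivity
  refine ⟨c / 2, by positivity, ?_⟩
  have hlin : ∀ᶠ n : ℕ in atTop, (2 * n + 3 : ℝ) ≤ Real.exp (c / 4 * (n : ℝ) ^ 3) := by
    have h1 : ∀ᶠ n : ℕ in atTop, 12 / c ≤ (n : ℝ) :=
      tendsto_natCast_atTop_atTop.eventually_ge_atTop _
    filter_upwards [h1, eventually_ge_atTop 2] with n hn hn2
    have h2 : (2 : ℝ) ≤ n := by exact_mod_cast hn2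
    rw [div_le_iff₀ hc] at hn
    have h3 : (3 : ℝ) ≤ c / 4 * n := by linarith
    have h4 : c / 4 * (n : ℝ) ^ 3 + 1 ≤ Real.exp (c / 4 * (n : ℝ) ^ 3) := Real.add_one_le_exp _
    have h5 : 3 * (n : ℝ) ^ 2 ≤ c / 4 * (n : ℝ) ^ 3 := by
      calc 3 * (n : ℝ) ^ 2 ≤ (c / 4 * n) * (n : ℝ) ^ 2 :=
            mul_le_mul_of_nonneg_right h3 (by positivity)
        _ = _ := by ring
    nlinarith
  filter_upwards [hcls, exists_run, codes_small (c / 4) hc4, hlin, x_large,
    eventually_ge_atTop 100] with n h1 h2 h3 h4 h5 hn r h2r hcen s hs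
  have hr49 := hcen.2.1
  obtain ⟨q, θ, F, A, hF, hq, hθ⟩ := h2 r (by omega) h2r
  have hco := h3 r h2r hcen q θ F A hF hq
  have hxl := h5 r hcen
  set x : ℝ := (n.choose r : ℝ) / n with hx
  set S : ℝ := ((stabs r (Base n r)).card : ℝ) with hS
  have hS0 : 0 ≤ S := Nat.cast_nonneg _
  have hSm : S ≤ ((Mats n r).card : ℝ) := by
    rw [hS]
    exact_mod_cast stabs_le_mats (by omega) (by omega)
  have hsplit : ((Mats n r).filter fun B => (B.image fun X => X.image s) = B).card =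
      ∑ co ∈ (Mats n r).image (code r (jj n) F),
        ((cls n r (jj n) F co).filter fun B => (B.image fun X => X.image s) = B).card := by
    rw [Finset.card_eq_sum_card_fiberwise (f := code r (jj n) F)
      (t := (Mats n r).image (code r (jj n) F))]
    · refine Finset.sum_congr rfl fun co _ => ?_
      congr 1
      ext B
      simp only [Finset.mem_filter, cls]
      tauto
    · intro B hB
      rw [Finset.mem_coe, Finset.mem_filter] at hB
      exact Finset.mem_coe.mpr (Finset.mem_image_of_mem _ hB.1)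
  rw [hsplit]
  push_cast
  have hx3 : Real.exp (c / 4 * (n : ℝ) ^ 3) ≤ Real.exp (c / 4 * x) :=
    Real.exp_le_exp.mpr (mul_le_mul_of_nonneg_left hxl hc4.le)
  calc ∑ co ∈ (Mats n r).image (code r (jj n) F),
        (((cls n r (jj n) F co).filter fun B => (B.image fun X => X.image s) = B).card : ℝ)
      ≤ ∑ _co ∈ (Mats n r).image (code r (jj n) F),
        (2 * n + 3) * (Real.exp (-(c * x)) * S) :=
        Finset.sum_le_sum fun co _ => h1 r h2r hcen q θ F A hF hθ co s hs
    _ = (((Mats n r).image (code r (jj n) F)).card : ℝ) *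
        ((2 * n + 3) * (Real.exp (-(c * x)) * S)) := by
        rw [Finset.sum_const, nsmul_eq_mul]
    _ ≤ Real.exp (c / 4 * x) * (Real.exp (c / 4 * x) * (Real.exp (-(c * x)) * S)) := by
        have hEp := (Real.exp_pos (-(c * x))).le
        refine mul_le_mul hco ?_ (by positivity) (Real.exp_pos _).le
        exact mul_le_mul_of_nonneg_right (h4.trans hx3) (mul_nonneg hEp hS0)
    _ = Real.exp (-(c / 2 * x)) * S := by
        rw [← mul_assoc, ← mul_assoc, ← Real.exp_add, ← Real.exp_add]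
        congr 2
        ring
    _ ≤ _ := mul_le_mul_of_nonneg_left hSm (Real.exp_pos _).le

/-- the rank-level theorem on symmetric matroids -/
theorem c2_holds : Pool.Agent.H97.VZ.C2 := by
  classical
  intro ε hε
  obtain ⟨c, hc, hfix⟩ := fix_small
  -- `n! exp (- c n^3) <= eps`
  have hlin : ∀ᶠ n : ℕ in atTop, (n.factorial : ℝ) * Real.exp (-(c * (n : ℝ) ^ 3)) ≤ ε := by
    obtain ⟨k, hk⟩ := exists_nat_ge (-Real.log ε)
    have h1 : ∀ᶠ n : ℕ in atTop, 2 / c ≤ (n : ℝ) :=
      tendsto_natCast_atTop_atTop.eventually_ge_atTop _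
    filter_upwards [h1, eventually_ge_atTop (max 2 k)] with n hn hnk
    have hn2 : 2 ≤ n := (le_max_left _ _).trans hnk
    have hkn : (k : ℝ) ≤ n := by exact_mod_cast (le_max_right _ _).trans hnk
    have h0 : (0 : ℝ) < n := by exact_mod_cast (by omega : 0 < n)
    have h2 : (n.factorial : ℝ) ≤ (n : ℝ) ^ n := by exact_mod_cast Nat.factorial_le_pow n
    have h3 : (n : ℝ) ^ n ≤ Real.exp ((n : ℝ) ^ 2) := by
      have e1 : (n : ℝ) ≤ Real.exp n := by linarith [Real.add_one_le_exp (n : ℝ)]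
      calc (n : ℝ) ^ n ≤ (Real.exp n) ^ n := pow_le_pow_left₀ h0.le e1 n
        _ = Real.exp ((n : ℝ) ^ 2) := by
          rw [← Real.exp_nat_mul]
          congr 1
          ring
    rw [div_le_iff₀ hc] at hn
    have h4 : 2 * (n : ℝ) ^ 2 ≤ c * (n : ℝ) ^ 3 := by
      calc 2 * (n : ℝ) ^ 2 ≤ (n * c) * (n : ℝ) ^ 2 :=
            mul_le_mul_of_nonneg_right hn (by positivity)
        _ = _ := by ring
    have h5 : -Real.log ε ≤ (n : ℝ) ^ 2 := by
      have e1 : (1 : ℝ) ≤ n := by exact_mod_cast (by omega : 1 ≤ n)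
      have e2 : (n : ℝ) ≤ (n : ℝ) ^ 2 := by nlinarith
      linarith
    calc (n.factorial : ℝ) * Real.exp (-(c * (n : ℝ) ^ 3))
        ≤ Real.exp ((n : ℝ) ^ 2) * Real.exp (-(c * (n : ℝ) ^ 3)) :=
          mul_le_mul_of_nonneg_right (h2.trans h3) (Real.exp_pos _).le
      _ = Real.exp ((n : ℝ) ^ 2 + -(c * (n : ℝ) ^ 3)) := by rw [← Real.exp_add]
      _ ≤ Real.exp (Real.log ε) := by
          apply Real.exp_le_exp.mpr
          linarith
      _ = ε := Real.exp_log hε
  filter_upwards [hfix, hlin, x_large] with n h1 h2 h3 r h2r hcen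
  have hxl := h3 r hcen
  set x : ℝ := (n.choose r : ℝ) / n with hx
  have hm0 : (0 : ℝ) ≤ ((Mats n r).card : ℝ) := Nat.cast_nonneg _
  calc ∑ s ∈ (Finset.univ : Finset (Equiv.Perm (Fin n))).erase 1,
        ((Pool.Agent.H97.VZ.Fix n r s).card : ℝ)
      ≤ ∑ _s ∈ (Finset.univ : Finset (Equiv.Perm (Fin n))).erase 1,
        Real.exp (-(c * x)) * ((Mats n r).card : ℝ) := by
        refine Finset.sum_le_sum fun s hs => ?_
        have := h1 r h2r hcen s (Finset.ne_of_mem_erase hs)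
        refine le_trans (le_of_eq ?_) this
        rw [Pool.Agent.H97.VZ.Fix]
        congr 2
    _ = (((Finset.univ : Finset (Equiv.Perm (Fin n))).erase 1).card : ℝ) *
        (Real.exp (-(c * x)) * ((Mats n r).card : ℝ)) := by
        rw [Finset.sum_const, nsmul_eq_mul]
    _ ≤ (n.factorial : ℝ) * (Real.exp (-(c * (n : ℝ) ^ 3)) * ((Mats n r).card : ℝ)) := by
        have e1 : ((Finset.univ : Finset (Equiv.Perm (Fin n))).erase 1).card ≤ n.factorial := by
          refine (Finset.card_le_card (Finset.erase_subset _ _)).trans ?_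
          rw [Finset.card_univ, Fintype.card_perm, Fintype.card_fin]
        have e2 : Real.exp (-(c * x)) ≤ Real.exp (-(c * (n : ℝ) ^ 3)) := by
          apply Real.exp_le_exp.mpr
          have := mul_le_mul_of_nonneg_left hxl hc.le
          linarith
        refine mul_le_mul (by exact_mod_cast e1) (mul_le_mul_of_nonneg_right e2 hm0) ?_
          (by positivity)
        exact mul_nonneg (Real.exp_pos _).le hm0
    _ = (n.factorial : ℝ) * Real.exp (-(c * (n : ℝ) ^ 3)) * ((Mats n r).card : ℝ) := by ring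
    _ ≤ ε * ((Mats n r).card : ℝ) := mul_le_mul_of_nonneg_right h2 hm0

end Pool.Agent.H95.FD
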