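import Pool.Agent.H95.FD.Grp

/-! MODULE Cat1 (about 90 lines). Matroids with a given code and with a given coloop (loop) are few.

PROOF of `cat_coloop`. Let `S` be the filtered family; if it is empty the claim is trivial; otherwise fix `B` in `S`. Let
`KK = S.image (NB r)` (`NB r` is injective on matroids: `NB_inj`, so `KK.card = S.card`, `Finset.card_image_of_injOn`). `sys_cls` gives
`Sys ... (NB r B')` for all `B'` in `S`, always with the data of `B` (unfold `SysB`). `card_le_stab` (module Inj) with `X0` = sets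
containing `z`: a member of `NB r B' ∩ fre` or of `NB r B' ∩ und` is in `A (NB r B)` (`mem_fre`; `und_sub_A`), so it contains `z` by
`coloop_mem` applied to `B` (`ctx_of`; `B` is in `S`, so `z` is in all bases of `B`). `cat_loop` is the same with `loop_notMem`. -/

namespace Pool.Agent.H95.FD

open Pool.Agent.H28.Johnson Pool.Agent.H13.VM

open Classical in
private theorem Cat1_aux {n r d q θ j : ℕ} {F A : Fam n → Fam n} (c : Fam n × Fam n × Finset (Inf n))
    (hF : IsRun n r d q θ F A) (h1 : d + j ≤ r) (h2 : d + j + r ≤ n) (P : Fam n → Prop)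
    (Q : Finset (Fin n) → Prop) [DecidablePred P] [DecidablePred Q]
    (hPQ : ∀ B : Fam n, P B → ∀ A' : Fam n, Ctx r d j B A' → ∀ X ∈ A', ∀ (Kn : Fam n)
      (T : Finset (Fam n)), (X ∈ fre r Kn A' (decA r A' Kn (sml r j B) (lrg r j B)) T ∨
      X ∈ und (decA r A' Kn (sml r j B) (lrg r j B)) T) → Q X) :
    ((cls n r j F c).filter P).card ≤
      (stabs r (Base n r ∩ Finset.univ.filter Q)).card := by
  rcases Finset.eq_empty_or_nonempty ((cls n r j F c).filter P) with h0 | ⟨B, hB⟩
  · rw [h0, Finset.card_empty]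
    exact Nat.zero_le _
  · obtain ⟨hBc, hBP⟩ := Finset.mem_filter.mp hB
    have hM : ∀ B' ∈ cls n r j F c, IsMat n r B' := fun B' hB' => (mem_cls.mp hB').1
    have hctx := ctx_of (j := j) hF h1 h2 (hM B hBc)
    have hinj : Set.InjOn (NB r) (((cls n r j F c).filter P : Finset (Fam n)) : Set (Fam n)) := by
      intro X hX Y hY hXY
      exact NB_inj (hM X (Finset.mem_filter.mp (Finset.mem_coe.mp hX)).1)
        (hM Y (Finset.mem_filter.mp (Finset.mem_coe.mp hY)).1) hXY
    rw [← Finset.card_image_of_injOn hinj]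
    have hsys : ∀ K ∈ ((cls n r j F c).filter P).image (NB r),
        Sys r (NB r B \ A (NB r B)) (A (NB r B))
          (decA r (A (NB r B)) (NB r B \ A (NB r B)) (sml r j B) (lrg r j B))
          (ties r (A (NB r B)) (NB r B \ A (NB r B)) (sml r j B) (lrg r j B)) K := by
      intro K hK
      obtain ⟨B', hB', rfl⟩ := Finset.mem_image.mp hK
      exact sys_cls hF h1 h2 hBc (Finset.mem_filter.mp hB').1
    refine card_le_stab hsys _ ?_
    intro K hK
    constructor
    · intro X hX
      obtain ⟨-, hX⟩ := Finset.mem_inter.mp hX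
      refine Finset.mem_filter.mpr ⟨Finset.mem_univ _, ?_⟩
      exact hPQ B hBP _ hctx X (mem_fre.mp hX).1 _ _ (Or.inl hX)
    · intro X hX
      obtain ⟨-, hX⟩ := Finset.mem_inter.mp hX
      refine Finset.mem_filter.mpr ⟨Finset.mem_univ _, ?_⟩
      exact hPQ B hBP _ hctx X (und_sub_A (hsys K hK) hX) _ _ (Or.inr hX)

open Classical in
theorem cat_coloop {n r d q θ j : ℕ} {F A : Fam n → Fam n} (c : Fam n × Fam n × Finset (Inf n))
    (hF : IsRun n r d q θ F A) (h1 : d + j ≤ r) (h2 : d + j + r ≤ n) (hd : 1 ≤ d) (z : Fin n) :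
    ((cls n r j F c).filter fun B => ∀ Y ∈ B, z ∈ Y).card ≤
      (stabs r (Base n r ∩ Finset.univ.filter fun X => z ∈ X)).card := by
  refine Cat1_aux c hF h1 h2 (fun B => ∀ Y ∈ B, z ∈ Y) (fun X => z ∈ X) ?_
  intro B hB A' hctx X hXA Kn T hX
  exact coloop_mem hctx hd hB hXA hX

open Classical in
theorem cat_loop {n r d q θ j : ℕ} {F A : Fam n → Fam n} (c : Fam n × Fam n × Finset (Inf n))
    (hF : IsRun n r d q θ F A) (h1 : d + j ≤ r) (h2 : d + j + r ≤ n) (hd : 1 ≤ d) (z : Fin n) :
    ((cls n r j F c).filter fun B => ∀ Y ∈ B, z ∉ Y).card ≤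
      (stabs r (Base n r ∩ Finset.univ.filter fun X => z ∉ X)).card := by
  refine Cat1_aux c hF h1 h2 (fun B => ∀ Y ∈ B, z ∉ Y) (fun X => z ∉ X) ?_
  intro B hB A' hctx X hXA Kn T hX
  exact loop_notMem hctx hd hB hXA hX

end Pool.Agent.H95.FD
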