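import Pool.Agent.H95.FD.Grp

/-! MODULE Cat2 (about 80 lines). Matroids with a given code, without loops and coloops, with many undecided classes contained in the
nonbases, are few.

PROOF. Let `S` be the filtered family; if it is empty the claim is trivial; otherwise fix `B` in `S`. Let `KK = S.image (NB r)`
(`NB_inj`). `sys_cls`: `Sys ... (NB r B')` for all `B'` in `S` with the data of `B`. All ties (of `B`) have at least two elements:
`tie_size` (module SysOf, `ctx_of`) with `g = 2`: a dependent set is nonempty because `B` is nonempty (the empty set is contained in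
a base) and is not a singleton `{z}` (`hz` in the filter: `z` is in some base); a codependent set is nonempty and is not a singleton
(`z` is outside some base). `pow_le_stab` (module Pow): the sum over `KK` of `2^(number of classes)` is at most
`(stabs r (Base n r)).card`, and by `nclB_eq` each summand is at least `2^q'`. -/

namespace Pool.Agent.H95.FD

open Pool.Agent.H28.Johnson Pool.Agent.H13.VM

open Classical in
theorem cat_many {n r d q θ j : ℕ} {F A : Fam n → Fam n} (c : Fam n × Fam n × Finset (Inf n))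
    (hF : IsRun n r d q θ F A) (h1 : d + j ≤ r) (h2 : d + j + r ≤ n) (q' : ℕ) :
    ((cls n r j F c).filter fun B => (∀ z : Fin n, (∃ Y ∈ B, z ∈ Y) ∧ ∃ Y ∈ B, z ∉ Y) ∧
      q' ≤ (nclB r j A B).card).card * 2 ^ q' ≤ (stabs r (Base n r)).card := by
  set S := (cls n r j F c).filter fun B => (∀ z : Fin n, (∃ Y ∈ B, z ∈ Y) ∧ ∃ Y ∈ B, z ∉ Y) ∧
      q' ≤ (nclB r j A B).card with hS
  rcases S.eq_empty_or_nonempty with hE | ⟨B, hBS⟩
  · rw [hE, Finset.card_empty, Nat.zero_mul]
    exact Nat.zero_le _
  have hB := Finset.mem_filter.mp hBS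
  have hBm : IsMat n r B := (mem_cls.mp hB.1).1
  obtain ⟨Y0, hY0⟩ := hBm.2.1
  have hctx : Ctx r d j B (A (NB r B)) := ctx_of hF h1 h2 hBm
  have hT : ∀ τ ∈ ties r (A (NB r B)) (NB r B \ A (NB r B)) (sml r j B) (lrg r j B),
      2 ≤ τ.card := by
    refine tie_size hctx (g := 2) ?_ ?_
    · intro S' hS'
      by_contra hlt
      have h3 : S'.card ≤ 1 := by omega
      rcases S'.eq_empty_or_nonempty with hE | ⟨z, hz⟩
      · exact hS' Y0 hY0 (hE ▸ Finset.empty_subset _)
      obtain ⟨Y, hY, hzY⟩ := (hB.2.1 z).1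
      refine hS' Y hY fun a ha => ?_
      rw [Finset.card_le_one.mp h3 a ha z hz]
      exact hzY
    · intro S' hS'
      by_contra hlt
      have h3 : S'.card ≤ 1 := by omega
      rcases S'.eq_empty_or_nonempty with hE | ⟨z, hz⟩
      · exact hS' Y0 hY0 (hE ▸ Finset.disjoint_empty_left _)
      obtain ⟨Y, hY, hzY⟩ := (hB.2.1 z).2
      refine hS' Y hY ?_
      rw [Finset.disjoint_left]
      intro a ha
      rw [Finset.card_le_one.mp h3 a ha z hz]
      exact hzY
  have hsys : ∀ K ∈ S.image (NB r), Sys r (NB r B \ A (NB r B)) (A (NB r B))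
      (decA r (A (NB r B)) (NB r B \ A (NB r B)) (sml r j B) (lrg r j B))
      (ties r (A (NB r B)) (NB r B \ A (NB r B)) (sml r j B) (lrg r j B)) K := by
    intro K hK
    obtain ⟨B', hB', rfl⟩ := Finset.mem_image.mp hK
    exact sys_cls hF h1 h2 hB.1 (Finset.mem_filter.mp hB').1
  have hmain := pow_le_stab hsys hT
  have hcard : (S.image (NB r)).card = S.card := by
    refine Finset.card_image_of_injOn ?_
    intro B1 hB1 B2 hB2 he
    exact NB_inj (mem_cls.mp (Finset.mem_filter.mp (Finset.mem_coe.mp hB1)).1).1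
      (mem_cls.mp (Finset.mem_filter.mp (Finset.mem_coe.mp hB2)).1).1 he
  refine le_trans ?_ hmain
  rw [← hcard, ← smul_eq_mul]
  refine Finset.card_nsmul_le_sum _ _ _ ?_
  intro K hK
  obtain ⟨B', hB', rfl⟩ := Finset.mem_image.mp hK
  have h5 := Finset.mem_filter.mp hB'
  refine Nat.pow_le_pow_right (by norm_num) ?_
  rw [← nclB_eq hF hB.1 h5.1]
  exact h5.2.2

end Pool.Agent.H95.FD
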