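import Pool.Agent.H95.FD.Grp

/-! MODULE Cat3 (about 70 lines). Matroids with a given code, few undecided classes contained in the nonbases, and many nonbases
outside the final set, are few.

PROOF. Let `S` be the filtered family; if it is empty the claim is trivial; otherwise fix `B` in `S`. Let `KK = S.image (NB r)`
(`NB_inj`). `sys_cls`: `Sys ... (NB r B')` for all `B'` in `S` with the data of `B`. `gain` (module Gain) with `Kn = NB r B \ A (NB r B)`:
all `K` in `KK` have at most `q'` classes (`nclB_eq`), so the filter in `gain` is the whole `KK`. `x <= Kn.card`,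
`2^(x/n) <= 2^(Kn.card/n)` (`Real.rpow_le_rpow_of_exponent_le`, `div_le_div_of_nonneg_right`), and
`(A (NB r B)).card <= th` (`IsRun.cardA`, `NB_subset`), so the sum of binomial coefficients is at most the one with `th`
(`Nat.choose_le_choose`). -/

open scoped BigOperators

namespace Pool.Agent.H95.FD

open Pool.Agent.H28.Johnson Pool.Agent.H13.VM

open Classical in
theorem cat_known {n r d q θ j : ℕ} (hn : 1 ≤ n) {F A : Fam n → Fam n}
    (c : Fam n × Fam n × Finset (Inf n))
    (hF : IsRun n r d q θ F A) (h1 : d + j ≤ r) (h2 : d + j + r ≤ n) (q' : ℕ) (x : ℝ) :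
    (((cls n r j F c).filter fun B => (nclB r j A B).card ≤ q' ∧
      x ≤ ((NB r B \ A (NB r B)).card : ℝ)).card : ℝ) * (2 : ℝ) ^ (x / n) ≤
    ((∑ i ∈ Finset.range (q' + 1), θ.choose i : ℕ) : ℝ) * ((stabs r (Base n r)).card : ℝ) := by
  set S := (cls n r j F c).filter fun B => (nclB r j A B).card ≤ q' ∧
      x ≤ ((NB r B \ A (NB r B)).card : ℝ) with hS
  rcases S.eq_empty_or_nonempty with h0 | ⟨B, hB⟩
  · rw [h0, Finset.card_empty, Nat.cast_zero, zero_mul]
    positivity
  obtain ⟨hBc, hBq, hBx⟩ := Finset.mem_filter.mp hB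
  have hM : ∀ B' ∈ cls n r j F c, IsMat n r B' := fun B' hB' => (mem_cls.mp hB').1
  have hinj : Set.InjOn (NB r) ((S : Finset (Fam n)) : Set (Fam n)) := by
    intro X hX Y hY hXY
    exact NB_inj (hM X (Finset.mem_filter.mp (Finset.mem_coe.mp hX)).1)
      (hM Y (Finset.mem_filter.mp (Finset.mem_coe.mp hY)).1) hXY
  have hcard : S.card = (S.image (NB r)).card := (Finset.card_image_of_injOn hinj).symm
  have hsys : ∀ K ∈ S.image (NB r),
      Sys r (NB r B \ A (NB r B)) (A (NB r B))
        (decA r (A (NB r B)) (NB r B \ A (NB r B)) (sml r j B) (lrg r j B))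
        (ties r (A (NB r B)) (NB r B \ A (NB r B)) (sml r j B) (lrg r j B)) K := by
    intro K hK
    obtain ⟨B', hB', rfl⟩ := Finset.mem_image.mp hK
    exact sys_cls hF h1 h2 hBc (Finset.mem_filter.mp hB').1
  have hg := gain hn hsys q'
  have hfil : ((S.image (NB r)).filter fun K =>
      (ncl (decA r (A (NB r B)) (NB r B \ A (NB r B)) (sml r j B) (lrg r j B))
        (ties r (A (NB r B)) (NB r B \ A (NB r B)) (sml r j B) (lrg r j B)) K).card ≤ q') =
      S.image (NB r) := by
    refine Finset.filter_true_of_mem ?_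
    intro K hK
    obtain ⟨B', hB', rfl⟩ := Finset.mem_image.mp hK
    obtain ⟨hB'c, hB'q, -⟩ := Finset.mem_filter.mp hB'
    rw [← nclB_eq hF hBc hB'c]
    exact hB'q
  rw [hfil, ← hcard] at hg
  have hpow : (2 : ℝ) ^ (x / n) ≤ (2 : ℝ) ^ (((NB r B \ A (NB r B)).card : ℝ) / n) := by
    refine Real.rpow_le_rpow_of_exponent_le (by norm_num) ?_
    exact div_le_div_of_nonneg_right hBx (Nat.cast_nonneg n)
  have hsum : ((∑ i ∈ Finset.range (q' + 1), (A (NB r B)).card.choose i : ℕ) : ℝ) ≤
      ((∑ i ∈ Finset.range (q' + 1), θ.choose i : ℕ) : ℝ) := by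
    exact_mod_cast Finset.sum_le_sum fun i _ =>
      Nat.choose_le_choose i (hF.cardA _ (NB_subset r B))
  calc (S.card : ℝ) * (2 : ℝ) ^ (x / n)
      ≤ (S.card : ℝ) * (2 : ℝ) ^ (((NB r B \ A (NB r B)).card : ℝ) / n) :=
        mul_le_mul_of_nonneg_left hpow (Nat.cast_nonneg _)
    _ ≤ ((∑ i ∈ Finset.range (q' + 1), (A (NB r B)).card.choose i : ℕ) : ℝ) *
        ((stabs r (Base n r)).card : ℝ) := hg
    _ ≤ _ := mul_le_mul_of_nonneg_right hsum (Nat.cast_nonneg _)

end Pool.Agent.H95.FD
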