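import Pool.Agent.H95.FD.Grp

/-! # Fixed matroids with a given code (module Cat4, proved by helper96)

Matroids with a given code, with large dependent and codependent sets, fixed by the permutation `s`,
are few.

PROOF. Let `S` be the filtered family; if it is empty the claim is trivial; otherwise fix `B` in `S`. The map
`B' -> (NB r B' \ isoK r (NB r B'), isoK r (NB r B'))` is injective on `S` (the union of the two components is `NB r B'`, as
`isoK r K` is a subset of `K`; then `NB_inj`). The second component is in `inv r s` (`isoK_mem_inv`, module IsoInv). The first one is in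
`KK.image (fun K => K \ isoK r K)`, `KK = S.image (NB r)`, which has at most `2^((A (NB r B)).card / g)` elements by `card_niso_le`
(module WP; `sys_cls` gives the systems with the data of `B`; the ties of `B` have at least `g` elements by `tie_size`, module SysOf,
with `ctx_of`), and `(A (NB r B)).card <= th` (`IsRun.cardA`), so at most `2^(th / g)` (`Nat.div_le_div_right`,
`Nat.pow_le_pow_right`). Conclude with `Finset.card_le_card_of_injOn` into the product. -/

namespace Pool.Agent.H95.FD

open Pool.Agent.H28.Johnson Pool.Agent.H13.VM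

open Classical in
theorem cat_sym {n r d q θ j : ℕ} {F A : Fam n → Fam n} (c : Fam n × Fam n × Finset (Inf n))
    (hF : IsRun n r d q θ F A) (h1 : d + j ≤ r) (h2 : d + j + r ≤ n) {g : ℕ} (hg : 1 ≤ g)
    (s : Equiv.Perm (Fin n)) :
    ((cls n r j F c).filter fun B => (B.image fun X => X.image s) = B ∧
      (∀ S : Finset (Fin n), Dep B S → g ≤ S.card) ∧
      ∀ S : Finset (Fin n), Codep B S → g ≤ S.card).card ≤
    2 ^ (θ / g) * (Pool.Agent.H8.VM.inv r s).card := by
  set S := (cls n r j F c).filter fun B => (B.image fun X => X.image s) = B ∧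
      (∀ S : Finset (Fin n), Dep B S → g ≤ S.card) ∧
      ∀ S : Finset (Fin n), Codep B S → g ≤ S.card with hS
  rcases S.eq_empty_or_nonempty with he | ⟨B, hB⟩
  · rw [he, Finset.card_empty]
    exact Nat.zero_le _
  have hmem : ∀ B' ∈ S, B' ∈ cls n r j F c ∧ (B'.image fun X => X.image s) = B' := by
    intro B' hB'
    rw [hS, Finset.mem_filter] at hB'
    exact ⟨hB'.1, hB'.2.1⟩
  have hB' := hB
  rw [hS, Finset.mem_filter] at hB'
  obtain ⟨hBc, -, hd, hcd⟩ := hB'
  have hctx := ctx_of hF h1 h2 (mem_cls.mp hBc).1
  have hties := tie_size hctx hd hcd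
  have hniso : ((S.image (NB r)).image fun K => K \ isoK r K).card ≤
      2 ^ ((A (NB r B)).card / g) := by
    refine card_niso_le (Kn := NB r B \ A (NB r B)) (A := A (NB r B))
      (Dc := decA r (A (NB r B)) (NB r B \ A (NB r B)) (sml r j B) (lrg r j B))
      (T := ties r (A (NB r B)) (NB r B \ A (NB r B)) (sml r j B) (lrg r j B)) ?_ hg hties
    intro K hK
    rw [Finset.mem_image] at hK
    obtain ⟨B', hB', rfl⟩ := hK
    exact sys_cls hF h1 h2 hBc (hmem B' hB').1
  have hpow : 2 ^ ((A (NB r B)).card / g) ≤ 2 ^ (θ / g) :=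
    Nat.pow_le_pow_right (by norm_num) (Nat.div_le_div_right (hF.cardA _ (NB_subset r B)))
  have hinj : S.card ≤ (((S.image (NB r)).image fun K => K \ isoK r K) ×ˢ
      (Pool.Agent.H8.VM.inv r s)).card := by
    refine Finset.card_le_card_of_injOn
      (fun B' => (NB r B' \ isoK r (NB r B'), isoK r (NB r B'))) ?_ ?_
    · intro B' hB'
      rw [Finset.mem_coe] at hB' ⊢
      rw [Finset.mem_product]
      refine ⟨?_, isoK_mem_inv s (hmem B' hB').2⟩
      rw [Finset.mem_image]
      exact ⟨NB r B', Finset.mem_image_of_mem _ hB', rfl⟩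
    · intro B1 hB1 B2 hB2 heq
      have hK : NB r B1 = NB r B2 := by
        have e1 := congrArg Prod.fst heq
        have e2 := congrArg Prod.snd heq
        simp only at e1 e2
        have hsub : ∀ B' : Fam n, (NB r B' \ isoK r (NB r B')) ∪ isoK r (NB r B') = NB r B' := by
          intro B'
          exact Finset.sdiff_union_of_subset (Finset.filter_subset _ _)
        rw [← hsub B1, ← hsub B2, e1, e2]
      exact NB_inj (mem_cls.mp (hmem B1 hB1).1).1 (mem_cls.mp (hmem B2 hB2).1).1 hK
  rw [Finset.card_product] at hinj
  exact hinj.trans (Nat.mul_le_mul_right _ (hniso.trans hpow))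

end Pool.Agent.H95.FD
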