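import Pool.Agent.H95.FD.Defs

/-! MODULE Cls (about 190 lines). Elementary facts on the abstract systems `Sys r Kn A Dc T K` (see Defs).

PROOFS. `tied_mem`: induction on `Relation.EqvGen`: for `v`, `w` in one tie use `Sys.tieK`.
`tied_allT`: the same induction (members of one tie are in `allT`).
`dcs_sub`: members of `Dc` are in `K` and `A` (`dcK`, `dcA`); a member of `allT` tied to a member of `Dc` is in `K` by `tied_mem`; members
of `allT` are in `A` (`Sys.tie`).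
`und_sub_A`: members of `allT` are in `A`. `und_closed`: `tied_allT` and transitivity of `Tied` (`Relation.EqvGen.trans`, `symm`).
`rp_tied`: `Quotient.out_eq`, `Quotient.exact` (`Quotient.mk_out`) for the setoid `Relation.EqvGen.setoid`. `rp_eq_iff`: equal
representatives iff tied.
`kn_sub`: `Kn = K \ A`.
`cases_K`: let `v` be in `K`. Not in `A`: in `Kn`. In `Dc`: in `dcs`. In `allT`: in `dcs` or `und`. Otherwise `nb1` says that no `u` in `K` is
adjacent to `v`, in particular none in `Kn`, so `v` is in `fre`.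
`fre_iso`: `nb1` (a member of `fre` is not in `Dc` and not in any tie).
`und_adj`: `v`, `u` in `K` and in `und`, adjacent: not in `Dc` (a member of `Dc` is tied to itself, `Relation.EqvGen.refl`), so `nb2`
gives a tie containing both (both are in `A`).
`und_adj_kn`: a member of `und` is in a tie, use `Sys.tie`.
`fre_und_disj`: members of `und` are in `allT`, members of `fre` are not. `fre_not_adj_kn`: by definition of `fre`.
`und_eq_of_ncl`: if `v` is in `K` and `und`, then `rp T v` is in `ncl Dc T K = ncl Dc T K'`, so there is `w` in `K'` and in `und` with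
`rp T w = rp T v`, so `w`, `v` are tied, so `v` is in `K'` (`tied_mem` for `K'`). By symmetry equality.
`eq_of_parts`: `cases_K` for both (members of `Kn` and `dcs` are in both).
`niso_eq_of_ncl`: let `v` be in `K`, not in `isoK r K`, so `v` has a neighbour `u` in `K`. By `fre_iso` neither `v` nor `u` is in `fre`. So each
of `u`, `v` is in `Kn`, in `dcs` or in `und`, so in `K'` (`und_eq_of_ncl`). So `v` is in `K'` and not isolated in `K'`. By symmetry
equality. -/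

namespace Pool.Agent.H95.FD

open Pool.Agent.H28.Johnson Pool.Agent.H13.VM

variable {n r : ℕ} {Kn A Dc K K' : Fam n} {T : Finset (Fam n)} {v w u : Finset (Fin n)}

theorem tied_mem (h : Sys r Kn A Dc T K) (ht : Tied T v w) : v ∈ K ↔ w ∈ K := by
  induction ht with
  | rel a b hab =>
    obtain ⟨τ, hτ, ha, hb⟩ := hab
    rcases h.tieK τ hτ with h1 | h1
    · exact ⟨fun _ => h1 b hb, fun _ => h1 a ha⟩
    · exact ⟨fun h2 => absurd h2 (h1 a ha), fun h2 => absurd h2 (h1 b hb)⟩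
  | refl a => exact Iff.rfl
  | symm a b _ ih => exact ih.symm
  | trans a b c _ _ ih1 ih2 => exact ih1.trans ih2

theorem tied_allT (ht : Tied T v w) : v ∈ allT T ↔ w ∈ allT T := by
  induction ht with
  | rel a b hab =>
    obtain ⟨τ, hτ, ha, hb⟩ := hab
    exact ⟨fun _ => mem_allT.mpr ⟨τ, hτ, hb⟩, fun _ => mem_allT.mpr ⟨τ, hτ, ha⟩⟩
  | refl a => exact Iff.rfl
  | symm a b _ ih => exact ih.symm
  | trans a b c _ _ ih1 ih2 => exact ih1.trans ih2

private theorem Cls_allT_A (h : Sys r Kn A Dc T K) (hv : v ∈ allT T) : v ∈ A := by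
  obtain ⟨τ, hτ, hv⟩ := mem_allT.mp hv
  exact (h.tie τ hτ).1 hv

theorem dcs_sub (h : Sys r Kn A Dc T K) : dcs Dc T ⊆ K ∧ dcs Dc T ⊆ A := by
  constructor
  · intro v hv
    rcases mem_dcs.mp hv with h1 | ⟨_, w, hw, ht⟩
    · exact h.dcK h1
    · exact (tied_mem h ht).mpr (h.dcK hw)
  · intro v hv
    rcases mem_dcs.mp hv with h1 | ⟨h1, _⟩
    · exact h.dcA h1
    · exact Cls_allT_A h h1

theorem und_sub_A (h : Sys r Kn A Dc T K) : und Dc T ⊆ A :=
  fun _ hv => Cls_allT_A h (mem_und.mp hv).1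

theorem und_closed (hv : v ∈ und Dc T) (ht : Tied T v w) : w ∈ und Dc T := by
  rw [mem_und] at hv ⊢
  refine ⟨(tied_allT ht).mp hv.1, ?_⟩
  rintro ⟨x, hx, hwx⟩
  exact hv.2 ⟨x, hx, Relation.EqvGen.trans _ _ _ ht hwx⟩

theorem rp_tied (T : Finset (Fam n)) (v : Finset (Fin n)) : Tied T v (rp T v) :=
  Relation.EqvGen.symm _ _ (Quotient.mk_out
    (s := Relation.EqvGen.setoid fun v w => ∃ τ ∈ T, v ∈ τ ∧ w ∈ τ) v)

theorem rp_eq_iff : rp T v = rp T w ↔ Tied T v w := by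
  constructor
  · intro h
    have h1 := rp_tied T v
    rw [h] at h1
    exact Relation.EqvGen.trans _ _ _ h1 (Relation.EqvGen.symm _ _ (rp_tied T w))
  · intro h
    exact congrArg Quotient.out (Quotient.sound
      (s := Relation.EqvGen.setoid fun v w => ∃ τ ∈ T, v ∈ τ ∧ w ∈ τ) h)

theorem rp_rp : rp T (rp T v) = rp T v :=
  rp_eq_iff.mpr (Relation.EqvGen.symm _ _ (rp_tied T v))

theorem kn_sub (h : Sys r Kn A Dc T K) : Kn ⊆ K ∧ Disjoint Kn A := by
  rw [← h.kn]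
  exact ⟨Finset.sdiff_subset, Finset.sdiff_disjoint⟩

theorem cases_K (h : Sys r Kn A Dc T K) (hv : v ∈ K) :
    v ∈ Kn ∨ v ∈ dcs Dc T ∨ v ∈ fre r Kn A Dc T ∨ v ∈ und Dc T := by
  by_cases hA : v ∈ A
  · by_cases hD : v ∈ Dc
    · exact Or.inr (Or.inl (mem_dcs.mpr (Or.inl hD)))
    · by_cases hT : v ∈ allT T
      · by_cases hE : ∃ w ∈ Dc, Tied T v w
        · exact Or.inr (Or.inl (mem_dcs.mpr (Or.inr ⟨hT, hE⟩)))
        · exact Or.inr (Or.inr (Or.inr (mem_und.mpr ⟨hT, hE⟩)))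
      · refine Or.inr (Or.inr (Or.inl (mem_fre.mpr ⟨hA, hD, hT, ?_⟩)))
        intro u hu ha
        rcases h.nb1 v hv hA u ((kn_sub h).1 hu) ha with h1 | ⟨τ, hτ, h1⟩
        · exact hD h1
        · exact hT (mem_allT.mpr ⟨τ, hτ, h1⟩)
  · left
    rw [← h.kn]
    exact Finset.mem_sdiff.mpr ⟨hv, hA⟩

theorem fre_iso (h : Sys r Kn A Dc T K) (hv : v ∈ K) (hf : v ∈ fre r Kn A Dc T) (hu : u ∈ K) :
    ¬ adj r v u := by
  intro ha
  rw [mem_fre] at hf
  rcases h.nb1 v hv hf.1 u hu ha with h1 | ⟨τ, hτ, h1⟩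
  · exact hf.2.1 h1
  · exact hf.2.2.1 (mem_allT.mpr ⟨τ, hτ, h1⟩)

private theorem Cls_und_dc (hv : v ∈ und Dc T) : v ∉ Dc :=
  fun h => (mem_und.mp hv).2 ⟨v, h, Relation.EqvGen.refl v⟩

theorem und_adj (h : Sys r Kn A Dc T K) (hv : v ∈ K) (hv' : v ∈ und Dc T) (hu : u ∈ K)
    (hu' : u ∈ und Dc T) (ha : adj r v u) : Tied T v u := by
  rcases h.nb2 v hv (und_sub_A h hv') u hu (und_sub_A h hu') ha with h1 | h1 | ⟨τ, hτ, h1, h2⟩
  · exact absurd h1 (Cls_und_dc hv')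
  · exact absurd h1 (Cls_und_dc hu')
  · exact Relation.EqvGen.rel _ _ ⟨τ, hτ, h1, h2⟩

theorem und_adj_kn (h : Sys r Kn A Dc T K) (hv' : v ∈ und Dc T) : ∃ u ∈ Kn, adj r v u := by
  obtain ⟨τ, hτ, hv⟩ := mem_allT.mp (mem_und.mp hv').1
  exact (h.tie τ hτ).2.2 v hv

theorem fre_und_disj : Disjoint (fre r Kn A Dc T) (und Dc T) := by
  rw [Finset.disjoint_left]
  intro v h1 h2
  exact (mem_fre.mp h1).2.2.1 (mem_und.mp h2).1

theorem fre_not_adj_kn (hf : v ∈ fre r Kn A Dc T) (hu : u ∈ Kn) : ¬ adj r v u :=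
  (mem_fre.mp hf).2.2.2 u hu

private theorem Cls_und_sub (h' : Sys r Kn A Dc T K')
    (hn : ncl Dc T K = ncl Dc T K') (hv : v ∈ K) (hv' : v ∈ und Dc T) : v ∈ K' := by
  have h1 : rp T v ∈ ncl Dc T K := mem_ncl.mpr ⟨v, ⟨hv, hv'⟩, rfl⟩
  rw [hn] at h1
  obtain ⟨w, ⟨hw, _⟩, he⟩ := mem_ncl.mp h1
  exact (tied_mem h' (rp_eq_iff.mp he)).mp hw

theorem und_eq_of_ncl (h : Sys r Kn A Dc T K) (h' : Sys r Kn A Dc T K')
    (hn : ncl Dc T K = ncl Dc T K') : K ∩ und Dc T = K' ∩ und Dc T := by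
  ext v
  rw [Finset.mem_inter, Finset.mem_inter]
  exact ⟨fun h1 => ⟨Cls_und_sub h' hn h1.1 h1.2, h1.2⟩,
    fun h1 => ⟨Cls_und_sub h hn.symm h1.1 h1.2, h1.2⟩⟩

private theorem Cls_eq_sub (h : Sys r Kn A Dc T K) (h' : Sys r Kn A Dc T K')
    (hf : K ∩ fre r Kn A Dc T = K' ∩ fre r Kn A Dc T) (hn : ncl Dc T K = ncl Dc T K') : K ⊆ K' := by
  intro v hv
  rcases cases_K h hv with h1 | h1 | h1 | h1
  · exact (kn_sub h').1 h1
  · exact (dcs_sub h').1 h1
  · have h2 : v ∈ K ∩ fre r Kn A Dc T := Finset.mem_inter.mpr ⟨hv, h1⟩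
    rw [hf] at h2
    exact (Finset.mem_inter.mp h2).1
  · exact Cls_und_sub h' hn hv h1

theorem eq_of_parts (h : Sys r Kn A Dc T K) (h' : Sys r Kn A Dc T K')
    (hf : K ∩ fre r Kn A Dc T = K' ∩ fre r Kn A Dc T) (hn : ncl Dc T K = ncl Dc T K') : K = K' :=
  Finset.Subset.antisymm (Cls_eq_sub h h' hf hn) (Cls_eq_sub h' h hf.symm hn.symm)

private theorem Cls_nf (h : Sys r Kn A Dc T K) (h' : Sys r Kn A Dc T K')
    (hn : ncl Dc T K = ncl Dc T K') (hv : v ∈ K) (hf : v ∉ fre r Kn A Dc T) : v ∈ K' := by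
  rcases cases_K h hv with h1 | h1 | h1 | h1
  · exact (kn_sub h').1 h1
  · exact (dcs_sub h').1 h1
  · exact absurd h1 hf
  · exact Cls_und_sub h' hn hv h1

private theorem Cls_niso (h : Sys r Kn A Dc T K) (h' : Sys r Kn A Dc T K')
    (hn : ncl Dc T K = ncl Dc T K') : K \ isoK r K ⊆ K' \ isoK r K' := by
  intro v hv
  rw [Finset.mem_sdiff, mem_isoK] at hv
  obtain ⟨hv, h1⟩ := hv
  obtain ⟨u, hu, ha⟩ : ∃ u ∈ K, adj r v u := by
    by_contra hc
    push Not at hc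
    exact h1 ⟨hv, hc⟩
  have hv' : v ∈ K' := Cls_nf h h' hn hv (fun hf => fre_iso h hv hf hu ha)
  have hu' : u ∈ K' := Cls_nf h h' hn hu (fun hf => fre_iso h hu hf hv (adj_symm ha))
  rw [Finset.mem_sdiff, mem_isoK]
  exact ⟨hv', fun h2 => h2.2 u hu' ha⟩

theorem niso_eq_of_ncl (h : Sys r Kn A Dc T K) (h' : Sys r Kn A Dc T K')
    (hn : ncl Dc T K = ncl Dc T K') : K \ isoK r K = K' \ isoK r K' :=
  Finset.Subset.antisymm (Cls_niso h h' hn) (Cls_niso h' h hn.symm)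

theorem ncl_sub (h : Sys r Kn A Dc T K) : ncl Dc T K ⊆ K ∩ und Dc T := by
  intro v hv
  obtain ⟨w, ⟨hw, hw'⟩, rfl⟩ := mem_ncl.mp hv
  exact Finset.mem_inter.mpr ⟨(tied_mem h (rp_tied T w)).mp hw, und_closed hw' (rp_tied T w)⟩

end Pool.Agent.H95.FD
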