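import Pool.Agent.H95.FD.Defs

/-! MODULE Girth (about 120 lines). If there are few nonbases, all dependent and all codependent sets are large.

PROOF. Let `S` be dependent with `k = S.card < g`. All `r`-sets containing `S` are nonbases, their number is `C(n-k, r-k)` (map `X` to
`X \ S`, or `Finset.card_powersetCard` of the complement: the injective map `Y -> S ∪ Y` from the `(r-k)`-subsets of the complement of `S`
into `NB r B`). Numbers: for `k <= r`, `5 (r - i) >= 2 (n - i)` for all `i < g` (as `2 n + 3 g <= 5 r`), and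
`C(n-i, r-i) (r-i) = (n-i) C(n-i-1, r-i-1)` (`Nat.add_one_mul_choose_eq`), so `C(n-k, r-k) >= (2/5)^k C(n,r)` (induction on `k`), so
`(2/5)^g C(n,r) < (2/5)^k C(n,r) <= (NB r B).card`, contradiction (strict if `k < g` and `C(n,r) > 0`; non strict suffices).
Let `S` be codependent with `k = S.card < g`. All `r`-sets disjoint from `S` are nonbases, their number is `C(n-k, r)`;
`C(n-i, r) (n-i-r) = (n-i) C(n-i-1, r)` and `5 (n - i - r) >= 2 (n - i)` for `i < g`: `3 n - 5 r - 3 i >= 3 n - 5n/2 - 3 g >= 0` because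
`2 r <= n` and `6 g <= n`. -/

namespace Pool.Agent.H95.FD

open Pool.Agent.H28.Johnson Pool.Agent.H13.VM

private theorem girth_num1 {n r g : ℕ} (h5 : 2 * n + 3 * g ≤ 5 * r) (hrn : r ≤ n) :
    ∀ k : ℕ, k ≤ g → k ≤ r → (2 / 5 : ℝ) ^ k * (n.choose r : ℝ) ≤ ((n - k).choose (r - k) : ℝ) := by
  intro k
  induction k with
  | zero => intro _ _; simp
  | succ k ih =>
    intro hk hkr
    have ih' := ih (by omega) (by omega)
    obtain ⟨m, hm⟩ : ∃ m, n - k = m + 1 := ⟨n - k - 1, by omega⟩
    obtain ⟨s, hs⟩ : ∃ s, r - k = s + 1 := ⟨r - k - 1, by omega⟩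
    have hm' : n - (k + 1) = m := by omega
    have hs' : r - (k + 1) = s := by omega
    rw [hm', hs']
    rw [hm, hs] at ih'
    have h1 := Nat.add_one_mul_choose_eq m s
    have h1' : ((m : ℝ) + 1) * (m.choose s : ℝ) = ((m + 1).choose (s + 1) : ℝ) * ((s : ℝ) + 1) := by
      exact_mod_cast h1
    have h2 : 2 * (m + 1) ≤ 5 * (s + 1) := by omega
    have h2' : 2 * ((m : ℝ) + 1) ≤ 5 * ((s : ℝ) + 1) := by exact_mod_cast h2
    have hm0 : (0 : ℝ) < (m : ℝ) + 1 := by positivity
    have hc0 : (0 : ℝ) ≤ ((m + 1).choose (s + 1) : ℝ) := Nat.cast_nonneg _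
    have h3 : (2 / 5 : ℝ) * ((m + 1).choose (s + 1) : ℝ) ≤ (m.choose s : ℝ) := by
      have h4 : ((m : ℝ) + 1) * ((2 / 5 : ℝ) * ((m + 1).choose (s + 1) : ℝ)) ≤
          ((m : ℝ) + 1) * (m.choose s : ℝ) := by
        rw [h1']
        nlinarith [mul_le_mul_of_nonneg_left h2' hc0]
      exact le_of_mul_le_mul_left h4 hm0
    calc (2 / 5 : ℝ) ^ (k + 1) * (n.choose r : ℝ)
        = (2 / 5 : ℝ) * ((2 / 5 : ℝ) ^ k * (n.choose r : ℝ)) := by ring
      _ ≤ (2 / 5 : ℝ) * ((m + 1).choose (s + 1) : ℝ) := by gcongr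
      _ ≤ (m.choose s : ℝ) := h3

private theorem girth_num2 {n r g : ℕ} (h2 : 2 * r ≤ n) (h6 : 6 * g ≤ n) :
    ∀ k : ℕ, k ≤ g → (2 / 5 : ℝ) ^ k * (n.choose r : ℝ) ≤ ((n - k).choose r : ℝ) := by
  intro k
  induction k with
  | zero => intro _; simp
  | succ k ih =>
    intro hk
    have ih' := ih (by omega)
    obtain ⟨m, hm⟩ : ∃ m, n - k = m + 1 := ⟨n - k - 1, by omega⟩
    have hm' : n - (k + 1) = m := by omega
    rw [hm']
    rw [hm] at ih'
    have h1 := Nat.choose_mul_succ_eq m r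
    obtain ⟨s, hs⟩ : ∃ s, m + 1 = r + s := ⟨m + 1 - r, by omega⟩
    have hs1 : m + 1 - r = s := by omega
    rw [hs1] at h1
    have h1' : (m.choose r : ℝ) * ((m : ℝ) + 1) = ((m + 1).choose r : ℝ) * (s : ℝ) := by
      exact_mod_cast h1
    have h3 : 2 * (m + 1) ≤ 5 * s := by omega
    have h3' : 2 * ((m : ℝ) + 1) ≤ 5 * (s : ℝ) := by exact_mod_cast h3
    have hm0 : (0 : ℝ) < (m : ℝ) + 1 := by positivity
    have hc0 : (0 : ℝ) ≤ ((m + 1).choose r : ℝ) := Nat.cast_nonneg _
    have h4 : (2 / 5 : ℝ) * ((m + 1).choose r : ℝ) ≤ (m.choose r : ℝ) := by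
      have h5 : ((2 / 5 : ℝ) * ((m + 1).choose r : ℝ)) * ((m : ℝ) + 1) ≤
          (m.choose r : ℝ) * ((m : ℝ) + 1) := by
        rw [h1']
        nlinarith [mul_le_mul_of_nonneg_left h3' hc0]
      exact le_of_mul_le_mul_right h5 hm0
    calc (2 / 5 : ℝ) ^ (k + 1) * (n.choose r : ℝ)
        = (2 / 5 : ℝ) * ((2 / 5 : ℝ) ^ k * (n.choose r : ℝ)) := by ring
      _ ≤ (2 / 5 : ℝ) * ((m + 1).choose r : ℝ) := by gcongr
      _ ≤ (m.choose r : ℝ) := h4

private theorem girth_pow {g k : ℕ} (hk : k ≤ g) (N : ℝ) (hN : 0 ≤ N) :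
    (2 / 5 : ℝ) ^ g * N ≤ (2 / 5 : ℝ) ^ k * N :=
  mul_le_mul_of_nonneg_right
    (pow_le_pow_of_le_one (by norm_num) (by norm_num) hk) hN

theorem girth {n r g : ℕ} (h5 : 2 * n + 3 * g ≤ 5 * r) (h2 : 2 * r ≤ n) (h6 : 6 * g ≤ n) {B : Fam n}
    (hB : ((NB r B).card : ℝ) < (2 / 5 : ℝ) ^ g * (n.choose r : ℝ)) :
    (∀ S : Finset (Fin n), Dep B S → g ≤ S.card) ∧
      ∀ S : Finset (Fin n), Codep B S → g ≤ S.card := by
  classical
  have hN0 : (0 : ℝ) ≤ (n.choose r : ℝ) := Nat.cast_nonneg _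
  constructor
  · intro S hS
    by_contra hcon
    push Not at hcon
    have hkr : S.card ≤ r := by omega
    have hcard : ((n - S.card).choose (r - S.card)) ≤ (NB r B).card := by
      have h1 : (Finset.powersetCard (r - S.card) Sᶜ).card = (n - S.card).choose (r - S.card) := by
        rw [Finset.card_powersetCard, Finset.card_compl, Fintype.card_fin]
      rw [← h1]
      refine Finset.card_le_card_of_injOn (fun Y => S ∪ Y) ?_ ?_
      · intro Y hY
        rw [Finset.mem_coe, Finset.mem_powersetCard] at hY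
        have hd : Disjoint S Y := by
          rw [Finset.disjoint_left]
          intro a ha hb
          exact (Finset.mem_compl.1 (hY.1 hb)) ha
        show S ∪ Y ∈ (NB r B : Set _)
        rw [Finset.mem_coe, mem_NB]
        refine ⟨?_, fun h => hS _ h Finset.subset_union_left⟩
        rw [Finset.card_union_of_disjoint hd, hY.2]
        omega
      · intro Y hY Z hZ hYZ
        rw [Finset.mem_coe, Finset.mem_powersetCard] at hY hZ
        have hYZ' : S ∪ Y = S ∪ Z := hYZ
        ext a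
        constructor
        · intro ha
          have h3 : a ∈ S ∪ Z := hYZ' ▸ Finset.mem_union_right S ha
          rcases Finset.mem_union.1 h3 with h4 | h4
          · exact absurd h4 (Finset.mem_compl.1 (hY.1 ha))
          · exact h4
        · intro ha
          have h3 : a ∈ S ∪ Y := hYZ'.symm ▸ Finset.mem_union_right S ha
          rcases Finset.mem_union.1 h3 with h4 | h4
          · exact absurd h4 (Finset.mem_compl.1 (hZ.1 ha))
          · exact h4
    have h3 := girth_num1 h5 (by omega) S.card hcon.le hkr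
    have h4 := girth_pow hcon.le (n.choose r : ℝ) hN0
    have h7 : (((n - S.card).choose (r - S.card) : ℕ) : ℝ) ≤ ((NB r B).card : ℝ) := by
      exact_mod_cast hcard
    linarith
  · intro S hS
    by_contra hcon
    push Not at hcon
    have hcard : ((n - S.card).choose r) ≤ (NB r B).card := by
      have h1 : (Finset.powersetCard r Sᶜ).card = (n - S.card).choose r := by
        rw [Finset.card_powersetCard, Finset.card_compl, Fintype.card_fin]
      rw [← h1]
      apply Finset.card_le_card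
      intro Y hY
      rw [Finset.mem_powersetCard] at hY
      rw [mem_NB]
      refine ⟨hY.2, fun h => hS _ h ?_⟩
      rw [Finset.disjoint_left]
      intro a ha hb
      exact (Finset.mem_compl.1 (hY.1 hb)) ha
    have h3 := girth_num2 h2 h6 S.card hcon.le
    have h4 := girth_pow hcon.le (n.choose r : ℝ) hN0
    have h7 : (((n - S.card).choose r : ℕ) : ℝ) ≤ ((NB r B).card : ℝ) := by
      exact_mod_cast hcard
    linarith

end Pool.Agent.H95.FD
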