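import Pool.Agent.H95.FD.Cat1
import Pool.Agent.H95.FD.Cat2
import Pool.Agent.H95.FD.Cat3
import Pool.Agent.H95.FD.Cat4
import Pool.Agent.H95.FD.Girth

/-! MODULE Cls2 (about 90 lines). The four categories cover all fixed matroids with a given code.

PROOF. Let `B` be a matroid with code `c`, fixed by `s`. If some `z` is in all bases: first sum. If some `z` is in no base: second sum.
Otherwise, if `q' + 1 <= (nclB r j A B).card`: third term. Otherwise `(nclB r j A B).card <= q'`; if
`x <= (NB r B \ A (NB r B)).card`: fourth term. Otherwise `(NB r B).card <= (NB r B \ A (NB r B)).card + (A (NB r B)).card < x + th <=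
(2/5)^g C(n,r)` (`IsRun.cardA`), so `girth` (module Girth) gives that all dependent and codependent sets have at least `g` elements: fifth
term. So the family is contained in the union of the five kinds of families: `Finset.card_le_card`, `Finset.card_union_le`,
`Finset.card_biUnion_le`. -/

open scoped BigOperators

namespace Pool.Agent.H95.FD

open Pool.Agent.H28.Johnson Pool.Agent.H13.VM

open Classical in
theorem cls_cover {n r d q θ j : ℕ} {F A : Fam n → Fam n} (c : Fam n × Fam n × Finset (Inf n))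
    (hF : IsRun n r d q θ F A) {g : ℕ} (h5 : 2 * n + 3 * g ≤ 5 * r) (h3 : 2 * r ≤ n)
    (h6 : 6 * g ≤ n) (s : Equiv.Perm (Fin n)) (q' : ℕ) (x : ℝ)
    (hx : x + θ ≤ (2 / 5 : ℝ) ^ g * (n.choose r : ℝ)) :
    ((cls n r j F c).filter fun B => (B.image fun X => X.image s) = B).card ≤
      (∑ z : Fin n, ((cls n r j F c).filter fun B => ∀ Y ∈ B, z ∈ Y).card) +
      (∑ z : Fin n, ((cls n r j F c).filter fun B => ∀ Y ∈ B, z ∉ Y).card) +
      ((cls n r j F c).filter fun B => (∀ z : Fin n, (∃ Y ∈ B, z ∈ Y) ∧ ∃ Y ∈ B, z ∉ Y) ∧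
        q' + 1 ≤ (nclB r j A B).card).card +
      ((cls n r j F c).filter fun B => (nclB r j A B).card ≤ q' ∧
        x ≤ ((NB r B \ A (NB r B)).card : ℝ)).card +
      ((cls n r j F c).filter fun B => (B.image fun X => X.image s) = B ∧
        (∀ S : Finset (Fin n), Dep B S → g ≤ S.card) ∧
        ∀ S : Finset (Fin n), Codep B S → g ≤ S.card).card := by
  set P1 : Finset (Fam n) := (Finset.univ : Finset (Fin n)).biUnion fun z =>
    (cls n r j F c).filter fun B => ∀ Y ∈ B, z ∈ Y with hP1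
  set P2 : Finset (Fam n) := (Finset.univ : Finset (Fin n)).biUnion fun z =>
    (cls n r j F c).filter fun B => ∀ Y ∈ B, z ∉ Y with hP2
  set P3 : Finset (Fam n) := (cls n r j F c).filter fun B =>
    (∀ z : Fin n, (∃ Y ∈ B, z ∈ Y) ∧ ∃ Y ∈ B, z ∉ Y) ∧ q' + 1 ≤ (nclB r j A B).card with hP3
  set P4 : Finset (Fam n) := (cls n r j F c).filter fun B => (nclB r j A B).card ≤ q' ∧
    x ≤ ((NB r B \ A (NB r B)).card : ℝ) with hP4
  set P5 : Finset (Fam n) := (cls n r j F c).filter fun B => (B.image fun X => X.image s) = B ∧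
    (∀ S : Finset (Fin n), Dep B S → g ≤ S.card) ∧
    ∀ S : Finset (Fin n), Codep B S → g ≤ S.card with hP5
  have hsub : ((cls n r j F c).filter fun B => (B.image fun X => X.image s) = B) ⊆
      (((P1 ∪ P2) ∪ P3) ∪ P4) ∪ P5 := by
    intro B hB
    rw [Finset.mem_filter] at hB
    obtain ⟨hBc, hBs⟩ := hB
    simp only [Finset.mem_union]
    by_cases c1 : ∃ z : Fin n, ∀ Y ∈ B, z ∈ Y
    · obtain ⟨z, hz⟩ := c1
      exact Or.inl (Or.inl (Or.inl (Or.inl (Finset.mem_biUnion.mpr
        ⟨z, Finset.mem_univ _, Finset.mem_filter.mpr ⟨hBc, hz⟩⟩))))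
    by_cases c2 : ∃ z : Fin n, ∀ Y ∈ B, z ∉ Y
    · obtain ⟨z, hz⟩ := c2
      exact Or.inl (Or.inl (Or.inl (Or.inr (Finset.mem_biUnion.mpr
        ⟨z, Finset.mem_univ _, Finset.mem_filter.mpr ⟨hBc, hz⟩⟩))))
    have c12 : ∀ z : Fin n, (∃ Y ∈ B, z ∈ Y) ∧ ∃ Y ∈ B, z ∉ Y := by
      intro z
      constructor
      · by_contra h
        push Not at h
        exact c2 ⟨z, h⟩
      · by_contra h
        push Not at h
        exact c1 ⟨z, h⟩
    by_cases c3 : q' + 1 ≤ (nclB r j A B).card
    · exact Or.inl (Or.inl (Or.inr (Finset.mem_filter.mpr ⟨hBc, c12, c3⟩)))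
    have c3' : (nclB r j A B).card ≤ q' := by omega
    by_cases c4 : x ≤ ((NB r B \ A (NB r B)).card : ℝ)
    · exact Or.inl (Or.inr (Finset.mem_filter.mpr ⟨hBc, c3', c4⟩))
    push Not at c4
    right
    have h7 : (NB r B).card ≤ (NB r B \ A (NB r B)).card + (A (NB r B)).card := by
      have h8 : NB r B ⊆ (NB r B \ A (NB r B)) ∪ A (NB r B) := by
        intro X hX
        by_cases hA : X ∈ A (NB r B)
        · exact Finset.mem_union_right _ hA
        · exact Finset.mem_union_left _ (Finset.mem_sdiff.mpr ⟨hX, hA⟩)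
      exact (Finset.card_le_card h8).trans (Finset.card_union_le _ _)
    have h9 := hF.cardA _ (NB_subset r B)
    have h10 : ((NB r B).card : ℝ) < (2 / 5 : ℝ) ^ g * (n.choose r : ℝ) := by
      have e1 : ((NB r B).card : ℝ) ≤ ((NB r B \ A (NB r B)).card : ℝ) +
          ((A (NB r B)).card : ℝ) := by exact_mod_cast h7
      have e2 : ((A (NB r B)).card : ℝ) ≤ (θ : ℝ) := by exact_mod_cast h9
      linarith
    obtain ⟨g1, g2⟩ := girth h5 h3 h6 h10
    exact Finset.mem_filter.mpr ⟨hBc, hBs, g1, g2⟩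
  have hu := Finset.card_le_card hsub
  have u1 := Finset.card_union_le (((P1 ∪ P2) ∪ P3) ∪ P4) P5
  have u2 := Finset.card_union_le ((P1 ∪ P2) ∪ P3) P4
  have u3 := Finset.card_union_le (P1 ∪ P2) P3
  have u4 := Finset.card_union_le P1 P2
  have b1 : P1.card ≤ ∑ z : Fin n, ((cls n r j F c).filter fun B => ∀ Y ∈ B, z ∈ Y).card :=
    Finset.card_biUnion_le
  have b2 : P2.card ≤ ∑ z : Fin n, ((cls n r j F c).filter fun B => ∀ Y ∈ B, z ∉ Y).card :=
    Finset.card_biUnion_le
  omega

end Pool.Agent.H95.FD
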