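import Pool.Agent.H95.FD.Defs

/-! MODULE CodeA (about 170 lines). The number of codes.

PROOF. `code r j F B = (sml r j B, lrg r j B, (F (NB r B)).image (info r j B))`. The first component is a subset of the set `S1` of
all sets `S` with `S.card + j <= r`, the second one a subset of the set `S2` of all `U` with `r + j <= U.card`, the third one a subset
with at most `q` elements (`IsRun.cardF`, `Finset.card_image_le`, `NB_subset`) of
`V = Base n r × P × P × Bool × Bool × Bool`, `P` = the sets with less than `j` elements (the empty set is in `P` as `1 <= j`; `v` in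
`F (NB r B)`, a subset of `Base n r`: `IsRun.sub`). `P.card <= (n+1)^j`: the sum of `C(n,i)` over `i < j` is at most `(n+1)^j`
(induction, or code a set with less than `j` elements as a function from `Fin j` to `Option (Fin n)`). So
`V.card <= 8 N (n+1)^(2j)` (`card_Base` in H28, `Finset.card_product`), and the number of subsets of `V` with at most `q` elements is
the sum of `C(V.card, i)` over `i <= q` (`Finset.card_powersetCard`, biUnion), monotone in `V.card`
(`Nat.choose_le_choose`). The image of `Mats n r` under `code` is contained in the product of the three sets. -/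

open scoped BigOperators

namespace Pool.Agent.H95.FD

open Pool.Agent.H28.Johnson Pool.Agent.H13.VM

open Classical in
/-- the sets with less than `j` elements -/
noncomputable def smallP (n j : ℕ) : Fam n := Finset.univ.filter fun S => S.card < j

open Classical in
lemma card_smallP (n j : ℕ) : (smallP n j).card ≤ (n + 1) ^ j := by
  have hsub : smallP n j ⊆ (Finset.univ : Finset (Fin j → Option (Fin n))).image
      (fun f => (Finset.univ : Finset (Fin n)).filter fun a => ∃ i, f i = some a) := by
    intro S hS
    rw [smallP, Finset.mem_filter] at hS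
    rw [Finset.mem_image]
    have hlt : S.card < j := hS.2
    refine ⟨fun i => if h : (i : ℕ) < S.card then some (S.equivFin.symm ⟨i, h⟩ : Fin n) else none,
      Finset.mem_univ _, ?_⟩
    ext a
    simp only [Finset.mem_filter, Finset.mem_univ, true_and]
    constructor
    · rintro ⟨i, hi⟩
      by_cases h : (i : ℕ) < S.card
      · rw [dif_pos h] at hi
        have := Option.some.inj hi
        rw [← this]
        exact (S.equivFin.symm ⟨i, h⟩).2
      · rw [dif_neg h] at hi
        exact absurd hi (by simp)
    · intro ha
      have h1 : ((S.equivFin ⟨a, ha⟩ : Fin S.card) : ℕ) < S.card := (S.equivFin ⟨a, ha⟩).2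
      refine ⟨⟨(S.equivFin ⟨a, ha⟩ : Fin S.card), h1.trans hlt⟩, ?_⟩
      rw [dif_pos h1]
      simp
  calc (smallP n j).card ≤ _ := Finset.card_le_card hsub
    _ ≤ (Finset.univ : Finset (Fin j → Option (Fin n))).card := Finset.card_image_le
    _ = (n + 1) ^ j := by
        rw [Finset.card_univ, Fintype.card_fun, Fintype.card_option, Fintype.card_fin,
          Fintype.card_fin]

open Classical in
lemma card_few {α : Type*} (V : Finset α) (q M : ℕ) (hV : V.card ≤ M) :
    (V.powerset.filter fun W => W.card ≤ q).card ≤ ∑ i ∈ Finset.range (q + 1), M.choose i := by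
  have hsub : (V.powerset.filter fun W => W.card ≤ q) ⊆
      (Finset.range (q + 1)).biUnion fun i => V.powersetCard i := by
    intro W hW
    rw [Finset.mem_filter, Finset.mem_powerset] at hW
    rw [Finset.mem_biUnion]
    exact ⟨W.card, Finset.mem_range.mpr (Nat.lt_succ_of_le hW.2),
      Finset.mem_powersetCard.mpr ⟨hW.1, rfl⟩⟩
  calc _ ≤ _ := Finset.card_le_card hsub
    _ ≤ ∑ i ∈ Finset.range (q + 1), (V.powersetCard i).card := Finset.card_biUnion_le
    _ ≤ _ := by
        apply Finset.sum_le_sum
        intro i _
        rw [Finset.card_powersetCard]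
        exact Nat.choose_le_choose i hV

open Classical in
theorem card_codes {n r d q θ j : ℕ} (hj : 1 ≤ j) {F A : Fam n → Fam n}
    (hF : IsRun n r d q θ F A) :
    ((Mats n r).image (code r j F)).card ≤
      2 ^ ((Finset.univ : Fam n).filter fun S => S.card + j ≤ r).card *
      2 ^ ((Finset.univ : Fam n).filter fun S => r + j ≤ S.card).card *
      ∑ i ∈ Finset.range (q + 1), (8 * n.choose r * (n + 1) ^ (2 * j)).choose i := by
  set S1 : Fam n := (Finset.univ : Fam n).filter fun S => S.card + j ≤ r with hS1
  set S2 : Fam n := (Finset.univ : Fam n).filter fun S => r + j ≤ S.card with hS2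
  set V : Finset (Inf n) := Base n r ×ˢ smallP n j ×ˢ smallP n j ×ˢ
    (Finset.univ : Finset Bool) ×ˢ (Finset.univ : Finset Bool) ×ˢ (Finset.univ : Finset Bool)
    with hVdef
  have hemp : (∅ : Finset (Fin n)) ∈ smallP n j := by
    rw [smallP, Finset.mem_filter]
    exact ⟨Finset.mem_univ _, by rw [Finset.card_empty]; omega⟩
  have hV : V.card ≤ 8 * n.choose r * (n + 1) ^ (2 * j) := by
    rw [hVdef, Finset.card_product, Finset.card_product, Finset.card_product,
      Finset.card_product, Finset.card_product, card_Base, Finset.card_univ, Fintype.card_bool]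
    have h1 := card_smallP n j
    calc n.choose r * ((smallP n j).card * ((smallP n j).card * (2 * (2 * 2))))
        ≤ n.choose r * ((n + 1) ^ j * ((n + 1) ^ j * (2 * (2 * 2)))) := by gcongr
      _ = 8 * n.choose r * (n + 1) ^ (2 * j) := by ring
  have hsub : (Mats n r).image (code r j F) ⊆
      S1.powerset ×ˢ S2.powerset ×ˢ (V.powerset.filter fun W => W.card ≤ q) := by
    intro c hc
    rw [Finset.mem_image] at hc
    obtain ⟨B, _, rfl⟩ := hc
    rw [code, Finset.mem_product, Finset.mem_product, Finset.mem_powerset, Finset.mem_powerset,
      Finset.mem_filter, Finset.mem_powerset]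
    refine ⟨?_, ?_, ?_, ?_⟩
    · intro S hS
      rw [hS1, Finset.mem_filter]
      exact ⟨Finset.mem_univ _, (mem_sml.mp hS).1⟩
    · intro S hS
      rw [hS2, Finset.mem_filter]
      exact ⟨Finset.mem_univ _, (mem_lrg.mp hS).1⟩
    · intro x hx
      rw [Finset.mem_image] at hx
      obtain ⟨v, hv, rfl⟩ := hx
      have hv1 : v ∈ Base n r := NB_subset r B (hF.sub _ (NB_subset r B) hv)
      have hsm : ∀ S : Finset (Fin n), (if S.card < j then S else ∅) ∈ smallP n j := by
        intro S
        by_cases h : S.card < j
        · rw [if_pos h, smallP, Finset.mem_filter]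
          exact ⟨Finset.mem_univ _, h⟩
        · rw [if_neg h]
          exact hemp
      rw [hVdef, info]
      simp only [Finset.mem_product, Finset.mem_univ, and_true]
      exact ⟨hv1, hsm _, hsm _⟩
    · exact Finset.card_image_le.trans (hF.cardF _ (NB_subset r B))
  calc ((Mats n r).image (code r j F)).card
      ≤ (S1.powerset ×ˢ S2.powerset ×ˢ (V.powerset.filter fun W => W.card ≤ q)).card :=
        Finset.card_le_card hsub
    _ = 2 ^ S1.card * 2 ^ S2.card * (V.powerset.filter fun W => W.card ≤ q).card := by
        rw [Finset.card_product, Finset.card_product, Finset.card_powerset,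
          Finset.card_powerset, mul_assoc]
    _ ≤ _ := Nat.mul_le_mul_left _ (card_few V q _ hV)

end Pool.Agent.H95.FD
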