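import Pool.Agent.H13.VM.Bas
import Pool.Agent.H8.VM.Defs

/-! # Faithful description of matroids: definitions

Notation: `n` elements, rank `r`, `Base n r` = all `r`-sets, `adj r` = adjacency in the Johnson graph, a matroid is its
family `B` of bases (`IsMat n r B`), `K = NB r B` = nonbases. A matroid is described by
* the dependent sets with at most `r - j` elements (`sml`) and the sets with at least `r + j` elements containing no
  base (`lrg`),
* a Kleitman-Winston run (`IsRun`): `F K` is a small subset of `K`, `A K` is a set of at most `theta` `r`-sets with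
  maximum degree less than `d`; the nonbases outside `A K` are in `F K` or adjacent to a member of `F K`,
* for `v` in `F K` the data `info` which give the nonbases adjacent to `v`.
The nonbases in `A K` are then known up to the free points `fre` (isolated nonbases) and up to one bit for every class of
the relation generated by the ties. -/

open scoped BigOperators
open Filter

namespace Pool.Agent.H95.FD

open Pool.Agent.H28.Johnson Pool.Agent.H13.VM

variable {n : ℕ}

/-- families of subsets of `Fin n` -/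
abbrev Fam (n : ℕ) := Finset (Finset (Fin n))

open Classical in
/-- dependent sets with at most `r - j` elements -/
noncomputable def sml (r j : ℕ) (B : Fam n) : Fam n :=
  Finset.univ.filter fun S => S.card + j ≤ r ∧ Dep B S

open Classical in
/-- sets with at least `r + j` elements which contain no base -/
noncomputable def lrg (r j : ℕ) (B : Fam n) : Fam n :=
  Finset.univ.filter fun U => r + j ≤ U.card ∧ ∀ X ∈ B, ¬ X ⊆ U

/-- a run of the Kleitman-Winston algorithm: `F K` = selected members of `K`, `A K` = final set -/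
structure IsRun (n r d q θ : ℕ) (F A : Fam n → Fam n) : Prop where
  sub : ∀ K ⊆ Base n r, F K ⊆ K
  cardF : ∀ K ⊆ Base n r, (F K).card ≤ q
  subA : ∀ K ⊆ Base n r, A K ⊆ Base n r
  cardA : ∀ K ⊆ Base n r, (A K).card ≤ θ
  deg : ∀ K ⊆ Base n r, ∀ v ∈ A K, ∀ S ⊆ A K, (∀ u ∈ S, adj r v u) → S.card < d
  known : ∀ K ⊆ Base n r, ∀ x ∈ K, x ∉ A K → x ∈ F K ∨ ∃ v ∈ F K, adj r v x
  det : ∀ K ⊆ Base n r, ∀ K' ⊆ Base n r, F K = F K' → A K = A K'

/-- type of the data `info` -/
abbrev Inf (n : ℕ) :=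
  Finset (Fin n) × Finset (Fin n) × Finset (Fin n) × Bool × Bool × Bool

open Classical in
/-- description of the nonbases adjacent to the nonbase `v`: small parts of `v \ CX` and of `HX \ v` are listed, the big ones
are known from `sml`, `lrg` -/
noncomputable def info (r j : ℕ) (B : Fam n) (v : Finset (Fin n)) : Inf n :=
  (v, if (v \ CX B v).card < j then v \ CX B v else ∅,
    if (HX B v \ v).card < j then HX B v \ v else ∅,
    decide (v ∈ NB1 r B), decide ((v \ CX B v).card < j), decide ((HX B v \ v).card < j))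

open Classical in
/-- the code of the matroid `B` -/
noncomputable def code (r j : ℕ) (F : Fam n → Fam n) (B : Fam n) : Fam n × Fam n × Finset (Inf n) :=
  (sml r j B, lrg r j B, (F (NB r B)).image (info r j B))

/-! ## lines which meet `A` -/

open Classical in
/-- the positions `z` with `I + z` outside `A` -/
noncomputable def Zs (A : Fam n) (I : Finset (Fin n)) : Finset (Fin n) :=
  Iᶜ.filter fun z => insert z I ∉ A

open Classical in
/-- `I` together with the positions `z` with `I + z` outside `A` -/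
noncomputable def YI (A : Fam n) (I : Finset (Fin n)) : Finset (Fin n) := I ∪ Zs A I

open Classical in
/-- the positions `z` such that `YI + z` contains a base (`lg = lrg r j B`) -/
noncomputable def TI (A lg : Fam n) (I : Finset (Fin n)) : Finset (Fin n) :=
  Iᶜ.filter fun z => insert z (YI A I) ∉ lg

open Classical in
/-- the `(r-1)`-sets `I` whose line meets `A` and whose members outside `A` are all in `Kn` -/
noncomputable def lnI (r : ℕ) (A Kn : Fam n) : Fam n :=
  Finset.univ.filter fun I => I.card + 1 = r ∧ (∃ z, z ∉ I ∧ insert z I ∈ A) ∧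
    ∀ z ∈ Zs A I, insert z I ∈ Kn

open Classical in
/-- the ties given by `(r-1)`-sets -/
noncomputable def tieI (r : ℕ) (A Kn lg : Fam n) : Finset (Fam n) :=
  ((lnI r A Kn).filter fun I => (TI A lg I).Nonempty ∧ Disjoint (TI A lg I) (Zs A I)).image
    fun I => (TI A lg I).image fun z => insert z I

open Classical in
/-- the members of `A` which are nonbases because of an `(r-1)`-set -/
noncomputable def decI (r : ℕ) (A Kn lg : Fam n) : Fam n :=
  A.filter fun w => ∃ I ∈ lnI r A Kn, ∃ z, z ∉ I ∧ w = insert z I ∧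
    (z ∉ TI A lg I ∨ ¬ Disjoint (TI A lg I) (Zs A I))

open Classical in
/-- the positions `y` with `U - y` outside `A` -/
noncomputable def Ys (A : Fam n) (U : Finset (Fin n)) : Finset (Fin n) :=
  U.filter fun y => U.erase y ∉ A

open Classical in
/-- `U` without the positions `y` with `U - y` outside `A` -/
noncomputable def XU (A : Fam n) (U : Finset (Fin n)) : Finset (Fin n) := U \ Ys A U

open Classical in
/-- the positions `y` such that `XU - y` is contained in a base (`sm = sml r j B`) -/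
noncomputable def TU (A sm : Fam n) (U : Finset (Fin n)) : Finset (Fin n) :=
  U.filter fun y => (XU A U).erase y ∉ sm

open Classical in
/-- the `(r+1)`-sets `U` whose line meets `A` and whose members outside `A` are all in `Kn` -/
noncomputable def lnU (r : ℕ) (A Kn : Fam n) : Fam n :=
  Finset.univ.filter fun U => U.card = r + 1 ∧ (∃ y ∈ U, U.erase y ∈ A) ∧
    ∀ y ∈ Ys A U, U.erase y ∈ Kn

open Classical in
/-- the ties given by `(r+1)`-sets -/
noncomputable def tieU (r : ℕ) (A Kn sm : Fam n) : Finset (Fam n) :=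
  ((lnU r A Kn).filter fun U => (TU A sm U).Nonempty ∧ Disjoint (TU A sm U) (Ys A U)).image
    fun U => (TU A sm U).image fun y => U.erase y

open Classical in
/-- the members of `A` which are nonbases because of an `(r+1)`-set -/
noncomputable def decU (r : ℕ) (A Kn sm : Fam n) : Fam n :=
  A.filter fun w => ∃ U ∈ lnU r A Kn, ∃ y ∈ U, w = U.erase y ∧
    (y ∉ TU A sm U ∨ ¬ Disjoint (TU A sm U) (Ys A U))

open Classical in
/-- the members of `A` which are nonbases because of a listed set -/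
noncomputable def dec0 (A sm lg : Fam n) : Fam n :=
  A.filter fun w => (∃ U ∈ lg, w ⊆ U) ∨ ∃ S ∈ sm, S ⊆ w

/-- the members of `A` known to be nonbases -/
noncomputable def decA (r : ℕ) (A Kn sm lg : Fam n) : Fam n :=
  dec0 A sm lg ∪ (decI r A Kn lg ∪ decU r A Kn sm)

/-- all ties -/
noncomputable def ties (r : ℕ) (A Kn sm lg : Fam n) : Finset (Fam n) :=
  tieI r A Kn lg ∪ tieU r A Kn sm

/-! ## abstract systems -/

/-- what is used of the nonbases `K`: `Kn` = members outside `A`, `Dc` = some members in `A`, `T` = ties -/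
structure Sys (r : ℕ) (Kn A Dc : Fam n) (T : Finset (Fam n)) (K : Fam n) : Prop where
  kb : K ⊆ Base n r
  ab : A ⊆ Base n r
  kn : K \ A = Kn
  dcA : Dc ⊆ A
  dcK : Dc ⊆ K
  tie : ∀ τ ∈ T, τ ⊆ A ∧ τ.Nonempty ∧ ∀ v ∈ τ, ∃ u ∈ Kn, adj r v u
  tieK : ∀ τ ∈ T, (∀ v ∈ τ, v ∈ K) ∨ ∀ v ∈ τ, v ∉ K
  nb1 : ∀ v ∈ K, v ∈ A → ∀ u ∈ K, adj r v u → v ∈ Dc ∨ ∃ τ ∈ T, v ∈ τ
  nb2 : ∀ v ∈ K, v ∈ A → ∀ u ∈ K, u ∈ A → adj r v u →
    v ∈ Dc ∨ u ∈ Dc ∨ ∃ τ ∈ T, v ∈ τ ∧ u ∈ τ

/-- the equivalence relation generated by the ties -/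
def Tied (T : Finset (Fam n)) : Finset (Fin n) → Finset (Fin n) → Prop :=
  Relation.EqvGen fun v w => ∃ τ ∈ T, v ∈ τ ∧ w ∈ τ

/-- a representative of the class of `v` -/
noncomputable def rp (T : Finset (Fam n)) (v : Finset (Fin n)) : Finset (Fin n) :=
  Quotient.out (Quotient.mk (Relation.EqvGen.setoid fun v w => ∃ τ ∈ T, v ∈ τ ∧ w ∈ τ) v)

open Classical in
/-- the tied points -/
noncomputable def allT (T : Finset (Fam n)) : Fam n := T.biUnion id

open Classical in
/-- the points known to be in `K` -/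
noncomputable def dcs (Dc : Fam n) (T : Finset (Fam n)) : Fam n :=
  Dc ∪ (allT T).filter fun v => ∃ w ∈ Dc, Tied T v w

open Classical in
/-- the tied points whose class is undecided -/
noncomputable def und (Dc : Fam n) (T : Finset (Fam n)) : Fam n :=
  (allT T).filter fun v => ¬ ∃ w ∈ Dc, Tied T v w

open Classical in
/-- the free points -/
noncomputable def fre (r : ℕ) (Kn A Dc : Fam n) (T : Finset (Fam n)) : Fam n :=
  A.filter fun v => v ∉ Dc ∧ v ∉ allT T ∧ ∀ u ∈ Kn, ¬ adj r v u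

open Classical in
/-- the representatives of the undecided classes contained in `K` -/
noncomputable def ncl (Dc : Fam n) (T : Finset (Fam n)) (K : Fam n) : Fam n :=
  (K ∩ und Dc T).image (rp T)

open Classical in
/-- isolated points of `K` -/
noncomputable def isoK (r : ℕ) (K : Fam n) : Fam n := K.filter fun X => ∀ Y ∈ K, ¬ adj r X Y

/-- what is used of the final set `A` of the run for the matroid `B` -/
structure Ctx (r d j : ℕ) (B A : Fam n) : Prop where
  mat : IsMat n r B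
  sub : A ⊆ Base n r
  deg : ∀ v ∈ A, ∀ S ⊆ A, (∀ u ∈ S, adj r v u) → S.card < d
  num1 : d + j ≤ r
  num2 : d + j + r ≤ n

/-- the threshold `ceil(n^(3/4))` for the sizes of the listed sets -/
noncomputable def jj (n : ℕ) : ℕ := ⌈(n : ℝ) ^ (3 / 4 : ℝ)⌉₊

open Classical in
/-- the matroids with the code `c` -/
noncomputable def cls (n r j : ℕ) (F : Fam n → Fam n) (c : Fam n × Fam n × Finset (Inf n)) :
    Finset (Fam n) := (Mats n r).filter fun B => code r j F B = c

/-- the system of the matroid `B` with the final set `A` describes the nonbases of `B'` -/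
def SysB (r j : ℕ) (A B B' : Fam n) : Prop :=
  Sys r (NB r B \ A) A (decA r A (NB r B \ A) (sml r j B) (lrg r j B))
    (ties r A (NB r B \ A) (sml r j B) (lrg r j B)) (NB r B')

/-! ## membership lemmas -/

lemma mem_sml {r j : ℕ} {B : Fam n} {S : Finset (Fin n)} :
    S ∈ sml r j B ↔ S.card + j ≤ r ∧ Dep B S := by
  classical
  simp [sml]

lemma mem_lrg {r j : ℕ} {B : Fam n} {U : Finset (Fin n)} :
    U ∈ lrg r j B ↔ r + j ≤ U.card ∧ ∀ X ∈ B, ¬ X ⊆ U := by
  classical
  simp [lrg]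

lemma mem_Zs {A : Fam n} {I : Finset (Fin n)} {z : Fin n} :
    z ∈ Zs A I ↔ z ∉ I ∧ insert z I ∉ A := by
  classical
  rw [Zs, Finset.mem_filter, Finset.mem_compl]

lemma mem_YI {A : Fam n} {I : Finset (Fin n)} {z : Fin n} :
    z ∈ YI A I ↔ z ∈ I ∨ z ∈ Zs A I := by
  classical
  rw [YI, Finset.mem_union]

lemma mem_TI {A lg : Fam n} {I : Finset (Fin n)} {z : Fin n} :
    z ∈ TI A lg I ↔ z ∉ I ∧ insert z (YI A I) ∉ lg := by
  classical
  rw [TI, Finset.mem_filter, Finset.mem_compl]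

lemma mem_lnI {r : ℕ} {A Kn : Fam n} {I : Finset (Fin n)} :
    I ∈ lnI r A Kn ↔ I.card + 1 = r ∧ (∃ z, z ∉ I ∧ insert z I ∈ A) ∧
      ∀ z ∈ Zs A I, insert z I ∈ Kn := by
  classical
  simp [lnI]

lemma mem_tieI {r : ℕ} {A Kn lg : Fam n} {τ : Fam n} :
    τ ∈ tieI r A Kn lg ↔ ∃ I ∈ lnI r A Kn, (TI A lg I).Nonempty ∧
      Disjoint (TI A lg I) (Zs A I) ∧ (TI A lg I).image (fun z => insert z I) = τ := by
  classical
  rw [tieI, Finset.mem_image]
  constructor
  · rintro ⟨I, hI, h⟩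
    rw [Finset.mem_filter] at hI
    exact ⟨I, hI.1, hI.2.1, hI.2.2, h⟩
  · rintro ⟨I, hI, h1, h2, h⟩
    exact ⟨I, Finset.mem_filter.mpr ⟨hI, h1, h2⟩, h⟩

lemma mem_decI {r : ℕ} {A Kn lg : Fam n} {w : Finset (Fin n)} :
    w ∈ decI r A Kn lg ↔ w ∈ A ∧ ∃ I ∈ lnI r A Kn, ∃ z, z ∉ I ∧ w = insert z I ∧
      (z ∉ TI A lg I ∨ ¬ Disjoint (TI A lg I) (Zs A I)) := by
  classical
  rw [decI, Finset.mem_filter]

lemma mem_Ys {A : Fam n} {U : Finset (Fin n)} {y : Fin n} :
    y ∈ Ys A U ↔ y ∈ U ∧ U.erase y ∉ A := by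
  classical
  rw [Ys, Finset.mem_filter]

lemma mem_XU {A : Fam n} {U : Finset (Fin n)} {y : Fin n} :
    y ∈ XU A U ↔ y ∈ U ∧ y ∉ Ys A U := by
  classical
  rw [XU, Finset.mem_sdiff]

lemma mem_TU {A sm : Fam n} {U : Finset (Fin n)} {y : Fin n} :
    y ∈ TU A sm U ↔ y ∈ U ∧ (XU A U).erase y ∉ sm := by
  classical
  rw [TU, Finset.mem_filter]

lemma mem_lnU {r : ℕ} {A Kn : Fam n} {U : Finset (Fin n)} :
    U ∈ lnU r A Kn ↔ U.card = r + 1 ∧ (∃ y ∈ U, U.erase y ∈ A) ∧
      ∀ y ∈ Ys A U, U.erase y ∈ Kn := by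
  classical
  simp [lnU]

lemma mem_tieU {r : ℕ} {A Kn sm : Fam n} {τ : Fam n} :
    τ ∈ tieU r A Kn sm ↔ ∃ U ∈ lnU r A Kn, (TU A sm U).Nonempty ∧
      Disjoint (TU A sm U) (Ys A U) ∧ (TU A sm U).image (fun y => U.erase y) = τ := by
  classical
  rw [tieU, Finset.mem_image]
  constructor
  · rintro ⟨I, hI, h⟩
    rw [Finset.mem_filter] at hI
    exact ⟨I, hI.1, hI.2.1, hI.2.2, h⟩
  · rintro ⟨I, hI, h1, h2, h⟩
    exact ⟨I, Finset.mem_filter.mpr ⟨hI, h1, h2⟩, h⟩

lemma mem_decU {r : ℕ} {A Kn sm : Fam n} {w : Finset (Fin n)} :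
    w ∈ decU r A Kn sm ↔ w ∈ A ∧ ∃ U ∈ lnU r A Kn, ∃ y ∈ U, w = U.erase y ∧
      (y ∉ TU A sm U ∨ ¬ Disjoint (TU A sm U) (Ys A U)) := by
  classical
  rw [decU, Finset.mem_filter]

lemma mem_dec0 {A sm lg : Fam n} {w : Finset (Fin n)} :
    w ∈ dec0 A sm lg ↔ w ∈ A ∧ ((∃ U ∈ lg, w ⊆ U) ∨ ∃ S ∈ sm, S ⊆ w) := by
  classical
  rw [dec0, Finset.mem_filter]

lemma mem_decA {r : ℕ} {A Kn sm lg : Fam n} {w : Finset (Fin n)} :
    w ∈ decA r A Kn sm lg ↔ w ∈ dec0 A sm lg ∨ w ∈ decI r A Kn lg ∨ w ∈ decU r A Kn sm := by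
  rw [decA, Finset.mem_union, Finset.mem_union]

lemma mem_ties {r : ℕ} {A Kn sm lg : Fam n} {τ : Fam n} :
    τ ∈ ties r A Kn sm lg ↔ τ ∈ tieI r A Kn lg ∨ τ ∈ tieU r A Kn sm := by
  rw [ties, Finset.mem_union]

lemma mem_allT {T : Finset (Fam n)} {v : Finset (Fin n)} : v ∈ allT T ↔ ∃ τ ∈ T, v ∈ τ := by
  classical
  simp [allT]

lemma mem_dcs {Dc : Fam n} {T : Finset (Fam n)} {v : Finset (Fin n)} :
    v ∈ dcs Dc T ↔ v ∈ Dc ∨ (v ∈ allT T ∧ ∃ w ∈ Dc, Tied T v w) := by
  classical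
  rw [dcs, Finset.mem_union, Finset.mem_filter]

lemma mem_und {Dc : Fam n} {T : Finset (Fam n)} {v : Finset (Fin n)} :
    v ∈ und Dc T ↔ v ∈ allT T ∧ ¬ ∃ w ∈ Dc, Tied T v w := by
  classical
  rw [und, Finset.mem_filter]

lemma mem_fre {r : ℕ} {Kn A Dc : Fam n} {T : Finset (Fam n)} {v : Finset (Fin n)} :
    v ∈ fre r Kn A Dc T ↔ v ∈ A ∧ v ∉ Dc ∧ v ∉ allT T ∧ ∀ u ∈ Kn, ¬ adj r v u := by
  classical
  rw [fre, Finset.mem_filter]

lemma mem_ncl {Dc : Fam n} {T : Finset (Fam n)} {K : Fam n} {v : Finset (Fin n)} :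
    v ∈ ncl Dc T K ↔ ∃ w, (w ∈ K ∧ w ∈ und Dc T) ∧ rp T w = v := by
  classical
  rw [ncl, Finset.mem_image]
  simp only [Finset.mem_inter]

lemma mem_isoK {r : ℕ} {K : Fam n} {X : Finset (Fin n)} :
    X ∈ isoK r K ↔ X ∈ K ∧ ∀ Y ∈ K, ¬ adj r X Y := by
  classical
  rw [isoK, Finset.mem_filter]

lemma mem_cls {r j : ℕ} {F : Fam n → Fam n} {c : Fam n × Fam n × Finset (Inf n)} {B : Fam n} :
    B ∈ cls n r j F c ↔ IsMat n r B ∧ code r j F B = c := by
  classical
  rw [cls, Finset.mem_filter, mem_Mats]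

lemma NB_subset (r : ℕ) (B : Fam n) : NB r B ⊆ Base n r := Finset.sdiff_subset

end Pool.Agent.H95.FD
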