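import Pool.Agent.H95.FD.Defs
import Pool.Agent.H13.VM.A9

/-! MODULE Det (about 160 lines). The code determines the final set and the nonbases outside it.

PROOF. Let `K = NB r B`, `K' = NB r B'`. From the equality of the codes: `sml r j B = sml r j B'`, `lrg r j B = lrg r j B'` and the
images of `F K` under `info r j B` and of `F K'` under `info r j B'` are equal. The first component of `info r j B v` is `v`, so
`F K = F K'` (take the image under `Prod.fst`), hence `A K = A K'` (`IsRun.det`, `NB_subset`). For `v` in `F K`: `info r j B v` is in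
the second image, so it is `info r j B' v'` with `v' = v`: all components agree.
Step 1, `v` in `F K`, `v` in `NB1 r B` (equivalently `v` in `NB1 r B'`, fourth component): `CX B v = CX B' v`. If
`(v \ CX B v).card < j` (same truth value for `B'`, fifth component): `v \ CX B v = v \ CX B' v` and both `CX` are subsets of `v`.
Otherwise `(CX B v).card + j <= v.card = r` and `Dep B (CX B v)` (`CX_dep`), so `CX B v` is in `sml r j B = sml r j B'`, so
`Dep B' (CX B v)`. Then `CX B' v` is contained in `CX B v`: if `y` is in `CX B' v`, some `ex v y z` is in `B'`; if `y` were not in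
`S = CX B v` (a subset of `v`) then `S` is contained in `v - y`, contained in `ex v y z`, contradiction. Symmetric argument for the
other inclusion (the truth value is the same for `B'`).
Step 2: `HX B v = HX B' v`, so `DX B v = DX B' v`. Sixth component; if `(HX B v \ v).card < j` then `HX B v \ v = HX B' v \ v`, and both
contain `v` (`mem_HX`, `mem_DX`: members of `DX` are outside `v`). Otherwise `r + j <= (HX B v).card` and no base of `B` is contained
in `HX B v` (`HX_no_base`), so `HX B v` is in `lrg r j B'`; then `HX B v` is contained in `HX B' v`: if `z` outside `v` is in `HX B v`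
and in `DX B' v` then some `ex v y z` (contained in `HX B v`) is in `B'`, contradiction. Symmetric.
Step 3. Let `X` be in `K`, not in `A K`. By `IsRun.known`: `X` is in `F K = F K'`, a subset of `K'`, or `adj r v X` with `v` in
`F K`; then `X = ex v y z` (`exists_ex`), not in `B`. If `v` is in `NB1`: `rect` for `B` and `B'` with Step 1, 2 gives `X` not in `B'`.
If `v` is not in `NB1 r B'`: no `ex v y z` is in `B'` (`mem_NB1`). So `X` is in `K'`, and not in `A K' = A K`. By symmetry equality. -/

namespace Pool.Agent.H95.FD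

open Pool.Agent.H28.Johnson Pool.Agent.H13.VM

variable {n : ℕ}

private theorem det_CX {r j : ℕ} {B B' : Fam n} (hB : IsMat n r B) (hs : sml r j B = sml r j B')
    {v : Finset (Fin n)} (hv : v ∈ NB1 r B) (hj : ¬ (v \ CX B v).card < j) :
    CX B' v ⊆ CX B v := by
  have hc : v.card = r := (mem_NB.mp (mem_NB1.mp hv).1).1
  have h1 := Finset.card_sdiff_add_card_eq_card (CX_subset B v)
  have h2 : CX B v ∈ sml r j B := mem_sml.mpr ⟨by omega, CX_dep hB hv⟩
  rw [hs] at h2
  have h3 := (mem_sml.mp h2).2
  intro y hy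
  obtain ⟨hyv, z, hz, hB'⟩ := mem_CX.mp hy
  by_contra hyS
  refine h3 _ hB' ?_
  intro w hw
  exact mem_ex.mpr (Or.inr ⟨fun h => hyS (h ▸ hw), CX_subset B v hw⟩)

private theorem det_HX {r j : ℕ} {B B' : Fam n} (hB : IsMat n r B) (hl : lrg r j B = lrg r j B')
    {v : Finset (Fin n)} (hv : v ∈ NB1 r B) (hj : ¬ (HX B v \ v).card < j) :
    HX B v ⊆ HX B' v := by
  have hc : v.card = r := (mem_NB.mp (mem_NB1.mp hv).1).1
  have h1 := Finset.card_sdiff_add_card_eq_card (subset_HX B v)
  have h2 : HX B v ∈ lrg r j B := mem_lrg.mpr ⟨by omega, HX_no_base hB hv⟩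
  rw [hl] at h2
  have h3 := (mem_lrg.mp h2).2
  intro z hz
  rw [mem_HX]
  intro hzD
  obtain ⟨hzv, y, hy, hB'⟩ := mem_DX.mp hzD
  refine h3 _ hB' ?_
  intro w hw
  rcases mem_ex.mp hw with h | ⟨_, h⟩
  · rw [h]; exact hz
  · exact subset_HX B v h

private theorem det_info {r j : ℕ} {B B' : Fam n} (hB : IsMat n r B) (hB' : IsMat n r B')
    (hs : sml r j B = sml r j B') (hl : lrg r j B = lrg r j B') {v : Finset (Fin n)}
    (hi : info r j B v = info r j B' v) (hv : v ∈ NB1 r B) :
    v ∈ NB1 r B' ∧ CX B v = CX B' v ∧ DX B v = DX B' v := by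
  classical
  unfold info at hi
  simp only [Prod.mk.injEq, true_and, decide_eq_decide] at hi
  obtain ⟨e2, e3, e4, e5, e6⟩ := hi
  have hv' : v ∈ NB1 r B' := e4.mp hv
  have hCX : CX B v = CX B' v := by
    by_cases h1 : (v \ CX B v).card < j
    · have h2 := e5.mp h1
      rw [if_pos h1, if_pos h2] at e2
      rw [← Finset.sdiff_sdiff_eq_self (CX_subset B v), e2,
        Finset.sdiff_sdiff_eq_self (CX_subset B' v)]
    · have h2 : ¬ (v \ CX B' v).card < j := fun h => h1 (e5.mpr h)
      exact Finset.Subset.antisymm (det_CX hB' hs.symm hv' h2) (det_CX hB hs hv h1)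
  have hHX : HX B v = HX B' v := by
    by_cases h1 : (HX B v \ v).card < j
    · have h2 := e6.mp h1
      rw [if_pos h1, if_pos h2] at e3
      rw [← Finset.sdiff_union_of_subset (subset_HX B v), e3,
        Finset.sdiff_union_of_subset (subset_HX B' v)]
    · have h2 : ¬ (HX B' v \ v).card < j := fun h => h1 (e6.mpr h)
      exact Finset.Subset.antisymm (det_HX hB hl hv h1) (det_HX hB' hl.symm hv' h2)
  refine ⟨hv', hCX, ?_⟩
  have h5 : (DX B v)ᶜ = (DX B' v)ᶜ := hHX
  exact compl_injective h5

private theorem det_F {r j : ℕ} {F : Fam n → Fam n} {B B' : Fam n}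
    (h : code r j F B = code r j F B') : ∀ v ∈ F (NB r B), v ∈ F (NB r B') ∧
      info r j B v = info r j B' v := by
  classical
  intro v hv
  unfold code at h
  simp only [Prod.mk.injEq] at h
  obtain ⟨_, _, h3⟩ := h
  have h4 : info r j B v ∈ (F (NB r B)).image (info r j B) := Finset.mem_image_of_mem _ hv
  rw [h3] at h4
  obtain ⟨v', hv', h5⟩ := Finset.mem_image.mp h4
  have h6 : v' = v := congrArg Prod.fst h5
  subst h6
  exact ⟨hv', h5.symm⟩

private theorem det_sub {r d q θ j : ℕ} {F A : Fam n → Fam n} (hF : IsRun n r d q θ F A)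
    {B B' : Fam n} (hB : IsMat n r B) (hB' : IsMat n r B') (h : code r j F B = code r j F B')
    (hFF : F (NB r B) = F (NB r B')) (hA : A (NB r B) = A (NB r B')) :
    NB r B \ A (NB r B) ⊆ NB r B' \ A (NB r B') := by
  intro X hX
  obtain ⟨hXK, hXA⟩ := Finset.mem_sdiff.mp hX
  have hs : sml r j B = sml r j B' := congrArg (fun c => c.1) h
  have hl : lrg r j B = lrg r j B' := congrArg (fun c => c.2.1) h
  refine Finset.mem_sdiff.mpr ⟨?_, by rw [← hA]; exact hXA⟩
  obtain ⟨hXc, hXB⟩ := mem_NB.mp hXK
  rcases hF.known _ (NB_subset r B) X hXK hXA with h1 | ⟨v, hv, hadj⟩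
  · rw [hFF] at h1
    exact hF.sub _ (NB_subset r B') h1
  · obtain ⟨hv', hinf⟩ := det_F h v hv
    have hvK : v ∈ NB r B := hF.sub _ (NB_subset r B) hv
    have hvK' : v ∈ NB r B' := hF.sub _ (NB_subset r B') hv'
    obtain ⟨y, hy, z, hz, _, _, rfl⟩ := exists_ex (mem_NB.mp hvK).1 hXc hadj
    refine mem_NB.mpr ⟨hXc, fun hXB' => ?_⟩
    have hv1' : v ∈ NB1 r B' := mem_NB1.mpr ⟨hvK', y, hy, z, hz, hXB'⟩
    obtain ⟨_, hC, hD⟩ := det_info hB' hB hs.symm hl.symm hinf.symm hv1'
    have h7 := (rect hB' hvK' hy hz).mp hXB'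
    rw [hC, hD] at h7
    exact hXB ((rect hB hvK hy hz).mpr h7)

theorem code_det {r d q θ j : ℕ} {F A : Fam n → Fam n} (hF : IsRun n r d q θ F A)
    {B B' : Fam n} (hB : IsMat n r B) (hB' : IsMat n r B') (h : code r j F B = code r j F B') :
    F (NB r B) = F (NB r B') ∧ A (NB r B) = A (NB r B') ∧
      NB r B \ A (NB r B) = NB r B' \ A (NB r B') := by
  have hFF : F (NB r B) = F (NB r B') :=
    Finset.Subset.antisymm (fun v hv => (det_F h v hv).1) (fun v hv => (det_F h.symm v hv).1)
  have hA : A (NB r B) = A (NB r B') :=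
    hF.det _ (NB_subset r B) _ (NB_subset r B') hFF
  exact ⟨hFF, hA, Finset.Subset.antisymm (det_sub hF hB hB' h hFF hA)
    (det_sub hF hB' hB h.symm hFF.symm hA.symm)⟩

end Pool.Agent.H95.FD
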