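import Pool.Agent.H95.FD.Cls
import Pool.Agent.H95.FD.Ext

/-! MODULE Gain (about 110 lines). Many known nonbases give a gain.

PROOF. Let `LL = KK.filter (fun K => (ncl Dc T K).card <= q')`. The map `K -> (K ∩ fre, ncl K)` is injective on `LL` (`eq_of_parts`)
with values in the product of `II = LL.image (fun K => K ∩ fre)` and of the set of subsets of `A` with at most `q'` elements (`ncl K` is
a subset of `und`, a subset of `A`: `ncl_sub`, `und_sub_A`; the number of such subsets is the sum of binomial coefficients: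
`Finset.card_powersetCard` and a biUnion over `i` in `Finset.range (q' + 1)`, compare the end of `sum_choose_le` in
`H28/KW.lean`). So `LL.card <= II.card * sum`. By `ext_card` with `X0 = A`, `V I = Kn`, `a = Kn.card`:
`II.card * 2^(Kn.card / n) <= (stabs r (Base n r)).card`: members of `II` are subsets of `A` (`mem_fre`), in `Base n r`, and stable
(`fre_iso`); `Kn` is a subset of `Base n r` and disjoint from `A` (`kn_sub`, `Sys.kb`; if `LL` is empty the claim is trivial, otherwise
take any `K` in `LL`), not adjacent to members of `fre` (`fre_not_adj_kn`). -/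

open scoped BigOperators

namespace Pool.Agent.H95.FD

open Pool.Agent.H28.Johnson Pool.Agent.H13.VM

variable {n r : ℕ} {Kn A Dc : Fam n} {T : Finset (Fam n)}

open Classical in
private lemma Gain_small (A : Fam n) (q' : ℕ) :
    (A.powerset.filter fun S => S.card ≤ q').card ≤
      ∑ i ∈ Finset.range (q' + 1), A.card.choose i := by
  have hsub : (A.powerset.filter fun S => S.card ≤ q') ⊆
      (Finset.range (q' + 1)).biUnion fun i => A.powersetCard i := by
    intro S hS
    rw [Finset.mem_filter, Finset.mem_powerset] at hS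
    rw [Finset.mem_biUnion]
    exact ⟨S.card, Finset.mem_range.mpr (by omega), Finset.mem_powersetCard.mpr ⟨hS.1, rfl⟩⟩
  refine (Finset.card_le_card hsub).trans (Finset.card_biUnion_le.trans ?_)
  exact Finset.sum_le_sum fun i _ => (Finset.card_powersetCard i A).le

open Classical in
theorem gain (hn : 1 ≤ n) {KK : Finset (Fam n)} (h : ∀ K ∈ KK, Sys r Kn A Dc T K) (q' : ℕ) :
    ((KK.filter fun K => (ncl Dc T K).card ≤ q').card : ℝ) * (2 : ℝ) ^ ((Kn.card : ℝ) / n) ≤
      ((∑ i ∈ Finset.range (q' + 1), A.card.choose i : ℕ) : ℝ) *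
        ((stabs r (Base n r)).card : ℝ) := by
  set LL := KK.filter fun K => (ncl Dc T K).card ≤ q' with hLL
  rcases LL.eq_empty_or_nonempty with hem | ⟨K0, hK0⟩
  · rw [hem, Finset.card_empty, Nat.cast_zero, zero_mul]
    positivity
  have hL : ∀ K ∈ LL, Sys r Kn A Dc T K ∧ (ncl Dc T K).card ≤ q' := fun K hK =>
    ⟨h K (Finset.mem_filter.mp hK).1, (Finset.mem_filter.mp hK).2⟩
  have h0 := (hL K0 hK0).1
  have hkn := kn_sub h0
  set II := LL.image fun K => K ∩ fre r Kn A Dc T with hII
  set PP := A.powerset.filter fun S => S.card ≤ q' with hPP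
  have hcard : LL.card ≤ II.card * PP.card := by
    rw [← Finset.card_product]
    refine Finset.card_le_card_of_injOn (fun K => (K ∩ fre r Kn A Dc T, ncl Dc T K)) ?_ ?_
    · intro K hK
      have hK' := hL K (Finset.mem_coe.mp hK)
      refine Finset.mem_coe.mpr (Finset.mem_product.mpr ⟨?_, ?_⟩)
      · exact Finset.mem_image_of_mem _ (Finset.mem_coe.mp hK)
      · refine Finset.mem_filter.mpr ⟨Finset.mem_powerset.mpr ?_, hK'.2⟩
        intro v hv
        exact und_sub_A hK'.1 (Finset.mem_inter.mp (ncl_sub hK'.1 hv)).2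
    · intro K hK K' hK' he
      have h1 := (hL K (Finset.mem_coe.mp hK)).1
      have h2 := (hL K' (Finset.mem_coe.mp hK')).1
      have he' := Prod.mk.inj he
      exact eq_of_parts h1 h2 he'.1 he'.2
  have hext := ext_card (r := r) hn A II (fun _ => Kn) (Kn.card : ℝ) ?_ ?_ ?_
  · have hP : (PP.card : ℝ) ≤ ((∑ i ∈ Finset.range (q' + 1), A.card.choose i : ℕ) : ℝ) := by
      exact_mod_cast Gain_small A q'
    have hc : (LL.card : ℝ) ≤ (II.card : ℝ) * (PP.card : ℝ) := by exact_mod_cast hcard
    have hpow : (0 : ℝ) ≤ (2 : ℝ) ^ ((Kn.card : ℝ) / n) := by positivity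
    calc (LL.card : ℝ) * (2 : ℝ) ^ ((Kn.card : ℝ) / n)
        ≤ ((II.card : ℝ) * (PP.card : ℝ)) * (2 : ℝ) ^ ((Kn.card : ℝ) / n) :=
          mul_le_mul_of_nonneg_right hc hpow
      _ = (PP.card : ℝ) * ((II.card : ℝ) * (2 : ℝ) ^ ((Kn.card : ℝ) / n)) := by ring
      _ ≤ ((∑ i ∈ Finset.range (q' + 1), A.card.choose i : ℕ) : ℝ) *
          ((stabs r (Base n r)).card : ℝ) :=
          mul_le_mul hP hext (by positivity) (by positivity)
  · intro I hI
    obtain ⟨K, hK, rfl⟩ := Finset.mem_image.mp hI
    have hS := (hL K hK).1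
    refine ⟨mem_stabs.mpr ⟨fun v hv => hS.kb (Finset.mem_inter.mp hv).1, fun a ha b hb => ?_⟩,
      fun v hv => (mem_fre.mp (Finset.mem_inter.mp hv).2).1⟩
    exact fre_iso hS (Finset.mem_inter.mp ha).1 (Finset.mem_inter.mp ha).2
      (Finset.mem_inter.mp hb).1
  · intro I hI
    obtain ⟨K, hK, rfl⟩ := Finset.mem_image.mp hI
    refine ⟨hkn.1.trans h0.kb, hkn.2, fun x hx y hy hadj => ?_⟩
    exact fre_not_adj_kn (Finset.mem_inter.mp hy).2 hx (adj_symm hadj)
  · intro I _
    exact le_refl _

end Pool.Agent.H95.FD
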