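import Pool.Agent.H95.FD.Cls

/-! MODULE Inj (about 90 lines). If the free and the undecided members of all `K` in the family `KK` are in `X0`, there are at most as
many `K` as stable subsets of `X0`.

PROOF. Map `K` to `m K = (K ∩ fre) ∪ ncl K`; `ncl K` is a subset of `K ∩ und` (`ncl_sub`), so `m K` is a subset of `X0` and of
`Base n r` (`Sys.kb`). `m K` is stable: a member of `K ∩ fre` is adjacent to no member of `K` (`fre_iso`, `adj_symm`); two adjacent
members `rp v`, `rp w` of `ncl K` (both in `K ∩ und`) would be tied (`und_adj`), so `rp (rp v) = rp (rp w)` (`rp_eq_iff`), so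
`rp v = rp w` (`rp_rp`), contradiction to `adj_irrefl`. `m` is injective on `KK`: `m K ∩ fre = K ∩ fre` and `m K ∩ und = ncl K` because
`fre` and `und` are disjoint (`fre_und_disj`); then `eq_of_parts`. Conclude with `Finset.card_le_card_of_injOn`. -/

namespace Pool.Agent.H95.FD

open Pool.Agent.H28.Johnson Pool.Agent.H13.VM

variable {n r : ℕ} {Kn A Dc : Fam n} {T : Finset (Fam n)}

theorem card_le_stab {KK : Finset (Fam n)} (h : ∀ K ∈ KK, Sys r Kn A Dc T K) (X0 : Fam n)
    (h0 : ∀ K ∈ KK, K ∩ fre r Kn A Dc T ⊆ X0 ∧ K ∩ und Dc T ⊆ X0) :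
    KK.card ≤ (stabs r (Base n r ∩ X0)).card := by
  classical
  have hncl : ∀ K ∈ KK, ∀ v ∈ ncl Dc T K, v ∈ K ∧ v ∈ und Dc T ∧ rp T v = v := by
    intro K hK v hv
    have h1 := Finset.mem_inter.mp (ncl_sub (h K hK) hv)
    obtain ⟨w, _, rfl⟩ := mem_ncl.mp hv
    exact ⟨h1.1, h1.2, rp_rp⟩
  have hd : ∀ v, v ∈ fre r Kn A Dc T → v ∉ und Dc T :=
    fun v hv => Finset.disjoint_left.mp fre_und_disj hv
  refine Finset.card_le_card_of_injOn (fun K => (K ∩ fre r Kn A Dc T) ∪ ncl Dc T K) ?_ ?_
  · intro K hK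
    have hS := h K hK
    rw [Finset.mem_coe, mem_stabs]
    have hmem : ∀ v ∈ (K ∩ fre r Kn A Dc T) ∪ ncl Dc T K, v ∈ K := by
      intro v hv
      rcases Finset.mem_union.mp hv with h1 | h1
      · exact (Finset.mem_inter.mp h1).1
      · exact (hncl K hK v h1).1
    refine ⟨?_, ?_⟩
    · intro v hv
      refine Finset.mem_inter.mpr ⟨hS.kb (hmem v hv), ?_⟩
      rcases Finset.mem_union.mp hv with h1 | h1
      · exact (h0 K hK).1 h1
      · obtain ⟨h2, h3, _⟩ := hncl K hK v h1
        exact (h0 K hK).2 (Finset.mem_inter.mpr ⟨h2, h3⟩)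
    · intro a ha b hb hab
      have haK := hmem a ha
      have hbK := hmem b hb
      rcases Finset.mem_union.mp ha with h1 | h1
      · exact fre_iso hS haK (Finset.mem_inter.mp h1).2 hbK hab
      · rcases Finset.mem_union.mp hb with h2 | h2
        · exact fre_iso hS hbK (Finset.mem_inter.mp h2).2 haK (adj_symm hab)
        · obtain ⟨_, h3, h4⟩ := hncl K hK a h1
          obtain ⟨_, h5, h6⟩ := hncl K hK b h2
          have h7 := rp_eq_iff.mpr (und_adj hS haK h3 hbK h5 hab)
          rw [h4, h6] at h7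
          subst h7
          exact adj_irrefl _ hab
  · intro K hK K' hK' he
    have he' : (K ∩ fre r Kn A Dc T) ∪ ncl Dc T K = (K' ∩ fre r Kn A Dc T) ∪ ncl Dc T K' := he
    have key : ∀ L ∈ KK, ∀ v, (v ∈ L ∩ fre r Kn A Dc T ↔
        v ∈ (L ∩ fre r Kn A Dc T) ∪ ncl Dc T L ∧ v ∈ fre r Kn A Dc T) ∧
        (v ∈ ncl Dc T L ↔ v ∈ (L ∩ fre r Kn A Dc T) ∪ ncl Dc T L ∧ v ∈ und Dc T) := by
      intro L hL v
      constructor
      · constructor
        · intro h1
          exact ⟨Finset.mem_union_left _ h1, (Finset.mem_inter.mp h1).2⟩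
        · rintro ⟨h1, h2⟩
          rcases Finset.mem_union.mp h1 with h3 | h3
          · exact h3
          · exact absurd (hncl L hL v h3).2.1 (hd v h2)
      · constructor
        · intro h1
          exact ⟨Finset.mem_union_right _ h1, (hncl L hL v h1).2.1⟩
        · rintro ⟨h1, h2⟩
          rcases Finset.mem_union.mp h1 with h3 | h3
          · exact absurd h2 (hd v (Finset.mem_inter.mp h3).2)
          · exact h3
    refine eq_of_parts (h K hK) (h K' hK') ?_ ?_
    · ext v
      rw [(key K hK v).1, (key K' hK' v).1, he']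
    · ext v
      rw [(key K hK v).2, (key K' hK' v).2, he']

end Pool.Agent.H95.FD
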