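import Pool.Agent.H95.FD.Defs
import Pool.Agent.H8.VM.GDefs

/-! MODULE IsoInv (about 70 lines). For a matroid fixed by the permutation `s` the isolated nonbases form a stable family invariant
under `s`.

PROOF. `act s X` (H28, Windows) is the image of `X` under `s` and `wnd I s` the family of the images of the members of `I` (or of the
inverse images: see its definition; the claim is the same because `s` is a bijection of a finite family to itself: if the image of the
finite family `I` under the injective map `X -> X.image s` is contained in `I` then it is equal to `I`). If `B` is invariant, `NB r B` is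
invariant (images of `r`-sets are `r`-sets, `Finset.card_image_of_injective`), adjacency is preserved (`Finset.image_inter` for injective
maps, cardinalities), so the isolated members are mapped to isolated members. Stability: `mem_isoK`. -/

namespace Pool.Agent.H95.FD

open Pool.Agent.H28.Johnson Pool.Agent.H28.Windows Pool.Agent.H13.VM

private theorem act_eq_image {n : ℕ} (s : Equiv.Perm (Fin n)) (X : Finset (Fin n)) :
    act s X = X.image s := by
  classical
  rw [act_apply, Finset.map_eq_image]
  rfl

private theorem act_mem_B {n : ℕ} (s : Equiv.Perm (Fin n)) {B : Fam n}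
    (hs : (B.image fun X => X.image s) = B) (X : Finset (Fin n)) : act s X ∈ B ↔ X ∈ B := by
  classical
  constructor
  · intro h
    rw [← hs, Finset.mem_image] at h
    obtain ⟨Y, hY, h2⟩ := h
    rw [← act_eq_image] at h2
    rwa [← (act s).injective h2]
  · intro h
    rw [← hs, Finset.mem_image]
    exact ⟨X, h, (act_eq_image s X).symm⟩

private theorem act_mem_NB {n r : ℕ} (s : Equiv.Perm (Fin n)) {B : Fam n}
    (hs : (B.image fun X => X.image s) = B) (X : Finset (Fin n)) :
    act s X ∈ NB r B ↔ X ∈ NB r B := by
  rw [mem_NB, mem_NB, card_act, act_mem_B s hs]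

theorem isoK_mem_inv {n r : ℕ} (s : Equiv.Perm (Fin n)) {B : Fam n}
    (hs : (B.image fun X => X.image s) = B) :
    isoK r (NB r B) ∈ Pool.Agent.H8.VM.inv r s := by
  classical
  rw [Pool.Agent.H8.VM.mem_inv]
  constructor
  · rw [mem_stables]
    constructor
    · intro X hX
      exact NB_subset r B (mem_isoK.mp hX).1
    · intro X hX Y hY
      exact (mem_isoK.mp hX).2 Y (mem_isoK.mp hY).1
  · have hsub : wnd (isoK r (NB r B)) s ⊆ isoK r (NB r B) := by
      intro t ht
      obtain ⟨X, hX, rfl⟩ := mem_wnd.mp ht
      obtain ⟨h1, h2⟩ := mem_isoK.mp hX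
      refine mem_isoK.mpr ⟨(act_mem_NB s hs X).mpr h1, fun Y hY => ?_⟩
      obtain ⟨Z, rfl⟩ := (act s).surjective Y
      rw [adj_act]
      exact h2 Z ((act_mem_NB s hs Z).mp hY)
    exact Finset.eq_of_subset_of_card_le hsub (by rw [wnd, Finset.card_map])

end Pool.Agent.H95.FD
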