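import Pool.Agent.H95.FD.Defs

/-! MODULE LC (about 60 lines). Coloops and loops: the free and the undecided members contain the coloop, avoid the loop.

PROOF. Let `z` be in every base (coloop) and `X` in `A`, `z` not in `X`. The set `U` of all elements except `z` has `n - 1 >= r + j` elements
(`num2` and `1 <= d`) and contains no base, so it is in `lrg r j B`, and `X` is contained in it: `X` is in `dec0`, so in
`Dc = decA ...` (`mem_decA`, `mem_dec0`). So `X` is not in `fre` (`mem_fre`), and not in `und` (`mem_und`: `X` is tied to itself,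
`Relation.EqvGen.refl`). Let `z` be in no base (loop) and `X` in `A`, `z` in `X`: `{z}` is dependent with `1 + j <= r` (`num1`, `1 <= d`), so
it is in `sml r j B`, so `X` is in `dec0`. (`X` in `A` is a hypothesis.) -/

namespace Pool.Agent.H95.FD

open Pool.Agent.H28.Johnson Pool.Agent.H13.VM

variable {n r d j : ℕ} {B A Kn : Fam n} {T : Finset (Fam n)} {X : Finset (Fin n)} {z : Fin n}

private theorem notDec {sm lg : Fam n} (hd : X ∈ dec0 A sm lg)
    (hX : X ∈ fre r Kn A (decA r A Kn sm lg) T ∨ X ∈ und (decA r A Kn sm lg) T) : False := by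
  have hD : X ∈ decA r A Kn sm lg := mem_decA.2 (Or.inl hd)
  rcases hX with h | h
  · exact (mem_fre.1 h).2.1 hD
  · exact (mem_und.1 h).2 ⟨X, hD, Relation.EqvGen.refl X⟩

theorem coloop_mem (h : Ctx r d j B A) (hd : 1 ≤ d) (hz : ∀ Y ∈ B, z ∈ Y) (hXA : X ∈ A)
    (hX : X ∈ fre r Kn A (decA r A Kn (sml r j B) (lrg r j B)) T ∨
      X ∈ und (decA r A Kn (sml r j B) (lrg r j B)) T) : z ∈ X := by
  by_contra hzX
  refine notDec (mem_dec0.2 ⟨hXA, Or.inl ⟨Finset.univ.erase z, mem_lrg.2 ⟨?_, ?_⟩, ?_⟩⟩) hX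
  · rw [Finset.card_erase_of_mem (Finset.mem_univ z), Finset.card_univ, Fintype.card_fin]
    have := h.num2
    omega
  · intro Y hY hsub
    exact (Finset.notMem_erase z _) (hsub (hz Y hY))
  · intro w hw
    exact Finset.mem_erase.2 ⟨fun h => hzX (h ▸ hw), Finset.mem_univ w⟩

theorem loop_notMem (h : Ctx r d j B A) (hd : 1 ≤ d) (hz : ∀ Y ∈ B, z ∉ Y) (hXA : X ∈ A)
    (hX : X ∈ fre r Kn A (decA r A Kn (sml r j B) (lrg r j B)) T ∨
      X ∈ und (decA r A Kn (sml r j B) (lrg r j B)) T) : z ∉ X := by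
  intro hzX
  refine notDec (mem_dec0.2 ⟨hXA, Or.inr ⟨{z}, mem_sml.2 ⟨?_, ?_⟩, ?_⟩⟩) hX
  · rw [Finset.card_singleton]
    have := h.num1
    omega
  · intro Y hY hsub
    exact hz Y hY (hsub (Finset.mem_singleton_self z))
  · exact Finset.singleton_subset_iff.2 hzX

end Pool.Agent.H95.FD
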