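import Pool.Agent.H95.FD.Cls

/-! MODULE Pow (about 170 lines). If all ties have at least two elements, then every undecided class contained in `K` gives a factor 2.

PROOF. For `v` in `und` there is a member `al v` of `und`, tied to `v`, different from `rp T v`: `v` is in a tie `t` (`mem_und`,
`mem_allT`) with at least two elements, one of them is different from `rp T v`, and all members of `t` are tied to `v`
(`Relation.EqvGen.rel`), so in `und` (`und_closed`). Choose `al` (a function, `Classical.choose` or `choose`), used only at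
representatives `c = rp T v` of members of `und` (`c` is in `und` by `rp_tied`, `und_closed`; `rp T c = c` by `rp_rp`), so `al c <> c`.
For `K` in `KK` and `S` a subset of `ncl K` let `m (K, S) = (K ∩ fre) ∪ (ncl K \ S) ∪ S.image al`. It is a subset of `K` (`al c` is tied
to `c` in `K`, `tied_mem`), stable: members of `K ∩ fre` are adjacent to no member of `K` (`fre_iso`); two adjacent members of
`K ∩ und` are tied (`und_adj`), but two different members of `(ncl K \ S) ∪ S.image al` have different representatives (each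
`c` in `ncl K` contributes exactly one member, `c` or `al c`, with representative `c`). The pair `(K, S)` is determined by
`M = m (K, S)`: `M ∩ fre = K ∩ fre`, `ncl K = (M ∩ und).image (rp T)`, so `K` is determined (`eq_of_parts`), and
`S = (ncl K) \ M` (for `c` in `S` the only member of `M` in the class of `c` is `al c <> c`). So the number of pairs is at most
`(stabs r (Base n r)).card`: use `Finset.sigma KK (fun K => (ncl Dc T K).powerset)` (`Finset.card_sigma`, `Finset.card_powerset`) and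
`Finset.card_le_card_of_injOn`. -/

open scoped BigOperators

namespace Pool.Agent.H95.FD

open Pool.Agent.H28.Johnson Pool.Agent.H13.VM

variable {n r : ℕ} {Kn A Dc : Fam n} {T : Finset (Fam n)}

theorem pow_le_stab {KK : Finset (Fam n)} (h : ∀ K ∈ KK, Sys r Kn A Dc T K)
    (hT : ∀ τ ∈ T, 2 ≤ τ.card) :
    ∑ K ∈ KK, 2 ^ (ncl Dc T K).card ≤ (stabs r (Base n r)).card := by
  classical
  have hal : ∀ v : Finset (Fin n), ∃ a : Finset (Fin n),
      v ∈ und Dc T → (a ∈ und Dc T ∧ Tied T v a ∧ a ≠ rp T v) := by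
    intro v
    by_cases hv : v ∈ und Dc T
    · obtain ⟨τ, hτ, hvτ⟩ := mem_allT.mp (mem_und.mp hv).1
      obtain ⟨a, ha, hne⟩ := Finset.exists_mem_ne (hT τ hτ) (rp T v)
      have ht : Tied T v a := Relation.EqvGen.rel _ _ ⟨τ, hτ, hvτ, ha⟩
      exact ⟨a, fun _ => ⟨und_closed hv ht, ht, hne⟩⟩
    · exact ⟨v, fun h1 => absurd h1 hv⟩
  choose al hal using hal
  have hncl : ∀ K ∈ KK, ∀ v ∈ ncl Dc T K, v ∈ K ∧ v ∈ und Dc T ∧ rp T v = v := by
    intro K hK v hv
    have h1 := Finset.mem_inter.mp (ncl_sub (h K hK) hv)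
    obtain ⟨w, _, rfl⟩ := mem_ncl.mp hv
    exact ⟨h1.1, h1.2, rp_rp⟩
  have hal' : ∀ K ∈ KK, ∀ v ∈ ncl Dc T K,
      al v ∈ K ∧ al v ∈ und Dc T ∧ rp T (al v) = v ∧ al v ≠ v := by
    intro K hK v hv
    obtain ⟨h1, h2, h3⟩ := hncl K hK v hv
    obtain ⟨h4, h5, h6⟩ := hal v h2
    refine ⟨(tied_mem (h K hK) h5).mp h1, h4, ?_, ?_⟩
    · rw [← rp_eq_iff.mpr h5, h3]
    · rwa [h3] at h6
  have hd : ∀ v, v ∈ fre r Kn A Dc T → v ∉ und Dc T :=
    fun v hv => Finset.disjoint_left.mp fre_und_disj hv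
  let m : ((_ : Fam n) × Fam n) → Fam n := fun x =>
    (x.1 ∩ fre r Kn A Dc T) ∪ ((ncl Dc T x.1 \ x.2) ∪ x.2.image al)
  -- membership
  have hm : ∀ K S v, v ∈ m ⟨K, S⟩ ↔ (v ∈ K ∧ v ∈ fre r Kn A Dc T) ∨
      (v ∈ ncl Dc T K ∧ v ∉ S) ∨ ∃ c ∈ S, al c = v := by
    intro K S v
    show v ∈ (K ∩ fre r Kn A Dc T) ∪ ((ncl Dc T K \ S) ∪ S.image al) ↔ _
    rw [Finset.mem_union, Finset.mem_union, Finset.mem_inter, Finset.mem_sdiff, Finset.mem_image]
  -- the free part
  have hfre : ∀ K ∈ KK, ∀ S ⊆ ncl Dc T K, ∀ v, (v ∈ K ∧ v ∈ fre r Kn A Dc T) ↔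
      (v ∈ m ⟨K, S⟩ ∧ v ∈ fre r Kn A Dc T) := by
    intro K hK S hS v
    constructor
    · rintro ⟨h1, h2⟩
      exact ⟨(hm K S v).mpr (Or.inl ⟨h1, h2⟩), h2⟩
    · rintro ⟨h1, h2⟩
      rcases (hm K S v).mp h1 with h3 | ⟨h3, _⟩ | ⟨c, hc, h3⟩
      · exact h3
      · exact absurd (hncl K hK v h3).2.1 (hd v h2)
      · subst h3
        exact absurd (hal' K hK c (hS hc)).2.1 (hd _ h2)
  -- the undecided part
  have hund : ∀ K ∈ KK, ∀ S ⊆ ncl Dc T K, ∀ v, v ∈ m ⟨K, S⟩ → v ∈ und Dc T →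
      rp T v ∈ ncl Dc T K ∧ ((rp T v ∉ S ∧ v = rp T v) ∨ (rp T v ∈ S ∧ v = al (rp T v))) := by
    intro K hK S hS v h1 h2
    rcases (hm K S v).mp h1 with ⟨_, h3⟩ | ⟨h3, h4⟩ | ⟨c, hc, h3⟩
    · exact absurd h2 (hd v h3)
    · have h5 := (hncl K hK v h3).2.2
      rw [h5]
      exact ⟨h3, Or.inl ⟨h4, rfl⟩⟩
    · subst h3
      have h5 := (hal' K hK c (hS hc)).2.2.1
      rw [h5]
      exact ⟨hS hc, Or.inr ⟨hc, rfl⟩⟩
  have hall : ∀ K ∈ KK, ∀ S ⊆ ncl Dc T K, ∀ v, v ∈ m ⟨K, S⟩ →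
      v ∈ K ∧ (v ∈ fre r Kn A Dc T ∨ v ∈ und Dc T) := by
    intro K hK S hS v h1
    rcases (hm K S v).mp h1 with ⟨h2, h3⟩ | ⟨h3, _⟩ | ⟨c, hc, h3⟩
    · exact ⟨h2, Or.inl h3⟩
    · obtain ⟨h4, h5, _⟩ := hncl K hK v h3
      exact ⟨h4, Or.inr h5⟩
    · subst h3
      obtain ⟨h4, h5, _⟩ := hal' K hK c (hS hc)
      exact ⟨h4, Or.inr h5⟩
  have hnclm : ∀ K ∈ KK, ∀ S ⊆ ncl Dc T K, ∀ c, c ∈ ncl Dc T K ↔
      ∃ v, v ∈ m ⟨K, S⟩ ∧ v ∈ und Dc T ∧ rp T v = c := by
    intro K hK S hS c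
    constructor
    · intro hc
      by_cases hcS : c ∈ S
      · obtain ⟨_, h2, h3, _⟩ := hal' K hK c hc
        exact ⟨al c, (hm K S _).mpr (Or.inr (Or.inr ⟨c, hcS, rfl⟩)), h2, h3⟩
      · obtain ⟨_, h2, h3⟩ := hncl K hK c hc
        exact ⟨c, (hm K S _).mpr (Or.inr (Or.inl ⟨hc, hcS⟩)), h2, h3⟩
    · rintro ⟨v, h1, h2, rfl⟩
      exact (hund K hK S hS v h1 h2).1
  have hSm : ∀ K ∈ KK, ∀ S ⊆ ncl Dc T K, ∀ c, c ∈ S ↔ (c ∈ ncl Dc T K ∧ c ∉ m ⟨K, S⟩) := by
    intro K hK S hS c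
    constructor
    · intro hc
      refine ⟨hS hc, fun h1 => ?_⟩
      obtain ⟨_, h2, h3⟩ := hncl K hK c (hS hc)
      have h4 := hund K hK S hS c h1 h2
      rw [h3] at h4
      rcases h4.2 with ⟨h5, _⟩ | ⟨_, h5⟩
      · exact h5 hc
      · exact (hal' K hK c (hS hc)).2.2.2 h5.symm
    · rintro ⟨h1, h2⟩
      by_contra h3
      exact h2 ((hm K S c).mpr (Or.inr (Or.inl ⟨h1, h3⟩)))
  have hle : (KK.sigma fun K => (ncl Dc T K).powerset).card ≤ (stabs r (Base n r)).card := by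
    refine Finset.card_le_card_of_injOn m ?_ ?_
    · rintro ⟨K, S⟩ hx
      rw [Finset.mem_coe, Finset.mem_sigma, Finset.mem_powerset] at hx
      obtain ⟨hK, hS⟩ := hx
      have hSys := h K hK
      rw [Finset.mem_coe, mem_stabs]
      refine ⟨fun v hv => hSys.kb (hall K hK S hS v hv).1, ?_⟩
      intro a ha b hb hab
      obtain ⟨haK, ha'⟩ := hall K hK S hS a ha
      obtain ⟨hbK, hb'⟩ := hall K hK S hS b hb
      rcases ha' with h1 | h1
      · exact fre_iso hSys haK h1 hbK hab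
      · rcases hb' with h2 | h2
        · exact fre_iso hSys hbK h2 haK (adj_symm hab)
        · have h3 := rp_eq_iff.mpr (und_adj hSys haK h1 hbK h2 hab)
          obtain ⟨_, h4⟩ := hund K hK S hS a ha h1
          obtain ⟨_, h5⟩ := hund K hK S hS b hb h2
          rw [← h3] at h5
          have h6 : a = b := by
            rcases h4 with ⟨h4, h4'⟩ | ⟨h4, h4'⟩
            · rcases h5 with ⟨_, h5'⟩ | ⟨h5, _⟩
              · rw [h4', h5']
              · exact absurd h5 h4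
            · rcases h5 with ⟨h5, _⟩ | ⟨_, h5'⟩
              · exact absurd h4 h5
              · rw [h4', h5']
          subst h6
          exact adj_irrefl _ hab
    · rintro ⟨K, S⟩ hx ⟨K', S'⟩ hx' he
      rw [Finset.mem_coe, Finset.mem_sigma, Finset.mem_powerset] at hx hx'
      obtain ⟨hK, hS⟩ := hx
      obtain ⟨hK', hS'⟩ := hx'
      have hn : ncl Dc T K = ncl Dc T K' := by
        ext c
        rw [hnclm K hK S hS c, hnclm K' hK' S' hS' c, he]
      have hKK : K = K' := by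
        refine eq_of_parts (h K hK) (h K' hK') ?_ hn
        ext v
        rw [Finset.mem_inter, Finset.mem_inter, hfre K hK S hS v, hfre K' hK' S' hS' v, he]
      subst hKK
      have hSS : S = S' := by
        ext c
        rw [hSm K hK S hS c, hSm K hK' S' hS' c, he]
      rw [hSS]
  rw [Finset.card_sigma] at hle
  simpa only [Finset.card_powerset] using hle

end Pool.Agent.H95.FD
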