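import Pool.Agent.H95.FD.Defs
import Pool.Agent.H13.VM.A3

/-! MODULE LnU (about 150 lines). Analysis of the lines `U` in `lnU` (see Defs: `U` has `r + 1` elements, the line meets `A`, all
members `U - y` outside `A` are nonbases). Write `Kn = NB r B \ A`, `Ys = Ys A U`, `XU = U \ Ys`, `T = TU A (sml r j B) U`.
(The dual of the module LnI.)

PROOFS. `XU_card`: let `U - y0` be a member in `A`, `S` = the members `U - y` in `A` with `y <> y0`; all of them are adjacent to
`U - y0` (`adj_erase_erase`), so `S.card < d` (`Ctx.deg`); the elements of `XU` are `y0` and the positions of `S`.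
`Ys_nonempty`: `U.card = r + 1 > d`, `num1`.
`mem_TU_iff`: `((XU A U).erase y).card + j <= d + j <= r` (`num1`), so `(XU A U).erase y` is in `sml` iff it is dependent.
`notB_of_notMem_TU`: if `y` is not in `T` then `(XU A U).erase y` is dependent, and it is contained in `U.erase y`.
`fullU_of_inter`: let `y1` be in `T` and in `Ys`. Suppose `U.erase x` is in `B`, `x` in `U`. Then `x` is not in `Ys` (those members are in
`Kn`), and `no_base_dual` (A3) with this `x` and `Y = Ys` says that no base contains `U \ Ys = XU A U`; but `(XU A U).erase y1 = XU A U`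
(as `y1` is in `Ys`) is contained in a base, contradiction.
`fullU_of_nonbase`: let `y` be in `T` and `U.erase y` not in `B`. Suppose `U.erase x` in `B`; `x <> y`, `x` not in `Ys`;
`no_base_dual` with `Y = insert y Ys`: no base contains `U \ Y = (XU A U).erase y`, contradiction.
`TU_dep`: let `T` be nonempty and disjoint from `Ys`. `XU A U` is dependent: choose `y1` in `Ys`; it is not in `T`, and
`(XU A U).erase y1 = XU A U`. Take `y0` in `T` (so `y0` is in `U`, not in `Ys`, in `XU A U`) and a base `B1` containing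
`(XU A U).erase y0`; `y0` is not in `B1`; let `U1 = insert y0 B1`, it contains `XU A U`. For every `w` in `U1`, `w` not in `T`:
`U1.erase w` is not in `B`: if `w` is not in `XU A U` then `U1.erase w` contains the dependent set `XU A U`; if `w` is in `XU A U` then
(`w` in `U`, `w` not in `T`) `(XU A U).erase w` is dependent and contained in `U1.erase w`. `no_base_dual` (A3) with `U1`, `x = y0`
(`U1.erase y0 = B1`) and `Y = Tᶜ`: no base contains `U1 \ Tᶜ`, a subset of `T`; so no base contains `T`. -/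

namespace Pool.Agent.H95.FD

open Pool.Agent.H28.Johnson Pool.Agent.H13.VM

variable {n r d j : ℕ} {B A : Fam n} {U : Finset (Fin n)} {y : Fin n}

theorem XU_card (h : Ctx r d j B A) (hU : U ∈ lnU r A (NB r B \ A)) : (XU A U).card ≤ d := by
  classical
  obtain ⟨hc, ⟨y0, hy0, hA0⟩, _⟩ := mem_lnU.1 hU
  have h0 : y0 ∈ XU A U := mem_XU.2 ⟨hy0, fun hy => (mem_Ys.1 hy).2 hA0⟩
  have h1 := h.deg _ hA0 (((XU A U).erase y0).image fun y => U.erase y) (by
    intro w hw
    rw [Finset.mem_image] at hw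
    obtain ⟨y, hy, rfl⟩ := hw
    have hy' := mem_XU.1 (Finset.mem_of_mem_erase hy)
    by_contra hc
    exact hy'.2 (mem_Ys.2 ⟨hy'.1, hc⟩)) (by
    intro w hw
    rw [Finset.mem_image] at hw
    obtain ⟨y, hy, rfl⟩ := hw
    rw [Finset.mem_erase] at hy
    exact adj_erase_erase hc hy0 (mem_XU.1 hy.2).1 (Ne.symm hy.1))
  rw [Finset.card_image_of_injOn, Finset.card_erase_of_mem h0] at h1
  · omega
  · intro a ha b hb hab
    have ha' := (mem_XU.1 (Finset.mem_of_mem_erase (Finset.mem_coe.1 ha))).1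
    have hb' := (mem_XU.1 (Finset.mem_of_mem_erase (Finset.mem_coe.1 hb))).1
    exact Finset.erase_injOn U (Finset.mem_coe.2 ha') (Finset.mem_coe.2 hb') hab

theorem Ys_nonempty (h : Ctx r d j B A) (hU : U ∈ lnU r A (NB r B \ A)) : (Ys A U).Nonempty := by
  rw [Finset.nonempty_iff_ne_empty]
  intro h0
  have h1 := XU_card h hU
  have h2 := (mem_lnU.1 hU).1
  have h3 := h.num1
  rw [XU, h0, Finset.sdiff_empty, h2] at h1
  omega

theorem mem_TU_iff (h : Ctx r d j B A) (hU : U ∈ lnU r A (NB r B \ A)) (hy : y ∈ U) :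
    y ∈ TU A (sml r j B) U ↔ ∃ X ∈ B, (XU A U).erase y ⊆ X := by
  rw [mem_TU, mem_sml]
  have h1 := XU_card h hU
  have h2 := h.num1
  have h3 : ((XU A U).erase y).card ≤ (XU A U).card := Finset.card_erase_le
  have h4 : ((XU A U).erase y).card + j ≤ r := by omega
  constructor
  · rintro ⟨_, h5⟩
    by_contra hc
    push Not at hc
    exact h5 ⟨h4, hc⟩
  · rintro ⟨X, hX, hs⟩
    exact ⟨hy, fun h5 => h5.2 X hX hs⟩

theorem notB_of_notMem_TU (h : Ctx r d j B A) (hU : U ∈ lnU r A (NB r B \ A)) (hy : y ∈ U)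
    (hT : y ∉ TU A (sml r j B) U) : U.erase y ∉ B := by
  intro hB
  refine hT ((mem_TU_iff h hU hy).2 ⟨_, hB, ?_⟩)
  exact Finset.erase_subset_erase y fun w hw => (mem_XU.1 hw).1

private lemma notB_Ys (hU : U ∈ lnU r A (NB r B \ A)) (hy : y ∈ Ys A U) : U.erase y ∉ B :=
  (mem_NB.1 (Finset.mem_sdiff.1 ((mem_lnU.1 hU).2.2 y hy)).1).2

private lemma erase_XU (hy : y ∈ Ys A U) : (XU A U).erase y = XU A U :=
  Finset.erase_eq_of_notMem fun hc => (mem_XU.1 hc).2 hy

theorem fullU_of_inter (h : Ctx r d j B A) (hU : U ∈ lnU r A (NB r B \ A))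
    (hT : ¬ Disjoint (TU A (sml r j B) U) (Ys A U)) : ∀ x ∈ U, U.erase x ∉ B := by
  intro x hx hB
  rw [Finset.not_disjoint_iff] at hT
  obtain ⟨y1, hy1, hy1'⟩ := hT
  have hYs : ∀ y ∈ Ys A U, y ∈ U → U.erase y ∉ B := fun y hy _ => notB_Ys hU hy
  have hxY : x ∉ Ys A U := fun hc => notB_Ys hU hc hB
  obtain ⟨X, hX, hs⟩ := (mem_TU_iff h hU (mem_Ys.1 hy1').1).1 hy1
  rw [erase_XU hy1'] at hs
  exact no_base_dual h.mat hx hxY hB hYs X hX hs

theorem fullU_of_nonbase (h : Ctx r d j B A) (hU : U ∈ lnU r A (NB r B \ A))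
    (hy : y ∈ TU A (sml r j B) U) (hyB : U.erase y ∉ B) : ∀ x ∈ U, U.erase x ∉ B := by
  intro x hx hB
  have hxy : x ≠ y := fun hc => hyB (hc ▸ hB)
  have hxY : x ∉ insert y (Ys A U) := by
    rw [Finset.mem_insert]
    rintro (hc | hc)
    · exact hxy hc
    · exact notB_Ys hU hc hB
  obtain ⟨X, hX, hs⟩ := (mem_TU_iff h hU (mem_TU.1 hy).1).1 hy
  refine no_base_dual h.mat hx hxY hB ?_ X hX ?_
  · intro z hz _
    rw [Finset.mem_insert] at hz
    rcases hz with rfl | hz
    · exact hyB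
    · exact notB_Ys hU hz
  · intro z hz
    rw [Finset.mem_sdiff, Finset.mem_insert, not_or] at hz
    exact hs (Finset.mem_erase.2 ⟨hz.2.1, mem_XU.2 ⟨hz.1, hz.2.2⟩⟩)

theorem TU_dep (h : Ctx r d j B A) (hU : U ∈ lnU r A (NB r B \ A))
    (hT : (TU A (sml r j B) U).Nonempty) (hd : Disjoint (TU A (sml r j B) U) (Ys A U)) :
    Dep B (TU A (sml r j B) U) := by
  have hXd : ∀ X ∈ B, ¬ XU A U ⊆ X := by
    intro X hX hs
    obtain ⟨y1, hy1⟩ := Ys_nonempty h hU
    have h1 : y1 ∉ TU A (sml r j B) U := fun hc => (Finset.disjoint_left.1 hd) hc hy1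
    refine h1 ((mem_TU_iff h hU (mem_Ys.1 hy1).1).2 ⟨X, hX, ?_⟩)
    rw [erase_XU hy1]
    exact hs
  have hTd : ∀ w ∈ XU A U, w ∉ TU A (sml r j B) U → ∀ X ∈ B, ¬ (XU A U).erase w ⊆ X := by
    intro w hw hwT X hX hs
    exact hwT ((mem_TU_iff h hU (mem_XU.1 hw).1).2 ⟨X, hX, hs⟩)
  obtain ⟨y0, hy0⟩ := hT
  have hy0U := (mem_TU.1 hy0).1
  have hy0Y : y0 ∉ Ys A U := fun hc => (Finset.disjoint_left.1 hd) hy0 hc
  have hy0X : y0 ∈ XU A U := mem_XU.2 ⟨hy0U, hy0Y⟩
  obtain ⟨B1, hB1, hs1⟩ := (mem_TU_iff h hU hy0U).1 hy0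
  have hXs : XU A U ⊆ insert y0 B1 := by
    intro z hz
    rw [Finset.mem_insert]
    by_cases hzy : z = y0
    · exact Or.inl hzy
    · exact Or.inr (hs1 (Finset.mem_erase.2 ⟨hzy, hz⟩))
  have hy0B : y0 ∉ B1 := by
    intro hc
    rw [Finset.insert_eq_self.2 hc] at hXs
    exact hXd B1 hB1 hXs
  have hkey := no_base_dual h.mat (U := insert y0 B1) (Y := (TU A (sml r j B) U)ᶜ) (x := y0)
    (Finset.mem_insert_self _ _) (by rw [Finset.mem_compl, not_not]; exact hy0)
    (by rw [Finset.erase_insert hy0B]; exact hB1) (by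
      intro w hw hwU hwB
      rw [Finset.mem_compl] at hw
      by_cases hwX : w ∈ XU A U
      · exact hTd w hwX hw _ hwB (Finset.erase_subset_erase w hXs)
      · refine hXd _ hwB fun z hz => Finset.mem_erase.2 ⟨?_, hXs hz⟩
        rintro rfl
        exact hwX hz)
  intro X hX hs
  refine hkey X hX fun z hz => hs ?_
  rw [Finset.mem_sdiff, Finset.mem_compl, not_not] at hz
  exact hz.2

end Pool.Agent.H95.FD
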