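import Pool.Agent.H95.FD.LnI
import Pool.Agent.H95.FD.LnU
import Pool.Agent.H13.VM.A2
import Pool.Agent.H13.VM.A2

/-! MODULE SysOf (about 220 lines). The nonbases of a matroid satisfy the abstract system `Sys` (see Defs), and the ties have the
sizes of codependent or dependent sets. Write `Kn = NB r B \ A`, `sm = sml r j B`, `lg = lrg r j B`.

PROOF of `sys_of`. `kb`: `NB_subset`. `ab`: `h.sub`. `kn`: `rfl`. `dcA`: clear from `mem_dec0`, `mem_decI`, `mem_decU`.
`dcK`: members of `A` are `r`-sets (`h.sub`, `mem_Base`); if `w` is contained in `U` in `lg` or contains `S` in `sm`, then `w` is not in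
`B`; for `decI`: `w = insert z I` with `z` not in `TI` (`notB_of_notMem_TI`) or `TI` meets `Zs` (`full_of_inter`); for `decU`:
`notB_of_notMem_TU`, `fullU_of_inter`.
`tie`: for a tie of `I` in `lnI`, `TI` nonempty and disjoint from `Zs`: members `insert z I` with `z` in `TI`, so `z` is not in `I` and not
in `Zs`, so `insert z I` is in `A`; nonempty; `Zs_nonempty` gives `z1` in `Zs`, `insert z1 I` is in `Kn` (`mem_lnI`) and adjacent
(`adj_insert_insert`, `z <> z1`). Same for `lnU` with `Ys_nonempty`, `adj_erase_erase`.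
`tieK`: if some member `insert z I` (`z` in `TI`) is a nonbase then the whole line consists of nonbases (`full_of_nonbase`), so all
members of the tie (`r`-sets) are in `NB r B`. Otherwise no member is in `NB r B`. Same for `lnU`.
`nb1`: `v` in `K`, `v` in `A`, `u` in `K`, adjacent. `local_test` (A2): `v` inter `u` is in `fullI` or `v` union `u` is in `fullU`. Case
`I = v` inter `u` in `fullI`: `I.card + 1 = r`, `v = insert z I` with `z` not in `I` (`exists_ex`: `u = ex v y z'`, `I = v.erase y`,
`v = insert y I`, lemma `inter_ex`). `I` is in `lnI r A Kn`: the line meets `A` in `v`, and for `z'` in `Zs` the `r`-set `insert z' I` is a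
nonbase outside `A`. If `y` is not in `TI` or `TI` meets `Zs`: `v` is in `decI`. Otherwise `v` is in the tie of `I`. Same for `fullU`.
`nb2`: the same with `u = insert z' I` also in `A`: if `z'` is not in `TI` then `u` is in `decI`; otherwise both are in the tie of `I`.

PROOF of `tie_size`. A tie of `I` is the image of `TI` under `z -> insert z I`, injective on `TI` (its elements are not in `I`), and
`TI` is codependent (`TI_codep`), so it has at least `g` elements; a tie of `U` is the image of `TU` under `y -> U.erase y` (injective on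
`U`) and `TU` is dependent (`TU_dep`). -/

namespace Pool.Agent.H95.FD

open Pool.Agent.H28.Johnson Pool.Agent.H13.VM

variable {n r d j : ℕ} {B A : Fam n}

private lemma so_lnI {I : Finset (Fin n)} {z : Fin n} (hI : I ∈ fullI r B) (hz : z ∉ I)
    (hA : insert z I ∈ A) : I ∈ lnI r A (NB r B \ A) := by
  classical
  rw [mem_fullI] at hI
  rw [mem_lnI]
  refine ⟨hI.1, ⟨z, hz, hA⟩, fun w hw => ?_⟩
  rw [mem_Zs] at hw
  rw [Finset.mem_sdiff, mem_NB, Finset.card_insert_of_notMem hw.1]
  exact ⟨⟨hI.1, hI.2 w hw.1⟩, hw.2⟩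

private lemma so_lnU {U : Finset (Fin n)} {y : Fin n} (hU : U ∈ fullU r B) (hy : y ∈ U)
    (hA : U.erase y ∈ A) : U ∈ lnU r A (NB r B \ A) := by
  classical
  rw [mem_fullU] at hU
  rw [mem_lnU]
  refine ⟨hU.1, ⟨y, hy, hA⟩, fun w hw => ?_⟩
  rw [mem_Ys] at hw
  rw [Finset.mem_sdiff, mem_NB, Finset.card_erase_of_mem hw.1, hU.1]
  exact ⟨⟨rfl, hU.2 w hw.1⟩, hw.2⟩

private lemma so_memI {I : Finset (Fin n)} {z : Fin n} (hI : I ∈ fullI r B) (hz : z ∉ I)
    (hA : insert z I ∈ A) :
    insert z I ∈ decA r A (NB r B \ A) (sml r j B) (lrg r j B) ∨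
      (z ∈ TI A (lrg r j B) I ∧ Disjoint (TI A (lrg r j B) I) (Zs A I)) := by
  classical
  by_cases h1 : z ∈ TI A (lrg r j B) I
  · by_cases h2 : Disjoint (TI A (lrg r j B) I) (Zs A I)
    · exact Or.inr ⟨h1, h2⟩
    · left
      rw [mem_decA]
      right; left
      rw [mem_decI]
      exact ⟨hA, I, so_lnI hI hz hA, z, hz, rfl, Or.inr h2⟩
  · left
    rw [mem_decA]
    right; left
    rw [mem_decI]
    exact ⟨hA, I, so_lnI hI hz hA, z, hz, rfl, Or.inl h1⟩

private lemma so_memU {U : Finset (Fin n)} {y : Fin n} (hU : U ∈ fullU r B) (hy : y ∈ U)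
    (hA : U.erase y ∈ A) :
    U.erase y ∈ decA r A (NB r B \ A) (sml r j B) (lrg r j B) ∨
      (y ∈ TU A (sml r j B) U ∧ Disjoint (TU A (sml r j B) U) (Ys A U)) := by
  classical
  by_cases h1 : y ∈ TU A (sml r j B) U
  · by_cases h2 : Disjoint (TU A (sml r j B) U) (Ys A U)
    · exact Or.inr ⟨h1, h2⟩
    · left
      rw [mem_decA]
      right; right
      rw [mem_decU]
      exact ⟨hA, U, so_lnU hU hy hA, y, hy, rfl, Or.inr h2⟩
  · left
    rw [mem_decA]
    right; right
    rw [mem_decU]
    exact ⟨hA, U, so_lnU hU hy hA, y, hy, rfl, Or.inl h1⟩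

private lemma so_tieI {I : Finset (Fin n)} (hI : I ∈ lnI r A (NB r B \ A)) {z : Fin n}
    (hz : z ∈ TI A (lrg r j B) I) (hd : Disjoint (TI A (lrg r j B) I) (Zs A I)) :
    ((TI A (lrg r j B) I).image fun z => insert z I) ∈
      ties r A (NB r B \ A) (sml r j B) (lrg r j B) := by
  rw [mem_ties]
  left
  rw [mem_tieI]
  exact ⟨I, hI, ⟨z, hz⟩, hd, rfl⟩

private lemma so_tieU {U : Finset (Fin n)} (hU : U ∈ lnU r A (NB r B \ A)) {y : Fin n}
    (hy : y ∈ TU A (sml r j B) U) (hd : Disjoint (TU A (sml r j B) U) (Ys A U)) :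
    ((TU A (sml r j B) U).image fun y => U.erase y) ∈
      ties r A (NB r B \ A) (sml r j B) (lrg r j B) := by
  rw [mem_ties]
  right
  rw [mem_tieU]
  exact ⟨U, hU, ⟨y, hy⟩, hd, rfl⟩

theorem sys_of (h : Ctx r d j B A) : SysB r j A B B := by
  classical
  have hcardA : ∀ w ∈ A, w.card = r := fun w hw => mem_Base.mp (h.sub hw)
  refine ⟨NB_subset r B, h.sub, rfl, ?_, ?_, ?_, ?_, ?_, ?_⟩
  · -- dcA
    intro w hw
    rcases mem_decA.mp hw with hw | hw | hw
    · exact (mem_dec0.mp hw).1
    · exact (mem_decI.mp hw).1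
    · exact (mem_decU.mp hw).1
  · -- dcK
    intro w hw
    rw [mem_NB]
    rcases mem_decA.mp hw with hw | hw | hw
    · obtain ⟨hwA, hw⟩ := mem_dec0.mp hw
      refine ⟨hcardA w hwA, fun hwB => ?_⟩
      rcases hw with ⟨U, hU, hwU⟩ | ⟨S, hS, hSw⟩
      · exact (mem_lrg.mp hU).2 w hwB hwU
      · exact (mem_sml.mp hS).2 w hwB hSw
    · obtain ⟨hwA, I, hI, z, hz, rfl, hT⟩ := mem_decI.mp hw
      refine ⟨hcardA _ hwA, ?_⟩
      rcases hT with hT | hT
      · exact notB_of_notMem_TI h hI hz hT
      · exact full_of_inter h hI hT z hz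
    · obtain ⟨hwA, U, hU, y, hy, rfl, hT⟩ := mem_decU.mp hw
      refine ⟨hcardA _ hwA, ?_⟩
      rcases hT with hT | hT
      · exact notB_of_notMem_TU h hU hy hT
      · exact fullU_of_inter h hU hT y hy
  · -- tie
    intro τ hτ
    rcases mem_ties.mp hτ with hτ | hτ
    · obtain ⟨I, hI, hne, hd, rfl⟩ := mem_tieI.mp hτ
      have hI' := mem_lnI.mp hI
      refine ⟨?_, hne.image _, ?_⟩
      · intro w hw
        obtain ⟨z, hz, rfl⟩ := Finset.mem_image.mp hw
        have hzI := (mem_TI.mp hz).1
        by_contra hcon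
        exact Finset.disjoint_left.mp hd hz (mem_Zs.mpr ⟨hzI, hcon⟩)
      · intro w hw
        obtain ⟨z, hz, rfl⟩ := Finset.mem_image.mp hw
        have hzI := (mem_TI.mp hz).1
        obtain ⟨z1, hz1⟩ := Zs_nonempty h hI
        refine ⟨insert z1 I, hI'.2.2 z1 hz1,
          adj_insert_insert hI'.1 hzI (mem_Zs.mp hz1).1 ?_⟩
        rintro rfl
        exact Finset.disjoint_left.mp hd hz hz1
    · obtain ⟨U, hU, hne, hd, rfl⟩ := mem_tieU.mp hτ
      have hU' := mem_lnU.mp hU
      refine ⟨?_, hne.image _, ?_⟩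
      · intro w hw
        obtain ⟨y, hy, rfl⟩ := Finset.mem_image.mp hw
        have hyU := (mem_TU.mp hy).1
        by_contra hcon
        exact Finset.disjoint_left.mp hd hy (mem_Ys.mpr ⟨hyU, hcon⟩)
      · intro w hw
        obtain ⟨y, hy, rfl⟩ := Finset.mem_image.mp hw
        have hyU := (mem_TU.mp hy).1
        obtain ⟨y1, hy1⟩ := Ys_nonempty h hU
        refine ⟨U.erase y1, hU'.2.2 y1 hy1,
          adj_erase_erase hU'.1 hyU (mem_Ys.mp hy1).1 ?_⟩
        rintro rfl
        exact Finset.disjoint_left.mp hd hy hy1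
  · -- tieK
    intro τ hτ
    rcases mem_ties.mp hτ with hτ | hτ
    · obtain ⟨I, hI, hne, hd, rfl⟩ := mem_tieI.mp hτ
      have hI' := mem_lnI.mp hI
      by_cases hex : ∃ z ∈ TI A (lrg r j B) I, insert z I ∉ B
      · obtain ⟨z, hz, hzB⟩ := hex
        have hfull := full_of_nonbase h hI hz hzB
        left
        intro w hw
        obtain ⟨x, hx, rfl⟩ := Finset.mem_image.mp hw
        have hxI := (mem_TI.mp hx).1
        rw [mem_NB, Finset.card_insert_of_notMem hxI]
        exact ⟨hI'.1, hfull x hxI⟩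
      · right
        intro w hw hwN
        obtain ⟨x, hx, rfl⟩ := Finset.mem_image.mp hw
        exact hex ⟨x, hx, (mem_NB.mp hwN).2⟩
    · obtain ⟨U, hU, hne, hd, rfl⟩ := mem_tieU.mp hτ
      have hU' := mem_lnU.mp hU
      by_cases hex : ∃ y ∈ TU A (sml r j B) U, U.erase y ∉ B
      · obtain ⟨y, hy, hyB⟩ := hex
        have hfull := fullU_of_nonbase h hU hy hyB
        left
        intro w hw
        obtain ⟨x, hx, rfl⟩ := Finset.mem_image.mp hw
        have hxU := (mem_TU.mp hx).1
        rw [mem_NB, Finset.card_erase_of_mem hxU, hU'.1]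
        exact ⟨rfl, hfull x hxU⟩
      · right
        intro w hw hwN
        obtain ⟨x, hx, rfl⟩ := Finset.mem_image.mp hw
        exact hex ⟨x, hx, (mem_NB.mp hwN).2⟩
  · -- nb1
    intro v hv hvA u hu hadj
    have hvc := (mem_NB.mp hv).1
    have huc := (mem_NB.mp hu).1
    obtain ⟨y, hy, z, hz, _, _, rfl⟩ := exists_ex hvc huc hadj
    have hyz : y ≠ z := ne_of_mem_notMem hy hz
    rcases local_test' h.mat hv hy hz (mem_NB.mp hu).2 with hf | hf
    · have hyI : y ∉ v.erase y := Finset.notMem_erase _ _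
      have hins : insert y (v.erase y) = v := Finset.insert_erase hy
      have hA : insert y (v.erase y) ∈ A := by rw [hins]; exact hvA
      rcases so_memI (j := j) hf hyI hA with h1 | ⟨h1, h2⟩
      · left
        rw [hins] at h1
        exact h1
      · right
        refine ⟨_, so_tieI (so_lnI hf hyI hA) h1 h2, ?_⟩
        exact Finset.mem_image.mpr ⟨y, h1, hins⟩
    · have hzU : z ∈ insert z v := Finset.mem_insert_self _ _
      have hera : (insert z v).erase z = v := Finset.erase_insert hz
      have hA : (insert z v).erase z ∈ A := by rw [hera]; exact hvA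
      rcases so_memU (j := j) hf hzU hA with h1 | ⟨h1, h2⟩
      · left
        rw [hera] at h1
        exact h1
      · right
        refine ⟨_, so_tieU (so_lnU hf hzU hA) h1 h2, ?_⟩
        exact Finset.mem_image.mpr ⟨z, h1, hera⟩
  · -- nb2
    intro v hv hvA u hu huA hadj
    have hvc := (mem_NB.mp hv).1
    have huc := (mem_NB.mp hu).1
    obtain ⟨y, hy, z, hz, _, _, rfl⟩ := exists_ex hvc huc hadj
    have hyz : y ≠ z := ne_of_mem_notMem hy hz
    rcases local_test' h.mat hv hy hz (mem_NB.mp hu).2 with hf | hf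
    · have hyI : y ∉ v.erase y := Finset.notMem_erase _ _
      have hzI : z ∉ v.erase y := fun h1 => hz (Finset.mem_of_mem_erase h1)
      have hins : insert y (v.erase y) = v := Finset.insert_erase hy
      have hA : insert y (v.erase y) ∈ A := by rw [hins]; exact hvA
      have hA2 : insert z (v.erase y) ∈ A := huA
      rcases so_memI (j := j) hf hyI hA with h1 | ⟨h1, h2⟩
      · left
        rw [hins] at h1
        exact h1
      · rcases so_memI (j := j) hf hzI hA2 with h3 | ⟨h3, _⟩
        · exact Or.inr (Or.inl h3)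
        · right; right
          refine ⟨_, so_tieI (so_lnI hf hyI hA) h1 h2, ?_, ?_⟩
          · exact Finset.mem_image.mpr ⟨y, h1, hins⟩
          · exact Finset.mem_image.mpr ⟨z, h3, rfl⟩
    · have hzU : z ∈ insert z v := Finset.mem_insert_self _ _
      have hyU : y ∈ insert z v := Finset.mem_insert_of_mem hy
      have hera : (insert z v).erase z = v := Finset.erase_insert hz
      have hera2 : (insert z v).erase y = ex v y z := by
        rw [ex, Finset.erase_insert_of_ne (Ne.symm hyz)]
      have hA : (insert z v).erase z ∈ A := by rw [hera]; exact hvA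
      have hA2 : (insert z v).erase y ∈ A := by rw [hera2]; exact huA
      rcases so_memU (j := j) hf hzU hA with h1 | ⟨h1, h2⟩
      · left
        rw [hera] at h1
        exact h1
      · rcases so_memU (j := j) hf hyU hA2 with h3 | ⟨h3, _⟩
        · right; left
          rw [hera2] at h3
          exact h3
        · right; right
          refine ⟨_, so_tieU (so_lnU hf hzU hA) h1 h2, ?_, ?_⟩
          · exact Finset.mem_image.mpr ⟨z, h1, hera⟩
          · exact Finset.mem_image.mpr ⟨y, h3, hera2⟩

theorem tie_size (h : Ctx r d j B A) {g : ℕ} (h1 : ∀ S : Finset (Fin n), Dep B S → g ≤ S.card)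
    (h2 : ∀ S : Finset (Fin n), Codep B S → g ≤ S.card) :
    ∀ τ ∈ ties r A (NB r B \ A) (sml r j B) (lrg r j B), g ≤ τ.card := by
  classical
  intro τ hτ
  rcases mem_ties.mp hτ with hτ | hτ
  · obtain ⟨I, hI, hne, hd, rfl⟩ := mem_tieI.mp hτ
    have hinj : Set.InjOn (fun z => insert z I) (TI A (lrg r j B) I : Set (Fin n)) := by
      intro a ha b hb hab
      have haI := (mem_TI.mp (Finset.mem_coe.mp ha)).1
      have h3 : a ∈ insert b I := by
        have h4 : insert a I = insert b I := hab
        rw [← h4]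
        exact Finset.mem_insert_self _ _
      rw [Finset.mem_insert] at h3
      exact h3.resolve_right haI
    rw [Finset.card_image_of_injOn hinj]
    exact h2 _ (TI_codep h hI hne hd)
  · obtain ⟨U, hU, hne, hd, rfl⟩ := mem_tieU.mp hτ
    have hinj : Set.InjOn (fun y => U.erase y) (TU A (sml r j B) U : Set (Fin n)) := by
      intro a ha b hb hab
      have haU := (mem_TU.mp (Finset.mem_coe.mp ha)).1
      by_contra hne2
      have h4 : U.erase a = U.erase b := hab
      have h5 : a ∈ U.erase b := Finset.mem_erase.mpr ⟨hne2, haU⟩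
      rw [← h4] at h5
      exact Finset.notMem_erase _ _ h5
    rw [Finset.card_image_of_injOn hinj]
    exact h1 _ (TU_dep h hU hne hd)

end Pool.Agent.H95.FD
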