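import Pool.Agent.H95.FD.Cls

/-! MODULE WP (about 100 lines). If all ties have at least `g` elements, the non isolated parts take at most `2^(A.card / g)` values.

PROOF. Let `R = (und Dc T).image (rp T)`. Each class of `und` has at least `g` elements: for `c` in `R`, `c = rp T v` with `v` in a tie
`t` (`mem_und`, `mem_allT`) with `g` elements at least, all tied to `v` (`Relation.EqvGen.rel`), so in `und` (`und_closed`) and with
representative `c` (`rp_eq_iff`). So the fibre of `rp T` over `c` in `und` has at least `g` elements and `R.card * g <= (und Dc T).card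
<= A.card` (`Finset.card_eq_sum_card_image` or `Finset.card_nsmul_le_card...`; `und_sub_A` with some member `K` of `KK`; if `KK` is
empty the claim is trivial as `1 <= 2^...`), `R.card <= A.card / g` (`Nat.le_div_iff_mul_le`). The set
`KK.image (fun K => K \ isoK r K)` has at most as many elements as `KK.image (ncl Dc T)`: choose for each value `P` of the first map a
`K` in `KK`, map `P` to `ncl Dc T K`; injective by `niso_eq_of_ncl` (in the contrapositive). And `ncl Dc T K` is a subset of `R`
(`mem_ncl`), so there are at most `2^(R.card)` values (`Finset.card_powerset`). -/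

namespace Pool.Agent.H95.FD

open Pool.Agent.H28.Johnson Pool.Agent.H13.VM

variable {n r : ℕ} {Kn A Dc : Fam n} {T : Finset (Fam n)}

open Classical in
private lemma wp_card_image {α β γ : Type*} [DecidableEq β] [DecidableEq γ] (KK : Finset α) (f : α → β)
    (g : α → γ) (h : ∀ K ∈ KK, ∀ K' ∈ KK, g K = g K' → f K = f K') :
    (KK.image f).card ≤ (KK.image g).card := by
  classical
  rcases KK.eq_empty_or_nonempty with rfl | ⟨K0, hK0⟩
  · simp
  let F : γ → β := fun c => if h : ∃ K ∈ KK, g K = c then f h.choose else f K0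
  have hsub : KK.image f ⊆ (KK.image g).image F := by
    intro P hP
    rw [Finset.mem_image] at hP
    obtain ⟨K, hK, rfl⟩ := hP
    rw [Finset.mem_image]
    refine ⟨g K, Finset.mem_image_of_mem _ hK, ?_⟩
    have hex : ∃ K' ∈ KK, g K' = g K := ⟨K, hK, rfl⟩
    have hF : F (g K) = f hex.choose := by
      simp only [F]
      rw [dif_pos hex]
    rw [hF]
    exact h _ hex.choose_spec.1 _ hK hex.choose_spec.2
  exact (Finset.card_le_card hsub).trans Finset.card_image_le

open Classical in
private lemma wp_fibre {g : ℕ} (hT : ∀ τ ∈ T, g ≤ τ.card) (c : Finset (Fin n))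
    (hc : c ∈ (und Dc T).image (rp T)) :
    g ≤ ((und Dc T).filter fun v => rp T v = c).card := by
  rw [Finset.mem_image] at hc
  obtain ⟨v, hv, rfl⟩ := hc
  have hv' := (mem_und.mp hv).1
  rw [mem_allT] at hv'
  obtain ⟨τ, hτ, hvτ⟩ := hv'
  refine (hT τ hτ).trans (Finset.card_le_card ?_)
  intro w hw
  have ht : Tied T v w := Relation.EqvGen.rel _ _ ⟨τ, hτ, hvτ, hw⟩
  rw [Finset.mem_filter]
  exact ⟨und_closed hv ht, (rp_eq_iff.mpr ht).symm⟩

open Classical in
theorem card_niso_le {KK : Finset (Fam n)} (h : ∀ K ∈ KK, Sys r Kn A Dc T K) {g : ℕ} (hg : 1 ≤ g)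
    (hT : ∀ τ ∈ T, g ≤ τ.card) :
    (KK.image fun K => K \ isoK r K).card ≤ 2 ^ (A.card / g) := by
  rcases KK.eq_empty_or_nonempty with hKK | ⟨K0, hK0⟩
  · subst hKK
    simp
  have h1 : (KK.image fun K => K \ isoK r K).card ≤ (KK.image (ncl Dc T)).card :=
    wp_card_image KK _ _ fun K hK K' hK' he => niso_eq_of_ncl (h K hK) (h K' hK') he
  have h2 : KK.image (ncl Dc T) ⊆ ((und Dc T).image (rp T)).powerset := by
    intro P hP
    rw [Finset.mem_image] at hP
    obtain ⟨K, hK, rfl⟩ := hP
    rw [Finset.mem_powerset, ncl]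
    exact Finset.image_subset_image Finset.inter_subset_right
  have h3 : ((und Dc T).image (rp T)).card * g ≤ A.card := by
    have h4 : (und Dc T).card = ∑ c ∈ (und Dc T).image (rp T),
        ((und Dc T).filter fun v => rp T v = c).card :=
      Finset.card_eq_sum_card_image (rp T) (und Dc T)
    have h5 : ((und Dc T).image (rp T)).card • g ≤ ∑ c ∈ (und Dc T).image (rp T),
        ((und Dc T).filter fun v => rp T v = c).card :=
      Finset.card_nsmul_le_sum _ _ _ fun c hc => wp_fibre hT c hc
    rw [smul_eq_mul, ← h4] at h5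
    exact h5.trans (Finset.card_le_card (und_sub_A (h K0 hK0)))
  have h6 : ((und Dc T).image (rp T)).card ≤ A.card / g := by
    rw [Nat.le_div_iff_mul_le (by omega)]
    exact h3
  calc (KK.image fun K => K \ isoK r K).card ≤ (KK.image (ncl Dc T)).card := h1
    _ ≤ (((und Dc T).image (rp T)).powerset).card := Finset.card_le_card h2
    _ = 2 ^ ((und Dc T).image (rp T)).card := Finset.card_powerset _
    _ ≤ 2 ^ (A.card / g) := Nat.pow_le_pow_right (by norm_num) h6

end Pool.Agent.H95.FD
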