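import Pool.Agent.H95.FD.Det
import Pool.Agent.H95.FD.SysOf
import Pool.Agent.H95.FD.Inj
import Pool.Agent.H95.FD.Pow
import Pool.Agent.H95.FD.Gain
import Pool.Agent.H95.FD.WP
import Pool.Agent.H95.FD.LC
import Pool.Agent.H95.FD.IsoInv

/-! MODULE Grp. The matroids with one code. -/

open scoped BigOperators

namespace Pool.Agent.H95.FD

open Pool.Agent.H28.Johnson Pool.Agent.H13.VM

variable {n r d q θ j : ℕ} {F A : Fam n → Fam n} {c : Fam n × Fam n × Finset (Inf n)}
  {B B' : Fam n}

/-- the undecided classes contained in the nonbases -/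
noncomputable def nclB (r j : ℕ) (A : Fam n → Fam n) (B : Fam n) : Fam n :=
  ncl (decA r (A (NB r B)) (NB r B \ A (NB r B)) (sml r j B) (lrg r j B))
    (ties r (A (NB r B)) (NB r B \ A (NB r B)) (sml r j B) (lrg r j B)) (NB r B)

lemma NB_inj (hB : IsMat n r B) (hB' : IsMat n r B') (h : NB r B = NB r B') : B = B' := by
  rw [NB, NB] at h
  rw [← Finset.sdiff_sdiff_eq_self hB.1, ← Finset.sdiff_sdiff_eq_self hB'.1, h]

theorem ctx_of (hF : IsRun n r d q θ F A) (h1 : d + j ≤ r) (h2 : d + j + r ≤ n)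
    (hB : IsMat n r B) : Ctx r d j B (A (NB r B)) :=
  ⟨hB, hF.subA _ (NB_subset r B), hF.deg _ (NB_subset r B), h1, h2⟩

theorem sys_cls (hF : IsRun n r d q θ F A) (h1 : d + j ≤ r) (h2 : d + j + r ≤ n)
    (hB : B ∈ cls n r j F c) (hB' : B' ∈ cls n r j F c) : SysB r j (A (NB r B)) B B' := by
  rw [mem_cls] at hB hB'
  have hc : code r j F B = code r j F B' := hB.2.trans hB'.2.symm
  obtain ⟨-, hA, hK⟩ := code_det hF hB.1 hB'.1 hc
  have hs : sml r j B = sml r j B' := by
    have := congrArg Prod.fst hc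
    exact this
  have hl : lrg r j B = lrg r j B' := by
    have := congrArg (fun x => x.2.1) hc
    exact this
  have h := sys_of (ctx_of hF h1 h2 hB'.1)
  rw [SysB] at h ⊢
  rw [← hK, ← hA, ← hs, ← hl] at h
  exact h

theorem nclB_eq (hF : IsRun n r d q θ F A)
    (hB : B ∈ cls n r j F c) (hB' : B' ∈ cls n r j F c) :
    nclB r j A B' = ncl (decA r (A (NB r B)) (NB r B \ A (NB r B)) (sml r j B) (lrg r j B))
      (ties r (A (NB r B)) (NB r B \ A (NB r B)) (sml r j B) (lrg r j B)) (NB r B') := by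
  rw [mem_cls] at hB hB'
  have hc : code r j F B = code r j F B' := hB.2.trans hB'.2.symm
  obtain ⟨-, hA, hK⟩ := code_det hF hB.1 hB'.1 hc
  have hs : sml r j B = sml r j B' := by
    have := congrArg Prod.fst hc
    exact this
  have hl : lrg r j B = lrg r j B' := by
    have := congrArg (fun x => x.2.1) hc
    exact this
  rw [nclB, ← hK, ← hA, ← hs, ← hl]

end Pool.Agent.H95.FD
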