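import Pool.Agent.H95.FD.Defs
import Pool.Agent.H13.VM.A3

/-! MODULE LnI (about 150 lines). Analysis of the lines `I` in `lnI` (see Defs: `I` has `r - 1` elements, the line meets `A`, all
members of the line outside `A` are nonbases). Write `Kn = NB r B \ A`, `Zs = Zs A I`, `T = TI A (lrg r j B) I`.

PROOFS. `Zs_card`: let `I + z0` be a member in `A`, `S` = the members `I + z` in `A` with `z <> z0`; all of them are adjacent to
`I + z0` (`adj_insert_insert`), so `S.card < d` (`Ctx.deg`); the complement of `I` has `n - r + 1` elements, each `z` is in `Zs`, or is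
`z0`, or gives a member of `S` (`z -> insert z I` is injective outside `I`).
`mem_TI_iff`: `(insert z (YI A I)).card >= (YI A I).card = r - 1 + Zs.card >= n - d >= r + j` (`num2`), so `insert z (YI A I)` is in
`lrg` iff it contains no base.
`notB_of_notMem_TI`: if `z` is not in `T` then `insert z (YI A I)` contains no base, in particular not `insert z I`.
`full_of_inter`: let `z1` be in `T` and in `Zs`. Suppose `insert x I` is in `B`, `x` not in `I`. Then `x` is not in `Zs` (the members
with position in `Zs` are in `Kn`, nonbases), and `no_base` (A3) with this `x` and `Y = Zs` says that `I` union `Zs` contains no base;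
but `insert z1 (YI A I) = YI A I` contains one.
`full_of_nonbase`: let `z` be in `T` and `insert z I` not in `B`. Suppose `insert x I` in `B`; `x <> z`, `x` not in `Zs`; `no_base` with
`Y = insert z Zs`: no base in `I` union `Y`, contradiction.
`TI_codep`: let `T` be nonempty and disjoint from `Zs`. `YI A I` contains no base: choose `z1` in `Zs` (nonempty by `Zs_card` and
`num2`: `n - r + 1 - d > 0`); it is not in `T`, and `insert z1 (YI A I) = YI A I`. Take `z0` in `T` and a base `B1` contained in
`insert z0 (YI A I)`; `z0` is in `B1`; let `Y1 = B1.erase z0`, contained in `YI A I`. For every `w` not in `T` and not in `Y1`: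
`insert w Y1` is not in `B` (if `w` is in `YI A I` because `YI A I` contains no base; otherwise `w` is not in `I`, and `w` not in `T`
says that `insert w (YI A I)` contains no base). `no_base` (A3) with the set `Y1`, `x = z0` and `Y = Tᶜ`: no base is contained in
`Y1` union `Tᶜ`, so none in `Tᶜ`: every base meets `T`. -/

namespace Pool.Agent.H95.FD

open Pool.Agent.H28.Johnson Pool.Agent.H13.VM

variable {n r d j : ℕ} {B A : Fam n} {I : Finset (Fin n)} {z : Fin n}

theorem Zs_card (h : Ctx r d j B A) (hI : I ∈ lnI r A (NB r B \ A)) :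
    n + 1 ≤ (Zs A I).card + r + d := by
  classical
  obtain ⟨hIc, ⟨z0, hz0, hz0A⟩, hZ⟩ := mem_lnI.1 hI
  have hinj : Set.InjOn (fun z => insert z I) ((Iᶜ : Finset (Fin n)) : Set (Fin n)) := by
    intro a ha b hb hab
    have ha' : a ∉ I := by simpa using ha
    have hab' : insert a I = insert b I := hab
    have h1 : a ∈ insert b I := by rw [← hab']; exact Finset.mem_insert_self a I
    exact (Finset.mem_insert.1 h1).resolve_right ha'
  set P : Finset (Fin n) := Iᶜ.filter fun z => insert z I ∈ A with hP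
  have hz0P : z0 ∈ P := by
    rw [hP, Finset.mem_filter, Finset.mem_compl]
    exact ⟨hz0, hz0A⟩
  have hS := h.deg (insert z0 I) hz0A ((P.erase z0).image fun z => insert z I)
    (by
      intro u hu
      obtain ⟨z, hz, rfl⟩ := Finset.mem_image.1 hu
      exact (Finset.mem_filter.1 (Finset.mem_of_mem_erase hz)).2)
    (by
      intro u hu
      obtain ⟨z, hz, rfl⟩ := Finset.mem_image.1 hu
      obtain ⟨hzz, hz'⟩ := Finset.mem_erase.1 hz
      rw [hP, Finset.mem_filter, Finset.mem_compl] at hz'
      exact adj_insert_insert hIc hz0 hz'.1 (Ne.symm hzz))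
  rw [Finset.card_image_of_injOn] at hS
  · rw [Finset.card_erase_of_mem hz0P] at hS
    have hPpos : 0 < P.card := Finset.card_pos.2 ⟨z0, hz0P⟩
    have h1 : (Zs A I).card + P.card = (Iᶜ : Finset (Fin n)).card := by
      have h3 : (Zs A I) ∪ P = Iᶜ := by
        ext z
        rw [Finset.mem_union, mem_Zs, hP, Finset.mem_filter, Finset.mem_compl]
        tauto
      have h4 : Disjoint (Zs A I) P := by
        rw [Finset.disjoint_left]
        intro z hz1 hz2
        rw [mem_Zs] at hz1
        rw [hP, Finset.mem_filter] at hz2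
        exact hz1.2 hz2.2
      rw [← h3, Finset.card_union_of_disjoint h4]
    have h2 : I.card + (Iᶜ : Finset (Fin n)).card = n := by
      rw [Finset.card_add_card_compl, Fintype.card_fin]
    omega
  · intro a ha b hb hab
    refine hinj ?_ ?_ hab
    · have := Finset.mem_of_mem_erase (Finset.mem_coe.1 ha)
      exact Finset.mem_coe.2 (Finset.mem_filter.1 this).1
    · have := Finset.mem_of_mem_erase (Finset.mem_coe.1 hb)
      exact Finset.mem_coe.2 (Finset.mem_filter.1 this).1

theorem Zs_nonempty (h : Ctx r d j B A) (hI : I ∈ lnI r A (NB r B \ A)) : (Zs A I).Nonempty := by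
  have h1 := Zs_card h hI
  have h2 := h.num2
  rw [← Finset.card_pos]
  omega

theorem mem_TI_iff (h : Ctx r d j B A) (hI : I ∈ lnI r A (NB r B \ A)) (hz : z ∉ I) :
    z ∈ TI A (lrg r j B) I ↔ ∃ X ∈ B, X ⊆ insert z (YI A I) := by
  have hc : r + j ≤ (insert z (YI A I)).card := by
    have h1 := Zs_card h hI
    have h2 := h.num2
    have h3 := (mem_lnI.1 hI).1
    have h4 : (YI A I).card = I.card + (Zs A I).card := by
      rw [YI, Finset.card_union_of_disjoint]
      rw [Finset.disjoint_left]
      intro y hy hy'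
      exact (mem_Zs.1 hy').1 hy
    have h5 : (YI A I).card ≤ (insert z (YI A I)).card :=
      Finset.card_le_card (Finset.subset_insert _ _)
    omega
  rw [mem_TI, mem_lrg]
  constructor
  · rintro ⟨-, h1⟩
    by_contra h2
    push Not at h2
    exact h1 ⟨hc, h2⟩
  · rintro ⟨X, hX, hXs⟩
    exact ⟨hz, fun h1 => h1.2 X hX hXs⟩

theorem notB_of_notMem_TI (h : Ctx r d j B A) (hI : I ∈ lnI r A (NB r B \ A)) (hz : z ∉ I)
    (hT : z ∉ TI A (lrg r j B) I) : insert z I ∉ B := by
  intro hB
  apply hT
  rw [mem_TI_iff h hI hz]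
  refine ⟨_, hB, ?_⟩
  apply Finset.insert_subset_insert
  intro y hy
  exact mem_YI.2 (Or.inl hy)

private theorem LnI_notZs (hI : I ∈ lnI r A (NB r B \ A)) {x : Fin n} (hx : x ∈ Zs A I) :
    insert x I ∉ B := by
  have h1 := (mem_lnI.1 hI).2.2 x hx
  exact (mem_NB.1 (Finset.mem_sdiff.1 h1).1).2

theorem full_of_inter (h : Ctx r d j B A) (hI : I ∈ lnI r A (NB r B \ A))
    (hT : ¬ Disjoint (TI A (lrg r j B) I) (Zs A I)) : ∀ x, x ∉ I → insert x I ∉ B := by
  intro x hxI hxB
  rw [Finset.not_disjoint_iff] at hT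
  obtain ⟨z1, hz1, hz1Z⟩ := hT
  have hxZ : x ∉ Zs A I := fun hx => LnI_notZs hI hx hxB
  have hno := no_base h.mat hxI hxZ hxB (fun y hy _ => LnI_notZs hI hy)
  obtain ⟨X, hX, hXs⟩ := (mem_TI_iff h hI (mem_Zs.1 hz1Z).1).1 hz1
  apply hno X hX
  intro y hy
  rw [Finset.mem_union]
  rcases Finset.mem_insert.1 (hXs hy) with rfl | h1
  · exact Or.inr hz1Z
  · exact mem_YI.1 h1

theorem full_of_nonbase (h : Ctx r d j B A) (hI : I ∈ lnI r A (NB r B \ A))
    (hz : z ∈ TI A (lrg r j B) I) (hzB : insert z I ∉ B) : ∀ x, x ∉ I → insert x I ∉ B := by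
  intro x hxI hxB
  have hxZ : x ∉ insert z (Zs A I) := by
    rw [Finset.mem_insert]
    rintro (rfl | hx)
    · exact hzB hxB
    · exact LnI_notZs hI hx hxB
  have hno := no_base h.mat hxI hxZ hxB (fun y hy _ => by
    rcases Finset.mem_insert.1 hy with rfl | hy
    · exact hzB
    · exact LnI_notZs hI hy)
  obtain ⟨X, hX, hXs⟩ := (mem_TI_iff h hI (mem_TI.1 hz).1).1 hz
  apply hno X hX
  intro y hy
  rw [Finset.mem_union, Finset.mem_insert]
  rcases Finset.mem_insert.1 (hXs hy) with rfl | h1
  · exact Or.inr (Or.inl rfl)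
  · rcases mem_YI.1 h1 with h2 | h2
    · exact Or.inl h2
    · exact Or.inr (Or.inr h2)

theorem TI_codep (h : Ctx r d j B A) (hI : I ∈ lnI r A (NB r B \ A))
    (hT : (TI A (lrg r j B) I).Nonempty) (hd : Disjoint (TI A (lrg r j B) I) (Zs A I)) :
    Codep B (TI A (lrg r j B) I) := by
  -- `YI A I` contains no base
  have hYno : ∀ X ∈ B, ¬ X ⊆ YI A I := by
    intro X hX hXs
    obtain ⟨z1, hz1⟩ := Zs_nonempty h hI
    have h1 : z1 ∉ TI A (lrg r j B) I := fun h2 => Finset.disjoint_left.1 hd h2 hz1
    apply h1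
    rw [mem_TI_iff h hI (mem_Zs.1 hz1).1]
    exact ⟨X, hX, hXs.trans (Finset.subset_insert _ _)⟩
  obtain ⟨z0, hz0⟩ := hT
  obtain ⟨B1, hB1, hB1s⟩ := (mem_TI_iff h hI (mem_TI.1 hz0).1).1 hz0
  have hz0B1 : z0 ∈ B1 := by
    by_contra h1
    apply hYno B1 hB1
    intro y hy
    rcases Finset.mem_insert.1 (hB1s hy) with rfl | h2
    · exact absurd hy h1
    · exact h2
  have hY1 : B1.erase z0 ⊆ YI A I := by
    intro y hy
    obtain ⟨hy0, hy1⟩ := Finset.mem_erase.1 hy
    exact (Finset.mem_insert.1 (hB1s hy1)).resolve_left hy0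
  intro X hX hdis
  have hno := no_base h.mat (I := B1.erase z0) (Y := (TI A (lrg r j B) I)ᶜ) (x := z0)
    (Finset.notMem_erase z0 B1) (by rw [Finset.mem_compl, not_not]; exact hz0)
    (by rw [Finset.insert_erase hz0B1]; exact hB1)
    (by
      intro y hy hy1 hyB
      rw [Finset.mem_compl] at hy
      by_cases hyY : y ∈ YI A I
      · exact hYno _ hyB (Finset.insert_subset hyY hY1)
      · have hyI : y ∉ I := fun h1 => hyY (mem_YI.2 (Or.inl h1))
        apply hy
        rw [mem_TI_iff h hI hyI]
        exact ⟨_, hyB, Finset.insert_subset_insert _ hY1⟩)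
  apply hno X hX
  intro y hy
  rw [Finset.mem_union, Finset.mem_compl]
  exact Or.inr fun h1 => Finset.disjoint_left.1 hdis h1 hy

end Pool.Agent.H95.FD
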