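import Pool.Agent.H95.FD.Defs

/-! MODULE PtRel (about 140 lines). Stable families all of whose members contain (avoid) the point `z`, as stable families on one
point less.

PROOF. Let `pre z X` be the set of `a` in `Fin m` with `z.succAbove a` in `X`. The map `pre z` is injective on the sets containing `z`, and
on the sets not containing `z` (every point different from `z` is `z.succAbove a` for some `a`: `Fin.exists_succAbove_eq`).
`(pre z X).card = X.card - 1` if `z` is in `X`, and `= X.card` if not; `pre z (X ∩ Y) = pre z X ∩ pre z Y`. So (`adj r X Y` means `X <> Y`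
and `r <= (X ∩ Y).card + 1`) for `X`, `Y` both containing `z`: `adj (k+1) X Y` iff `adj k (pre z X) (pre z Y)`; for `X`, `Y` both not
containing `z`: `adj r X Y` iff `adj r (pre z X) (pre z Y)`. The map `I -> I.image (pre z)` is injective on the families in
question (`Finset.image_injOn`-like: `pre z` is injective on the union), preserves the number of members
(`Finset.card_image_of_injOn`), and its values are in `stables m k`, `stables m r`. Conclude with
`Finset.card_le_card_of_injOn`. Compare `Pool/Agent/H8/VM/G0_Pairs.lean`. -/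

open scoped BigOperators

namespace Pool.Agent.H95.FD

open Pool.Agent.H28.Johnson Pool.Agent.H28.Windows Pool.Agent.H13.VM

open Classical in
private noncomputable def ptPre {m : ℕ} (z : Fin (m + 1)) (X : Finset (Fin (m + 1))) :
    Finset (Fin m) := Finset.univ.filter fun a => z.succAbove a ∈ X

private lemma mem_ptPre {m : ℕ} {z : Fin (m + 1)} {X : Finset (Fin (m + 1))} {a : Fin m} :
    a ∈ ptPre z X ↔ z.succAbove a ∈ X := by
  classical
  simp [ptPre]

private lemma ptPre_map {m : ℕ} (z : Fin (m + 1)) (X : Finset (Fin (m + 1))) :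
    (ptPre z X).map z.succAboveEmb = X.erase z := by
  classical
  ext x
  simp only [Finset.mem_map, mem_ptPre, Finset.mem_erase, Fin.succAboveEmb_apply]
  constructor
  · rintro ⟨a, ha, rfl⟩
    exact ⟨Fin.succAbove_ne z a, ha⟩
  · rintro ⟨hx, hxX⟩
    obtain ⟨a, rfl⟩ := Fin.exists_succAbove_eq hx
    exact ⟨a, hxX, rfl⟩

private lemma ptPre_card {m : ℕ} (z : Fin (m + 1)) (X : Finset (Fin (m + 1))) :
    (ptPre z X).card = (X.erase z).card := by
  rw [← ptPre_map, Finset.card_map]

private lemma ptPre_inter {m : ℕ} (z : Fin (m + 1)) (X Y : Finset (Fin (m + 1))) :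
    ptPre z X ∩ ptPre z Y = ptPre z (X ∩ Y) := by
  ext a
  simp [mem_ptPre]

open Classical in
private lemma rel_gen {m r r' : ℕ} (pre : Finset (Fin (m + 1)) → Finset (Fin m))
    (C : Finset (Fin (m + 1)) → Prop)
    (hinj : ∀ X Y, C X → C Y → pre X = pre Y → X = Y)
    (hb : ∀ X, C X → X.card = r → (pre X).card = r')
    (hadj : ∀ X Y, C X → C Y → adj r' (pre X) (pre Y) → adj r X Y) (t : ℝ) :
    ((stabs r (Base (m + 1) r)).filter fun I =>
      (∀ X ∈ I, C X) ∧ t ≤ (I.card : ℝ)).card ≤
    ((stables m r').filter fun I => t ≤ (I.card : ℝ)).card := by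
  have hci : ∀ I : Finset (Finset (Fin (m + 1))), (∀ X ∈ I, C X) →
      (I.image pre).card = I.card := fun I hI =>
    Finset.card_image_of_injOn fun X hX Y hY h =>
      hinj X Y (hI X (Finset.mem_coe.mp hX)) (hI Y (Finset.mem_coe.mp hY)) h
  refine Finset.card_le_card_of_injOn (fun I => I.image pre) ?_ ?_
  · intro I hI
    rw [Finset.mem_coe, Finset.mem_filter, mem_stabs] at hI
    obtain ⟨⟨hIB, hst⟩, hC, ht⟩ := hI
    rw [Finset.mem_coe, Finset.mem_filter, mem_stables]
    refine ⟨⟨?_, ?_⟩, ?_⟩
    · intro Z hZ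
      obtain ⟨X, hX, rfl⟩ := Finset.mem_image.mp hZ
      exact mem_Base.mpr (hb X (hC X hX) (mem_Base.mp (hIB hX)))
    · intro Z hZ W hW hZW
      obtain ⟨X, hX, rfl⟩ := Finset.mem_image.mp hZ
      obtain ⟨Y, hY, rfl⟩ := Finset.mem_image.mp hW
      exact hst X hX Y hY (hadj X Y (hC X hX) (hC Y hY) hZW)
    · rw [hci I hC]
      exact ht
  · intro I hI J hJ hIJ
    rw [Finset.mem_coe, Finset.mem_filter] at hI hJ
    have key : ∀ I J : Finset (Finset (Fin (m + 1))), (∀ X ∈ I, C X) → (∀ X ∈ J, C X) →
        I.image pre = J.image pre → I ⊆ J := by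
      intro I J hI hJ h X hX
      have h1 : pre X ∈ J.image pre := by
        rw [← h]; exact Finset.mem_image_of_mem pre hX
      obtain ⟨Y, hY, hYX⟩ := Finset.mem_image.mp h1
      rw [← hinj Y X (hJ Y hY) (hI X hX) hYX]
      exact hY
    exact Finset.Subset.antisymm (key I J hI.2.1 hJ.2.1 hIJ) (key J I hJ.2.1 hI.2.1 hIJ.symm)

open Classical in
theorem rel_in {m k : ℕ} (z : Fin (m + 1)) (t : ℝ) :
    ((stabs (k + 1) (Base (m + 1) (k + 1))).filter fun I =>
      (∀ X ∈ I, z ∈ X) ∧ t ≤ (I.card : ℝ)).card ≤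
    ((stables m k).filter fun I => t ≤ (I.card : ℝ)).card := by
  have hcard : ∀ X : Finset (Fin (m + 1)), z ∈ X → (ptPre z X).card + 1 = X.card := by
    intro X hX
    rw [ptPre_card, Finset.card_erase_add_one hX]
  have main := rel_gen (r := k + 1) (r' := k) (ptPre z) (fun X => z ∈ X) ?_ ?_ ?_ t
  · convert main
  · intro X Y hX hY h
    have h1 : X.erase z = Y.erase z := by rw [← ptPre_map, ← ptPre_map, h]
    rw [← Finset.insert_erase hX, ← Finset.insert_erase hY, h1]
  · intro X hX hc
    have := hcard X hX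
    omega
  · rintro X Y hX hY ⟨hne, hle⟩
    refine ⟨fun h => hne (by rw [h]), ?_⟩
    rw [ptPre_inter] at hle
    have := hcard (X ∩ Y) (Finset.mem_inter.mpr ⟨hX, hY⟩)
    omega

open Classical in
theorem rel_out {m r : ℕ} (z : Fin (m + 1)) (t : ℝ) :
    ((stabs r (Base (m + 1) r)).filter fun I =>
      (∀ X ∈ I, z ∉ X) ∧ t ≤ (I.card : ℝ)).card ≤
    ((stables m r).filter fun I => t ≤ (I.card : ℝ)).card := by
  have hcard : ∀ X : Finset (Fin (m + 1)), z ∉ X → (ptPre z X).card = X.card := by
    intro X hX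
    rw [ptPre_card, Finset.erase_eq_of_notMem hX]
  have main := rel_gen (r := r) (r' := r) (ptPre z) (fun X => z ∉ X) ?_ ?_ ?_ t
  · convert main
  · intro X Y hX hY h
    have h1 : X.erase z = Y.erase z := by rw [← ptPre_map, ← ptPre_map, h]
    rw [Finset.erase_eq_of_notMem hX, Finset.erase_eq_of_notMem hY] at h1
    exact h1
  · intro X hX hc
    have := hcard X hX
    omega
  · rintro X Y hX hY ⟨hne, hle⟩
    refine ⟨fun h => hne (by rw [h]), ?_⟩
    rw [ptPre_inter] at hle
    have := hcard (X ∩ Y) (fun h => hX (Finset.mem_inter.mp h).1)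
    omega

end Pool.Agent.H95.FD
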